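import Pool.Agent.TH673.VG.CritInd

/-! Good chains in structures of elementary type. -/

set_option autoImplicit false

namespace Pool.Agent.TH673.VG

open Pool.Agent.H315R3.ETC

/-- over every proper subgroup there is a good element -/
def GoodAll (S : QData) : Prop := ∀ L : Subgroup S.G, L ≠ ⊤ → ∃ a : S.G, a ∉ L ∧ GoodOver S L a

theorem good_two {S : QData} (h : IsQuat S) (ht : TwoValues S) : GoodAll S := by
  intro L hL
  obtain ⟨t, ht⟩ := ht
  obtain ⟨a, ha⟩ := exists_notMem hL
  refine ⟨a, ha, fun H _ _ => ?_⟩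
  by_cases hex : ∃ g ∈ H, ∃ z, S.q g z = t
  · obtain ⟨g, hg, z, hz⟩ := hex
    refine ⟨g, hg, fun k _ x y _ => ?_⟩
    rcases ht a x with h1 | h1
    · exact Or.inl ⟨1, H.one_mem, by rw [h1, q_one h]⟩
    · exact Or.inr ⟨z, by rw [h1, hz]⟩
  · push Not at hex
    refine ⟨1, H.one_mem, fun k hk x y e => ?_⟩
    rcases ht a x with h1 | h1
    · exact Or.inl ⟨1, H.one_mem, by rw [h1, q_one h]⟩
    · exact absurd (e.symm.trans h1) (hex k hk y)

theorem good_prod' {S T : QData} (h : IsQuat (prod S T)) (hS : GoodAll S) (hT : GoodAll T) :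
    GoodAll (prod S T) := by
  have zS : ∀ x, S.q 1 x = S.zero := q_one' (isQuat_left h)
  have zT : ∀ x, T.q 1 x = T.zero := q_one' (isQuat_right h)
  have oS : ∀ x, S.q x 1 = S.zero := q_one (isQuat_left h)
  have oT : ∀ x, T.q x 1 = T.zero := q_one (isQuat_right h)
  intro (L : Subgroup (S.G × T.G)) hL
  by_cases h1 : L.comap (MonoidHom.inl S.G T.G) = ⊤
  · by_cases h2 : L.comap (MonoidHom.inr S.G T.G) = ⊤
    · exfalso
      apply hL
      rw [eq_top_iff]
      rintro (⟨x, y⟩ : S.G × T.G) _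
      have h3 : x ∈ L.comap (MonoidHom.inl S.G T.G) := by rw [h1]; trivial
      have h4 : y ∈ L.comap (MonoidHom.inr S.G T.G) := by rw [h2]; trivial
      have h5 : ((x, 1) : S.G × T.G) * (1, y) ∈ L := L.mul_mem h3 h4
      have h6 : ((x, 1) : S.G × T.G) * (1, y) = (x, y) := by
        rw [Prod.mk_mul_mk, one_mul, mul_one]
      rw [h6] at h5
      exact h5
    · obtain ⟨a, ha, hgood⟩ := hT _ h2
      refine ⟨((1, a) : S.G × T.G), ha, fun (H : Subgroup (S.G × T.G)) hLH haH => ?_⟩
      by_cases haH' : a ∈ H.map (MonoidHom.snd S.G T.G)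
      · obtain ⟨⟨g1, g2⟩, hg, e⟩ := haH'
        have e' : g2 = a := e
        subst e'
        refine ⟨(g1, g2), hg, ?_⟩
        rintro - - (⟨x1, x2⟩ : S.G × T.G) - -
        exact Or.inr ⟨((1, x2) : S.G × T.G), Prod.ext ((zS x1).trans (oS g1).symm) rfl⟩
      · obtain ⟨g, ⟨⟨g1, g2⟩, hg, e⟩, hM⟩ := hgood (H.map (MonoidHom.snd S.G T.G))
          (fun l hl => ⟨((1, l) : S.G × T.G), hLH hl, rfl⟩) haH'
        have e' : g2 = g := e
        subst e'
        refine ⟨(g1, g2), hg, ?_⟩
        rintro (⟨h1, h2⟩ : S.G × T.G) hh (⟨x1, x2⟩ : S.G × T.G) (⟨y1, y2⟩ : S.G × T.G) exy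
        rcases hM h2 ⟨_, hh, rfl⟩ x2 y2 (congrArg Prod.snd exy) with ⟨k, hk, e2⟩ | ⟨z, e2⟩
        · obtain ⟨⟨k1, k2⟩, hk', e3⟩ := hk
          have e3' : k2 = k := e3
          subst e3'
          exact Or.inl ⟨(k1, k2), hk', Prod.ext ((zS x1).trans (zS k1).symm) e2⟩
        · exact Or.inr ⟨((1, z) : S.G × T.G), Prod.ext ((zS x1).trans (oS g1).symm) e2⟩
  · obtain ⟨a, ha, hgood⟩ := hS _ h1
    refine ⟨((a, 1) : S.G × T.G), ha, fun (H : Subgroup (S.G × T.G)) hLH haH => ?_⟩
    by_cases haH' : a ∈ H.map (MonoidHom.fst S.G T.G)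
    · obtain ⟨⟨g1, g2⟩, hg, e⟩ := haH'
      have e' : g1 = a := e
      subst e'
      refine ⟨(g1, g2), hg, ?_⟩
      rintro - - (⟨x1, x2⟩ : S.G × T.G) - -
      exact Or.inr ⟨((x1, 1) : S.G × T.G), Prod.ext rfl ((zT x2).trans (oT g2).symm)⟩
    · obtain ⟨g, ⟨⟨g1, g2⟩, hg, e⟩, hM⟩ := hgood (H.map (MonoidHom.fst S.G T.G))
        (fun l hl => ⟨((l, 1) : S.G × T.G), hLH hl, rfl⟩) haH'
      have e' : g1 = g := e
      subst e'
      refine ⟨(g1, g2), hg, ?_⟩
      rintro (⟨h1, h2⟩ : S.G × T.G) hh (⟨x1, x2⟩ : S.G × T.G) (⟨y1, y2⟩ : S.G × T.G) exy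
      rcases hM h1 ⟨_, hh, rfl⟩ x1 y1 (congrArg Prod.fst exy) with ⟨k, hk, e2⟩ | ⟨z, e2⟩
      · obtain ⟨⟨k1, k2⟩, hk', e3⟩ := hk
        have e3' : k1 = k := e3
        subst e3'
        exact Or.inl ⟨(k1, k2), hk', Prod.ext e2 ((zT x2).trans (zT k2).symm)⟩
      · exact Or.inr ⟨((z, 1) : S.G × T.G), Prod.ext e2 ((zT x2).trans (oT g2).symm)⟩

theorem good_ext {S : QData} (h : IsQuat (fz (ext S))) (hS : GoodAll (fz S)) :
    GoodAll (fz (ext S)) := by
  have hS0 : IsQuat (fz S) := isQuat_of_ext h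
  have g2 : ∀ x : S.G, x * x = 1 := hS0.exp2
  have qsym : ∀ a b : S.G, S.q a b = S.q b a := hS0.qs2
  have q1 : ∀ a : S.G, S.q a 1 = S.q 1 1 := fun a => q_one hS0 a
  have hns : ∀ a : S.G, S.q a (S.neg * a) = S.q 1 1 := hS0.qs1
  have shift : ∀ a d b : S.G, S.q a d = S.q 1 1 → S.q a (d * b) = S.q a b :=
    fun a d b hd => q_shift hS0 b hd
  have q11 : ∀ a b : S.G, (fz (ext S)).q ((a, 1) : S.G × C2) ((b, 1) : S.G × C2) = (S.q a b, 1) := by
    intro a b
    show (S.q a b, pw (pw S.neg 1) 1 * pw a 1 * pw b 1) = (S.q a b, (1 : S.G))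
    simp [pw_one']
  have q1g : ∀ a b : S.G, (fz (ext S)).q ((a, 1) : S.G × C2) ((b, gen) : S.G × C2) =
      (S.q a b, a) := by
    intro a b
    show (S.q a b, pw (pw S.neg 1) gen * pw a gen * pw b 1) = (S.q a b, a)
    rw [pw_one', pw_gen, pw_gen, pw_one', one_mul, mul_one]
  have qg1 : ∀ a b : S.G, (fz (ext S)).q ((a, gen) : S.G × C2) ((b, 1) : S.G × C2) =
      (S.q a b, b) := by
    intro a b
    show (S.q a b, pw (pw S.neg gen) 1 * pw a 1 * pw b gen) = (S.q a b, b)
    rw [pw_one', pw_one', pw_gen, one_mul, one_mul]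
  have qgg : ∀ a b : S.G, (fz (ext S)).q ((a, gen) : S.G × C2) ((b, gen) : S.G × C2) =
      (S.q a b, S.neg * a * b) := by
    intro a b
    show (S.q a b, pw (pw S.neg gen) gen * pw a gen * pw b gen) = (S.q a b, S.neg * a * b)
    rw [pw_gen, pw_gen, pw_gen, pw_gen]
  intro (L : Subgroup (S.G × C2)) hL
  by_cases h0 : L.comap (MonoidHom.inl S.G C2) = ⊤
  · -- `G × 1 ≤ L`
    have hG : ∀ g : S.G, ((g, 1) : S.G × C2) ∈ L := by
      intro g
      have : g ∈ L.comap (MonoidHom.inl S.G C2) := by rw [h0]; trivial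
      exact this
    have htop : ∀ H : Subgroup (S.G × C2), L ≤ H → ((1, gen) : S.G × C2) ∈ H → H = ⊤ := by
      intro H hLH hg
      rw [eq_top_iff]
      rintro (⟨x, ξ⟩ : S.G × C2) _
      rcases C2_cases ξ with rfl | rfl
      · exact hLH (hG x)
      · have h1 := H.mul_mem (hLH (hG x)) hg
        have h2 : ((x, 1) : S.G × C2) * (1, gen) = (x, gen) := by
          rw [Prod.mk_mul_mk, one_mul, mul_one]
        rw [h2] at h1
        exact h1
    refine ⟨((1, gen) : S.G × C2), fun h1 => hL (htop L le_rfl h1),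
      fun (H : Subgroup (S.G × C2)) hLH _ => ⟨((1, 1) : S.G × C2), H.one_mem, ?_⟩⟩
    rintro - - (⟨x, ξ⟩ : S.G × C2) - -
    left
    rcases C2_cases ξ with rfl | rfl
    · exact ⟨((x, 1) : S.G × C2), hLH (hG x), rfl⟩
    · refine ⟨((S.neg * x, 1) : S.G × C2), hLH (hG _), ?_⟩
      show (fz (ext S)).q ((1, gen) : S.G × C2) ((x, gen) : S.G × C2) =
        (fz (ext S)).q ((1, gen) : S.G × C2) ((S.neg * x, 1) : S.G × C2)
      rw [qgg, qg1, mul_one]
      have e1 : S.q 1 x = S.q 1 1 := by rw [qsym, q1]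
      have e2 : S.q 1 (S.neg * x) = S.q 1 1 := by rw [qsym, q1]
      rw [e1, e2]
  · obtain ⟨(a : S.G), ha, hgood⟩ := hS _ h0
    refine ⟨((a, 1) : S.G × C2), ha, fun (H : Subgroup (S.G × C2)) hLH haH => ?_⟩
    obtain ⟨(g : S.G), hg, hM⟩ := hgood (H.comap (MonoidHom.inl S.G C2))
      (fun (l : S.G) hl => hLH hl) haH
    have hg' : ((g, 1) : S.G × C2) ∈ H := hg
    have h1H : ((1, 1) : S.G × C2) ∈ H := H.one_mem
    refine ⟨((g, 1) : S.G × C2), hg', ?_⟩
    rintro (⟨k, η⟩ : S.G × C2) hk (⟨x, ξ⟩ : S.G × C2) (⟨y, υ⟩ : S.G × C2) exy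
    rcases C2_cases η with rfl | rfl
    · -- `h = (k, 1)`
      rcases C2_cases ξ with rfl | rfl
      · have e1 : S.q a x = S.q k y := congrArg Prod.fst exy
        rcases hM k hk x y e1 with ⟨(k' : S.G), hk', e2⟩ | ⟨(z : S.G), e2⟩
        · left
          refine ⟨((k', 1) : S.G × C2), hk', ?_⟩
          show (fz (ext S)).q ((a, 1) : S.G × C2) ((x, 1) : S.G × C2) =
            (fz (ext S)).q ((a, 1) : S.G × C2) ((k', 1) : S.G × C2)
          have e3 : S.q a x = S.q a k' := e2
          rw [q11, q11, e3]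
        · right
          refine ⟨((z, 1) : S.G × C2), ?_⟩
          show (fz (ext S)).q ((a, 1) : S.G × C2) ((x, 1) : S.G × C2) =
            (fz (ext S)).q ((g, 1) : S.G × C2) ((z, 1) : S.G × C2)
          have e3 : S.q a x = S.q g z := e2
          rw [q11, q11, e3]
      · exfalso
        apply haH
        have exy' : (fz (ext S)).q ((a, 1) : S.G × C2) ((x, gen) : S.G × C2) =
          (fz (ext S)).q ((k, 1) : S.G × C2) ((y, υ) : S.G × C2) := exy
        rcases C2_cases υ with rfl | rfl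
        · rw [q1g, q11] at exy'
          have e1 : a = 1 := congrArg Prod.snd exy'
          rw [e1]; exact h1H
        · rw [q1g, q1g] at exy'
          have e1 : a = k := congrArg Prod.snd exy'
          rw [e1]; exact hk
    · -- `h = (k, gen)`
      left
      have exy' : (fz (ext S)).q ((a, 1) : S.G × C2) ((x, ξ) : S.G × C2) =
          (fz (ext S)).q ((k, gen) : S.G × C2) ((y, υ) : S.G × C2) := exy
      rcases C2_cases ξ with rfl | rfl
      · refine ⟨((1, 1) : S.G × C2), h1H, ?_⟩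
        show (fz (ext S)).q ((a, 1) : S.G × C2) ((x, 1) : S.G × C2) =
          (fz (ext S)).q ((a, 1) : S.G × C2) ((1, 1) : S.G × C2)
        rw [q11, q11, q1]
        rcases C2_cases υ with rfl | rfl
        · rw [q11, qg1] at exy'
          have e1 : S.q a x = S.q k y := congrArg Prod.fst exy'
          have e2 : 1 = y := congrArg Prod.snd exy'
          rw [e1, ← e2, q1]
        · rw [q11, qgg] at exy'
          have e1 : S.q a x = S.q k y := congrArg Prod.fst exy'
          have e2 : 1 = S.neg * k * y := congrArg Prod.snd exy'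
          have e3 : y = S.neg * k := by
            have := congrArg (fun t => S.neg * k * t) e2
            simp only [mul_one] at this
            rw [← mul_assoc, g2, one_mul] at this
            exact this.symm
          rw [e1, e3, hns]
      · refine ⟨((k, gen) : S.G × C2), hk, ?_⟩
        show (fz (ext S)).q ((a, 1) : S.G × C2) ((x, gen) : S.G × C2) =
          (fz (ext S)).q ((a, 1) : S.G × C2) ((k, gen) : S.G × C2)
        rw [q1g, q1g]
        have hfin : S.q a x = S.q a k := by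
          rcases C2_cases υ with rfl | rfl
          · rw [q1g, qg1] at exy'
            have e1 : S.q a x = S.q k y := congrArg Prod.fst exy'
            have e2 : a = y := congrArg Prod.snd exy'
            rw [e1, ← e2, qsym]
          · rw [q1g, qgg] at exy'
            have e1 : S.q a x = S.q k y := congrArg Prod.fst exy'
            have e2 : a = S.neg * k * y := congrArg Prod.snd exy'
            have e3 : y = S.neg * k * a := by
              have h5 : S.neg * k * a = S.neg * k * (S.neg * k * y) :=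
                congrArg (fun t => S.neg * k * t) e2
              rw [← mul_assoc (S.neg * k) (S.neg * k) y, g2, one_mul] at h5
              exact h5.symm
            rw [e1, e3, shift k (S.neg * k) a (hns k), qsym]
        rw [hfin]

theorem good_of_iso {S T : QData} (e : Iso S T) (hS : GoodAll (fz S)) : GoodAll (fz T) := by
  obtain ⟨φ, hn, hq⟩ := e
  intro (L : Subgroup T.G) hL
  have h1 : L.comap φ.toMonoidHom ≠ ⊤ := by
    intro h2
    apply hL
    rw [eq_top_iff]
    intro (x : T.G) _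
    have h3 : φ (φ.symm x) ∈ L := (Subgroup.eq_top_iff' _).1 h2 (φ.symm x)
    rwa [φ.apply_symm_apply] at h3
  obtain ⟨(a : S.G), ha, hgood⟩ := hS _ h1
  refine ⟨φ a, ha, fun (H : Subgroup T.G) hLH haH => ?_⟩
  obtain ⟨(g : S.G), hg, hM⟩ := hgood (H.comap φ.toMonoidHom) (fun (l : S.G) hl => hLH hl) haH
  refine ⟨φ g, hg, fun (k : T.G) hk (x : T.G) (y : T.G) exy => ?_⟩
  have hk' : φ (φ.symm k) ∈ H := by rwa [φ.apply_symm_apply]
  have e1 : S.q a (φ.symm x) = S.q (φ.symm k) (φ.symm y) := by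
    rw [hq, φ.apply_symm_apply, φ.apply_symm_apply, φ.apply_symm_apply]
    exact exy
  rcases hM (φ.symm k) hk' (φ.symm x) (φ.symm y) e1 with ⟨(k' : S.G), hk'', e2⟩ | ⟨(z : S.G), e2⟩
  · left
    refine ⟨φ k', hk'', ?_⟩
    have e3 : S.q a (φ.symm x) = S.q a k' := e2
    rw [hq, φ.apply_symm_apply] at e3
    exact e3
  · right
    refine ⟨φ z, ?_⟩
    have e3 : S.q a (φ.symm x) = S.q g z := e2
    rw [hq, φ.apply_symm_apply] at e3
    exact e3

theorem goodAll_aux (S : QData) (hE : Elem S) : IsQuat (fz S) → GoodAll (fz S) := by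
  induction hE with
  | l0 => exact fun h => good_two h ⟨(), fun _ _ => Or.inl rfl⟩
  | l10 => exact fun h => good_two h ⟨(), fun _ _ => Or.inl rfl⟩
  | l11 => exact fun h => good_two h ⟨(), fun _ _ => Or.inl rfl⟩
  | l1 =>
    intro h
    refine good_two h ⟨true, fun a b => ?_⟩
    have hz : (fz L1).zero = false := by
      show decide ((1 : C2) = gen ∧ (1 : C2) = gen) = false
      simp [gen2]
    rw [hz]
    exact bool_or _
  | loc S hS =>
    intro h
    obtain ⟨-, hf, -, -, hc⟩ := hS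
    refine good_two h ?_
    obtain ⟨x, y, hxy, hset⟩ := Set.ncard_eq_two.1 hc
    have hmem : ∀ a b : S.G, S.q a b = x ∨ S.q a b = y := by
      intro a b
      have : S.q a b ∈ {t : S.Q | ∃ a b : S.G, S.q a b = t} := ⟨a, b, rfl⟩
      rw [hset] at this
      simpa using this
    rcases hmem 1 1 with h1 | h1
    · refine ⟨y, fun a b => ?_⟩
      show S.q a b = S.q 1 1 ∨ S.q a b = y
      rw [h1]; exact hmem a b
    · refine ⟨x, fun a b => ?_⟩
      show S.q a b = S.q 1 1 ∨ S.q a b = x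
      rw [h1]; exact (hmem a b).symm
  | prod S T _ _ ih1 ih2 =>
    intro h
    have h' : IsQuat (prod (fz S) (fz T)) := h
    exact good_prod' (S := fz S) (T := fz T) h' (ih1 (isQuat_left h')) (ih2 (isQuat_right h'))
  | ext S _ ih =>
    intro h
    exact good_ext h (ih (isQuat_of_ext h))
  | iso S T _ hST ih =>
    intro h
    exact good_of_iso hST (ih (isQuat_of_iso hST h))

theorem goodAll_of_elem {S : QData} (h : IsQuat S) (hE : Elem S) : GoodAll S := by
  have h1 := goodAll_aux S hE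
  rw [fz_eq h] at h1
  exact h1 h

theorem chain_of_goodAll {S : QData} [Finite S.G] (hg : GoodAll S) : Chain S ⊤ := by
  have key : ∀ L : Subgroup S.G, Chain S L → Chain S ⊤ := by
    intro L
    induction L using WellFoundedGT.induction with
    | ind L ih =>
      intro hL
      by_cases ht : L = ⊤
      · rw [← ht]; exact hL
      obtain ⟨a, ha, hgood⟩ := hg L ht
      have hlt : L < L ⊔ Subgroup.zpowers a := by
        refine lt_of_le_of_ne le_sup_left fun e => ha ?_
        rw [e]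
        exact (le_sup_right : _ ≤ L ⊔ Subgroup.zpowers a) (Subgroup.mem_zpowers a)
      exact ih _ hlt (Chain.step L a hL hgood)
  exact key ⊥ Chain.bot

end Pool.Agent.TH673.VG
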