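import Mathlib
import Pool.Agent.H315R3.ETC.Defs

/-! The value group criterion for elementary type: definitions. -/

set_option autoImplicit false

namespace Pool.Agent.TH673.VG

open Pool.Agent.H315R3.ETC

/-- some `a` outside the subgroup `H` satisfies `V(ah) ⊆ V(a) H` for all `h ∈ H`, where
`V(a) = {x : q(a,x) = 0}` -/
def Step (S : QData) (H : Subgroup S.G) : Prop :=
  ∃ a : S.G, a ∉ H ∧ ∀ h ∈ H, ∀ x : S.G, S.q (a * h) x = S.zero →
    ∃ v k : S.G, S.q a v = S.zero ∧ k ∈ H ∧ v * k = x

/-- some `a` outside the subgroup `H` and some `g ∈ H` satisfy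
`V(ah) ⊆ V(a) H ∪ V(ag) H ∪ V(a) V(ag)` for all `h ∈ H` -/
def StepTwo (S : QData) (H : Subgroup S.G) : Prop :=
  ∃ a : S.G, a ∉ H ∧ ∃ g ∈ H, ∀ h ∈ H, ∀ x : S.G, S.q (a * h) x = S.zero →
    (∃ v k : S.G, (S.q a v = S.zero ∨ S.q (a * g) v = S.zero) ∧ k ∈ H ∧ v * k = x) ∨
    ∃ v w : S.G, S.q a v = S.zero ∧ S.q (a * g) w = S.zero ∧ v * w = x

/-- `a` is good over the subgroup `L`: for every subgroup `H` with `L ≤ H` and `a ∉ H` there is
`g ∈ H` such that every quaternion which is both of the form `q(a,x)` and of the form `q(h,y)` with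
`h ∈ H` is of the form `q(a,k)` with `k ∈ H` or of the form `q(g,z)` -/
def GoodOver (S : QData) (L : Subgroup S.G) (a : S.G) : Prop :=
  ∀ H : Subgroup S.G, L ≤ H → a ∉ H → ∃ g ∈ H, ∀ h ∈ H, ∀ x y : S.G, S.q a x = S.q h y →
    (∃ k ∈ H, S.q a x = S.q a k) ∨ ∃ z : S.G, S.q a x = S.q g z

/-- the subgroups obtained from the trivial one by successively adjoining elements which are good
over the subgroup already obtained -/
inductive Chain (S : QData) : Subgroup S.G → Prop
  | bot : Chain S ⊥
  | step (L : Subgroup S.G) (a : S.G) : Chain S L → GoodOver S L a →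
      Chain S (L ⊔ Subgroup.zpowers a)

/-- the value group `V(a)` has index at most two in `G` (equivalently there are at most two
quaternions of the form `q(a,x)`) -/
def IndexTwo (S : QData) (a : S.G) : Prop :=
  ∀ x y : S.G, S.q a x = S.zero ∨ S.q a y = S.zero ∨ S.q a (x * y) = S.zero

/-- for some `a` outside the subgroup `H`, every quaternion which is both of the form `q(a,x)` and
of the form `q(h,y)` with `h ∈ H` is of the form `q(a,k)` with `k ∈ H` -/
def Common (S : QData) (H : Subgroup S.G) : Prop :=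
  ∃ a : S.G, a ∉ H ∧ ∀ h ∈ H, ∀ x y : S.G, S.q a x = S.q h y → ∃ k ∈ H, S.q a x = S.q a k

end Pool.Agent.TH673.VG
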