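import Mathlib
import Pool.Agent.H315R3.ETC.Defs

/-! Conditions on the value groups `V(a) = {b : q(a,b) = 0}` of a quaternionic structure. -/

set_option autoImplicit false

namespace Pool.Agent.TH673.VG

open Pool.Agent.H315R3.ETC

/-- at most two quaternions -/
def TwoValues (S : QData) : Prop := ∃ t : S.Q, ∀ a b : S.G, S.q a b = S.zero ∨ S.q a b = t

/-- the quaternionic structures isomorphic to direct products of finite quaternionic structures
with at most two quaternions -/
inductive ProdTwo : QData → Prop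
  | base (S : QData) : IsQuat S → Finite S.G → TwoValues S → ProdTwo S
  | prod (S T : QData) : ProdTwo S → ProdTwo T → ProdTwo (prod S T)
  | iso (S T : QData) : ProdTwo S → IsQuat T → Iso S T → ProdTwo T

/-- products of value groups are value groups: for all `a, b` there is `c` with
`V(c) = V(a) V(b)`, where `V(a) = {x : q(a,x) = 0}` -/
def ProductsClosed (S : QData) : Prop :=
  ∀ a b : S.G, ∃ c : S.G, ∀ x : S.G, S.q c x = S.zero ↔
    ∃ u v : S.G, S.q a u = S.zero ∧ S.q b v = S.zero ∧ u * v = x

/-- every quaternion is `q(s,z)` for some `z` -/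
def Universal (S : QData) (s : S.G) : Prop := ∀ x y : S.G, ∃ z : S.G, S.q x y = S.q s z

/-- every value group contains the value group of a universal `s` -/
def UniversalBelow (S : QData) : Prop :=
  ∀ a : S.G, ∃ s : S.G, Universal S s ∧ ∀ x : S.G, S.q s x = S.zero → S.q a x = S.zero

/-- for every homomorphism `f : G → Z/2`: if `f` vanishes on some value group, then it vanishes on
the value group of a universal `s` -/
def UniversalKernels (S : QData) : Prop :=
  ∀ f : S.G → ZMod 2, (∀ a b, f (a * b) = f a + f b) →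
    (∃ a : S.G, ∀ x : S.G, S.q a x = S.zero → f x = 0) →
    ∃ s : S.G, Universal S s ∧ ∀ x : S.G, S.q s x = S.zero → f x = 0

/-- `V(a) V(b) V(ab) = G` for all `a, b` -/
def TripleProducts (S : QData) : Prop :=
  ∀ a b x : S.G, ∃ u v w : S.G,
    S.q a u = S.zero ∧ S.q b v = S.zero ∧ S.q (a * b) w = S.zero ∧ u * v * w = x

/-- every value group `V(a) ≠ G` is contained in a value group `V(t)` of index two -/
def IndexTwoAbove (S : QData) : Prop :=
  ∀ a : S.G, (∃ y : S.G, S.q a y ≠ S.zero) → ∃ t : S.G,
    (∀ x : S.G, S.q a x = S.zero → S.q t x = S.zero) ∧ (∃ y : S.G, S.q t y ≠ S.zero) ∧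
    ∀ x y : S.G, S.q t x = S.zero ∨ S.q t y = S.zero ∨ S.q t (x * y) = S.zero

/-- if `V(a) ≠ G` is maximal among the value groups different from `G`, then every value group
`V(x)` is contained in `V(a)` or `V(a) V(x) = G` -/
def MaximalDichotomy (S : QData) : Prop :=
  ∀ a : S.G, (∃ y : S.G, S.q a y ≠ S.zero) →
    (∀ b : S.G, (∀ x : S.G, S.q a x = S.zero → S.q b x = S.zero) →
      (∀ x : S.G, S.q b x = S.zero) ∨ ∀ x : S.G, S.q b x = S.zero → S.q a x = S.zero) →
    ∀ x : S.G, (∀ y : S.G, S.q x y = S.zero → S.q a y = S.zero) ∨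
      ∀ y : S.G, ∃ u v : S.G, S.q a u = S.zero ∧ S.q x v = S.zero ∧ u * v = y

end Pool.Agent.TH673.VG
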