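import Mathlib
import Pool.Agent.H315R3.ETC.Rigid
import Pool.Agent.TH673.VG.Defs

/-! From conditions on maximal value groups to universal slots. -/

set_option autoImplicit false

namespace Pool.Agent.TH673.VG

open Pool.Agent.H315R3.ETC

variable {S : QData} (h : IsQuat S)

lemma mem_D {a x : S.G} : x ∈ D h a ↔ S.q a x = S.zero := Iff.rfl

lemma mem_comm {a x : S.G} (hx : x ∈ D h a) : a ∈ D h x := by
  rw [mem_D] at hx ⊢
  rw [h.qs2]; exact hx

lemma D_inf (a b : S.G) {x : S.G} (h1 : x ∈ D h a) (h2 : x ∈ D h b) : x ∈ D h (a * b) := by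
  have h3 := p_mul h (mem_comm h h1) (mem_comm h h2)
  rw [mem_D, h.qs2]; exact h3

/-- `q(a,x) = q(b,x)` iff `x ∈ V(ab)` -/
lemma q_eq_iff (a b x : S.G) : S.q a x = S.q b x ↔ x ∈ D h (a * b) := by
  rw [mem_D, h.qs2 a x, h.qs2 b x, h.qs3, h.qs2]

/-- `q(a,x) = q(a,y)` iff `x y ∈ V(a)` -/
lemma q_eq_iff' (a x y : S.G) : S.q a x = S.q a y ↔ x * y ∈ D h a := h.qs3 _ _ _

/-- linkage -/
lemma link {a b c d : S.G} (e : S.q a b = S.q c d) :
    ∃ y, S.q a b = S.q a y ∧ y ∈ D h (a * c) := by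
  obtain ⟨y, h1, h2⟩ := h.qs4 _ _ _ _ e
  refine ⟨y, h1, ?_⟩
  rw [← q_eq_iff h, ← h1, e, h2]

/-- `V(a) ≠ G` is maximal among the value groups different from `G` -/
def MaxV (h : IsQuat S) (a : S.G) : Prop :=
  D h a ≠ ⊤ ∧ ∀ b : S.G, D h a ≤ D h b → D h b = ⊤ ∨ D h b ≤ D h a

/-- the common consequence of the conditions -/
def Star (h : IsQuat S) : Prop :=
  ∀ a : S.G, MaxV h a → ∀ x : S.G, (D h x ≤ D h a ∨ D h a ⊔ D h x = ⊤) ∧
    ¬ (D h x ≤ D h a ∧ D h (a * x) ≤ D h a)

section fin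
variable [Finite S.G]

include h in
/-- a proper value group is contained in a maximal one -/
lemma exists_maxV (b : S.G) (hb : D h b ≠ ⊤) : ∃ a : S.G, MaxV h a ∧ D h b ≤ D h a := by
  have hfin : Set.Finite {K : Subgroup S.G | (∃ a : S.G, K = D h a) ∧ K ≠ ⊤ ∧ D h b ≤ K} :=
    Set.toFinite _
  obtain ⟨K, hK⟩ := hfin.exists_maximal ⟨D h b, ⟨b, rfl⟩, hb, le_rfl⟩
  obtain ⟨⟨a, rfl⟩, h1, h2⟩ := hK.prop
  refine ⟨a, ⟨h1, fun c hc => ?_⟩, h2⟩
  by_cases ht : D h c = ⊤
  · exact Or.inl ht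
  · exact Or.inr (hK.le_of_ge ⟨⟨c, rfl⟩, ht, h2.trans hc⟩ hc)

include h in
/-- a value group contains a minimal one -/
lemma exists_minV (b : S.G) : ∃ s : S.G, D h s ≤ D h b ∧ ∀ c : S.G, D h c ≤ D h s → D h s ≤ D h c := by
  have hfin : Set.Finite {K : Subgroup S.G | (∃ a : S.G, K = D h a) ∧ K ≤ D h b} :=
    Set.toFinite _
  obtain ⟨K, hK⟩ := hfin.exists_minimal ⟨D h b, ⟨b, rfl⟩, le_rfl⟩
  obtain ⟨⟨a, rfl⟩, h1⟩ := hK.prop
  refine ⟨a, h1, fun c hc => ?_⟩
  exact hK.le_of_le ⟨⟨c, rfl⟩, hc.trans h1⟩ hc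

/-- the universal slots -/
theorem univ_of_star (hst : Star h) (s : S.G) (hs : ∀ c : S.G, D h c ≤ D h s → D h s ≤ D h c) :
    ∀ K : Subgroup S.G, ∀ x : S.G, D h x = K → ∀ y : S.G, ∃ z : S.G, S.q x y = S.q s z := by
  intro K
  induction K using WellFoundedGT.induction with
  | ind K ih =>
    intro x hx y
    by_cases htop : D h x = ⊤
    · refine ⟨1, ?_⟩
      rw [q_one h]
      have : y ∈ D h x := by rw [htop]; trivial
      exact this
    by_cases hmax : MaxV h x
    · -- maximal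
      have h1 := hst x hmax (x * s)
      have h2 : ¬ D h (x * s) ≤ D h x := by
        intro h3
        have h4 : D h (x * s) ≤ D h s := by
          intro g hg
          have h5 := D_inf h _ _ (h3 hg) hg
          rwa [← mul_assoc, h.exp2, one_mul] at h5
        have h6 : D h s ≤ D h x := (hs _ h4).trans h3
        apply h1.2
        refine ⟨h3, ?_⟩
        rw [← mul_assoc, h.exp2, one_mul]
        exact h6
      have h3 := h1.1.resolve_left h2
      have hy : y ∈ D h x ⊔ D h (x * s) := by rw [h3]; trivial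
      obtain ⟨y1, hy1, y2, hy2, rfl⟩ := Subgroup.mem_sup.1 hy
      refine ⟨y2, ?_⟩
      rw [q_shift h _ hy1, q_eq_iff h]
      exact hy2
    · -- not maximal
      obtain ⟨a, ha, hxa⟩ := exists_maxV h x htop
      have hne : D h x ≠ D h a := by
        intro e
        apply hmax
        refine ⟨htop, fun b hb => ?_⟩
        rw [e] at hb ⊢
        exact ha.2 b hb
      have h1 : ¬ D h (a * x) ≤ D h a := fun h2 => (hst a ha x).2 ⟨hxa, h2⟩
      have h2 := (hst a ha (a * x)).1.resolve_left h1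
      have h3 : D h x ≤ D h (a * x) := fun g hg => D_inf h _ _ (hxa hg) hg
      have h4 : D h x ≠ D h (a * x) := by
        intro e
        apply h1
        rw [← e]; exact hxa
      have lt1 : D h x < D h a := lt_of_le_of_ne hxa hne
      have lt2 : D h x < D h (a * x) := lt_of_le_of_ne h3 h4
      have hy : y ∈ D h (a * x) ⊔ D h a := by rw [sup_comm, h2]; trivial
      obtain ⟨y1, hy1, y2, hy2, rfl⟩ := Subgroup.mem_sup.1 hy
      -- first factor
      have e1 : S.q x y1 = S.q a y1 := by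
        rw [q_eq_iff h, mul_comm]; exact hy1
      obtain ⟨z1, f1⟩ := ih (D h a) (hx ▸ lt1) a rfl y1
      obtain ⟨w1, g1, k1⟩ := link h (e1.trans f1)
      -- second factor
      have e2 : S.q x y2 = S.q (a * x) y2 := by
        rw [q_eq_iff h]
        have : x * (a * x) = a := by rw [mul_comm a x, ← mul_assoc, h.exp2, one_mul]
        rw [this]; exact hy2
      obtain ⟨z2, f2⟩ := ih (D h (a * x)) (hx ▸ lt2) (a * x) rfl y2
      obtain ⟨w2, g2, k2⟩ := link h (e2.trans f2)
      refine ⟨w1 * w2, ?_⟩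
      have i1 : y1 * w1 ∈ D h x := (q_eq_iff' h _ _ _).1 g1
      have i2 : y2 * w2 ∈ D h x := (q_eq_iff' h _ _ _).1 g2
      have i3 : S.q x (y1 * y2) = S.q x (w1 * w2) := by
        rw [q_eq_iff' h, mul_mul_mul_comm]
        exact (D h x).mul_mem i1 i2
      rw [i3, q_eq_iff h]
      exact (D h (x * s)).mul_mem k1 k2

include h in
theorem below_of_star (hst : Star h) : UniversalBelow S := by
  intro a
  obtain ⟨s, h1, h2⟩ := exists_minV h a
  refine ⟨s, fun x y => ?_, fun x hx => h1 hx⟩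
  exact univ_of_star h hst s h2 _ x rfl y

end fin

/-- `H6` implies the condition on maximal value groups -/
theorem star_of_closed [Finite S.G] (hc : ProductsClosed S) : Star h := by
  have hsup : ∀ a b : S.G, ∃ c : S.G, D h c = D h a ⊔ D h b := by
    intro a b
    obtain ⟨c, hc⟩ := hc a b
    refine ⟨c, ?_⟩
    ext x
    rw [mem_D, hc, Subgroup.mem_sup]
    constructor
    · rintro ⟨u, v, hu, hv, e⟩
      exact ⟨u, hu, v, hv, e⟩
    · rintro ⟨u, hu, v, hv, e⟩
      exact ⟨u, v, hu, hv, e⟩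
  -- the second part
  have h2 : ∀ d : S.G, D h d ≠ ⊤ → ∀ a : S.G, ¬ (D h a ≤ D h d ∧ D h (d * a) ≤ D h d) := by
    rintro d hd a ⟨h3, h4⟩
    -- choose `g ∉ V(d)` with `V(g)` maximal
    have hfin : Set.Finite {K : Subgroup S.G | ∃ g : S.G, K = D h g ∧ g ∉ D h d} := Set.toFinite _
    obtain ⟨g0, hg0⟩ : ∃ g, g ∉ D h d := by
      by_contra hcon
      push Not at hcon
      exact hd (eq_top_iff.2 fun x _ => hcon x)
    obtain ⟨K, hK⟩ := hfin.exists_maximal ⟨D h g0, g0, rfl, hg0⟩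
    obtain ⟨g, rfl, hg⟩ := hK.prop
    obtain ⟨c, hc⟩ := hsup g (g * a)
    have hcd : c ∉ D h d := by
      intro hcd
      have h5 : d ∈ D h c := mem_comm h hcd
      rw [hc] at h5
      obtain ⟨v, hv, v', hv', e⟩ := Subgroup.mem_sup.1 h5
      have e1 : S.q d g = S.q a v' := by
        rw [h.qs2, ← e, q_shift h _ hv, q_eq_iff h]
        exact hv'
      obtain ⟨y, e2, e3⟩ := link h e1
      apply hg
      rw [mem_D, e2]
      exact h4 e3
    have h6 : D h g ≤ D h c := by rw [hc]; exact le_sup_left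
    have h7 : D h c ≤ D h g := hK.le_of_ge ⟨c, rfl, hcd⟩ h6
    have h8 : D h (g * a) ≤ D h g := by
      refine le_trans ?_ h7
      rw [hc]; exact le_sup_right
    have h9 : D h (g * a) ≤ D h a := by
      intro x hx
      have := D_inf h _ _ (h8 hx) hx
      rwa [← mul_assoc, h.exp2, one_mul] at this
    have h10 : S.neg * (g * a) ∈ D h d := h3 (h9 (h.qs1 (g * a)))
    have h11 : S.neg * a ∈ D h d := h3 (h.qs1 a)
    apply hg
    have h12 := (D h d).mul_mem h10 h11
    have : S.neg * (g * a) * (S.neg * a) = g := by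
      rw [mul_mul_mul_comm, h.exp2, one_mul, mul_assoc, h.exp2, mul_one]
    rwa [this] at h12
  intro a ha x
  refine ⟨?_, h2 a ha.1 x⟩
  obtain ⟨c, hc⟩ := hsup a x
  have h3 : D h a ≤ D h c := by rw [hc]; exact le_sup_left
  rcases ha.2 c h3 with h4 | h4
  · right; rw [← hc]; exact h4
  · left
    refine le_trans ?_ h4
    rw [hc]; exact le_sup_right

/-- the dichotomy for maximal value groups -/
theorem star_of_dichotomy (ht : TripleProducts S) (hi : MaximalDichotomy S) : Star h := by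
  intro a ha x
  obtain ⟨y0, hy0⟩ : ∃ g, g ∉ D h a := by
    by_contra hcon
    push Not at hcon
    exact ha.1 (eq_top_iff.2 fun x _ => hcon x)
  constructor
  · rcases hi a ⟨y0, hy0⟩ (fun b hb => by
      rcases ha.2 b (fun x hx => hb x hx) with h1 | h1
      · left
        intro z
        have : z ∈ D h b := by rw [h1]; trivial
        exact this
      · right
        intro z hz
        exact h1 hz) x with h1 | h1
    · exact Or.inl fun y hy => h1 y hy
    · right
      rw [eq_top_iff]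
      intro g _
      rw [Subgroup.mem_sup]
      obtain ⟨u, v, hu, hv, e⟩ := h1 g
      exact ⟨u, hu, v, hv, e⟩
  · rintro ⟨h6, h7⟩
    apply hy0
    obtain ⟨u, v, w, hu, hv, hw, e⟩ := ht a x y0
    rw [← e]
    exact (D h a).mul_mem ((D h a).mul_mem hu (h6 hv)) (h7 hw)

include h in
/-- closed under products implies the dichotomy -/
theorem dichotomy_of_closed (hc : ProductsClosed S) : MaximalDichotomy S := by
  intro a _ hmax x
  obtain ⟨c, hc⟩ := hc a x
  have h1 : ∀ z, S.q a z = S.zero → S.q c z = S.zero := fun z hz =>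
    (hc z).2 ⟨z, 1, hz, q_one h x, mul_one z⟩
  rcases hmax c h1 with h2 | h2
  · right
    intro y
    exact (hc y).1 (h2 y)
  · left
    intro y hy
    exact h2 y ((hc y).2 ⟨1, y, q_one h a, hy, one_mul y⟩)

/-- the index two condition -/
theorem star_of_index [Finite S.G] (ht : TripleProducts S) (hi : IndexTwoAbove S) : Star h := by
  intro a ha x
  obtain ⟨y0, hy0⟩ : ∃ g, g ∉ D h a := by
    by_contra hcon
    push Not at hcon
    exact ha.1 (eq_top_iff.2 fun x _ => hcon x)
  obtain ⟨t, h1, ⟨y1, hy1⟩, h3⟩ := hi a ⟨y0, hy0⟩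
  have h4 : D h a ≤ D h t := fun x hx => h1 x hx
  have h5 : D h t ≤ D h a := by
    rcases ha.2 t h4 with h6 | h6
    · exfalso
      apply hy1
      have : y1 ∈ D h t := by rw [h6]; trivial
      exact this
    · exact h6
  constructor
  · by_cases hx : D h x ≤ D h a
    · exact Or.inl hx
    right
    rw [SetLike.not_le_iff_exists] at hx
    obtain ⟨y, hy, hya⟩ := hx
    have hyt : ¬ S.q t y = S.zero := fun hc => hya (h5 hc)
    rw [eq_top_iff]
    intro g _
    rw [Subgroup.mem_sup]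
    rcases h3 g y with h6 | h6 | h6
    · exact ⟨g, h5 h6, 1, (D h x).one_mem, mul_one g⟩
    · exact absurd h6 hyt
    · exact ⟨g * y, h5 h6, y, hy, mul_cancel h g y⟩
  · rintro ⟨h6, h7⟩
    apply hy0
    obtain ⟨u, v, w, hu, hv, hw, e⟩ := ht a x y0
    rw [← e]
    exact (D h a).mul_mem ((D h a).mul_mem hu (h6 hv)) (h7 hw)

end Pool.Agent.TH673.VG
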