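import Mathlib
import Pool.Agent.H315R3.ETC.Rigid
import Pool.Agent.TH673.VG.Star

/-! Inductions over elementary type and over products of structures with two quaternions. -/

set_option autoImplicit false

namespace Pool.Agent.TH673.VG

open Pool.Agent.H315R3.ETC

/-! ### factors of a product -/

section factors
variable {S T : QData}

lemma isQuat_left (h : IsQuat (prod S T)) : IsQuat S := by
  have h0 : ∀ b : T.G, T.q b 1 = T.zero := fun b => congrArg Prod.snd (q_one h ((1 : S.G), b))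
  refine ⟨fun a => congrArg Prod.fst (h.exp2 (a, 1)), fun a => congrArg Prod.fst (h.qs1 (a, 1)),
    fun a b => congrArg Prod.fst (h.qs2 (a, 1) (b, 1)), fun a b c => ⟨fun e => ?_, fun e => ?_⟩,
    fun a b c d e => ?_⟩
  · exact congrArg Prod.fst ((h.qs3 (a, 1) (b, 1) (c, 1)).1 (Prod.ext e rfl))
  · refine congrArg Prod.fst ((h.qs3 (a, 1) (b, 1) (c, 1)).2 (Prod.ext e ?_))
    show T.q 1 (1 * 1) = T.zero
    rw [mul_one]; exact h0 1
  · obtain ⟨x, h1, h2⟩ := h.qs4 (a, 1) (b, 1) (c, 1) (d, 1) (Prod.ext e rfl)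
    exact ⟨x.1, congrArg Prod.fst h1, congrArg Prod.fst h2⟩

lemma isQuat_right (h : IsQuat (prod S T)) : IsQuat T := by
  have h0 : ∀ b : S.G, S.q b 1 = S.zero := fun b => congrArg Prod.fst (q_one h (b, (1 : T.G)))
  refine ⟨fun a => congrArg Prod.snd (h.exp2 (1, a)), fun a => congrArg Prod.snd (h.qs1 (1, a)),
    fun a b => congrArg Prod.snd (h.qs2 (1, a) (1, b)), fun a b c => ⟨fun e => ?_, fun e => ?_⟩,
    fun a b c d e => ?_⟩
  · exact congrArg Prod.snd ((h.qs3 (1, a) (1, b) (1, c)).1 (Prod.ext rfl e))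
  · refine congrArg Prod.snd ((h.qs3 (1, a) (1, b) (1, c)).2 (Prod.ext ?_ e))
    show S.q 1 (1 * 1) = S.zero
    rw [mul_one]; exact h0 1
  · obtain ⟨x, h1, h2⟩ := h.qs4 (1, a) (1, b) (1, c) (1, d) (Prod.ext rfl e)
    exact ⟨x.2, congrArg Prod.snd h1, congrArg Prod.snd h2⟩

lemma isQuat_prod (hS : IsQuat S) (hT : IsQuat T) : IsQuat (prod S T) := by
  refine ⟨fun a => Prod.ext (hS.exp2 _) (hT.exp2 _), fun a => Prod.ext (hS.qs1 _) (hT.qs1 _),
    fun a b => Prod.ext (hS.qs2 _ _) (hT.qs2 _ _), fun a b c => ?_, fun a b c d e => ?_⟩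
  · constructor
    · intro e
      exact Prod.ext ((hS.qs3 _ _ _).1 (congrArg Prod.fst e)) ((hT.qs3 _ _ _).1 (congrArg Prod.snd e))
    · intro e
      exact Prod.ext ((hS.qs3 _ _ _).2 (congrArg Prod.fst e)) ((hT.qs3 _ _ _).2 (congrArg Prod.snd e))
  · obtain ⟨x, h1, h2⟩ := hS.qs4 a.1 b.1 c.1 d.1 (congrArg Prod.fst e)
    obtain ⟨y, h3, h4⟩ := hT.qs4 a.2 b.2 c.2 d.2 (congrArg Prod.snd e)
    exact ⟨(x, y), Prod.ext h1 h3, Prod.ext h2 h4⟩

lemma uk_left (h : IsQuat (prod S T)) (hu : UniversalKernels (prod S T)) : UniversalKernels S := by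
  have h0 : ∀ b : T.G, T.q b 1 = T.zero := fun b => congrArg Prod.snd (q_one h ((1 : S.G), b))
  rintro f hf ⟨a, ha⟩
  obtain ⟨s, hs, hsf⟩ := hu (fun x => f x.1) (fun x y => hf _ _)
    ⟨(a, 1), fun x hx => ha _ (congrArg Prod.fst hx)⟩
  refine ⟨s.1, fun x y => ?_, fun x hx => ?_⟩
  · obtain ⟨z, hz⟩ := hs (x, 1) (y, 1)
    exact ⟨z.1, congrArg Prod.fst hz⟩
  · exact hsf (x, 1) (Prod.ext hx (h0 _))

lemma uk_right (h : IsQuat (prod S T)) (hu : UniversalKernels (prod S T)) :
    UniversalKernels T := by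
  have h0 : ∀ b : S.G, S.q b 1 = S.zero := fun b => congrArg Prod.fst (q_one h (b, (1 : T.G)))
  rintro f hf ⟨a, ha⟩
  obtain ⟨s, hs, hsf⟩ := hu (fun x => f x.2) (fun x y => hf _ _)
    ⟨(1, a), fun x hx => ha _ (congrArg Prod.snd hx)⟩
  refine ⟨s.2, fun x y => ?_, fun x hx => ?_⟩
  · obtain ⟨z, hz⟩ := hs (1, x) (1, y)
    exact ⟨z.2, congrArg Prod.snd hz⟩
  · exact hsf (1, x) (Prod.ext (h0 _) hx)

end factors

section factors2
variable {S T : QData}

lemma tp_left (h : IsQuat (prod S T)) (hu : TripleProducts (prod S T)) : TripleProducts S := by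
  intro a b x
  obtain ⟨u, v, w, e1, e2, e3, e4⟩ := hu (a, 1) (b, 1) (x, 1)
  exact ⟨u.1, v.1, w.1, congrArg Prod.fst e1, congrArg Prod.fst e2, congrArg Prod.fst e3,
    congrArg Prod.fst e4⟩

lemma tp_right (h : IsQuat (prod S T)) (hu : TripleProducts (prod S T)) : TripleProducts T := by
  intro a b x
  obtain ⟨u, v, w, e1, e2, e3, e4⟩ := hu (1, a) (1, b) (1, x)
  exact ⟨u.2, v.2, w.2, congrArg Prod.snd e1, congrArg Prod.snd e2, congrArg Prod.snd e3,
    congrArg Prod.snd e4⟩

end factors2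

/-! ### correcting the zero -/

/-- the same data with zero quaternion `q(1,1)` -/
def fz (S : QData) : QData := ⟨S.G, S.Q, S.neg, S.q, S.q 1 1⟩

lemma fz_eq {S : QData} (h : IsQuat S) : fz S = S := by
  have h1 : S.q 1 1 = S.zero := q_one h 1
  obtain ⟨G, Q, neg, q, zero⟩ := S
  unfold fz
  simp only [QData.mk.injEq, heq_eq_eq, true_and]
  exact h1

lemma fz_iso {S T : QData} (e : Iso S T) : Iso (fz S) (fz T) := e

lemma isQuat_of_iso {S T : QData} (e : Iso S T) (h : IsQuat (fz T)) : IsQuat (fz S) := by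
  obtain ⟨φ, hn, hq⟩ := e
  have z : ∀ a b : S.G, S.q a b = S.q 1 1 ↔ T.q (φ a) (φ b) = T.q 1 1 := by
    intro a b
    rw [hq, map_one]
  refine ⟨fun (a : S.G) => ?_, fun (a : S.G) => ?_, fun (a b : S.G) => ?_,
    fun (a b c : S.G) => ?_, fun (a b c d : S.G) e => ?_⟩
  · show a * a = (1 : S.G)
    apply φ.injective
    rw [map_mul, map_one]
    exact h.exp2 (φ a)
  · show S.q a (S.neg * a) = S.q 1 1
    rw [z, map_mul, hn]
    exact h.qs1 (φ a)
  · show S.q a b = S.q b a
    rw [hq]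
    exact h.qs2 (φ a) (φ b)
  · show S.q a b = S.q a c ↔ S.q a (b * c) = S.q 1 1
    rw [hq, z, map_mul]
    exact h.qs3 (φ a) (φ b) (φ c)
  · have e' : S.q a b = S.q c d := e
    rw [hq] at e'
    obtain ⟨x, h1, h2⟩ := h.qs4 (φ a) (φ b) (φ c) (φ d) e'
    refine ⟨φ.symm x, ?_, ?_⟩
    · show S.q a b = S.q a (φ.symm x)
      rw [hq, φ.apply_symm_apply]
      exact h1
    · show S.q c d = S.q c (φ.symm x)
      rw [hq, φ.apply_symm_apply]
      exact h2

lemma uk_of_iso {S T : QData} (e : Iso S T) (hu : UniversalKernels (fz T)) :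
    UniversalKernels (fz S) := by
  obtain ⟨φ, hn, hq⟩ := e
  have z : ∀ a b : S.G, S.q a b = S.q 1 1 ↔ T.q (φ a) (φ b) = T.q 1 1 := by
    intro a b
    rw [hq, map_one]
  rintro f hf ⟨a, ha⟩
  obtain ⟨s, hs, hsf⟩ := hu (fun x => f (φ.symm x)) (fun (x y : T.G) => by
      show f (φ.symm (x * y)) = _
      rw [map_mul]; exact hf _ _)
    ⟨φ a, fun (x : T.G) hx => by
      apply ha
      show S.q a (φ.symm x) = S.q 1 1
      rw [z, φ.apply_symm_apply]
      exact hx⟩
  refine ⟨φ.symm s, fun (x y : S.G) => ?_, fun (x : S.G) hx => ?_⟩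
  · obtain ⟨w, hw⟩ := hs (φ x) (φ y)
    refine ⟨φ.symm w, ?_⟩
    show S.q x y = S.q (φ.symm s) (φ.symm w)
    rw [hq, φ.apply_symm_apply, φ.apply_symm_apply]
    exact hw
  · have hx' : S.q (φ.symm s) x = S.q 1 1 := hx
    rw [z, φ.apply_symm_apply] at hx'
    have := hsf (φ x) hx'
    simpa using this

lemma tp_of_iso {S T : QData} (e : Iso S T) (hu : TripleProducts (fz T)) :
    TripleProducts (fz S) := by
  obtain ⟨φ, hn, hq⟩ := e
  have z : ∀ (a : S.G) (b : T.G), S.q a (φ.symm b) = S.q 1 1 ↔ T.q (φ a) b = T.q 1 1 := by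
    intro a b
    rw [hq, map_one, φ.apply_symm_apply]
  rintro (a : S.G) (b : S.G) (x : S.G)
  obtain ⟨u, v, w, e1, e2, e3, e4⟩ := hu (φ a) (φ b) (φ x)
  have e3' : T.q (φ (a * b)) w = T.q 1 1 := by rw [map_mul]; exact e3
  refine ⟨φ.symm u, φ.symm v, φ.symm w, (z _ _).2 e1, (z _ _).2 e2, (z _ _).2 e3', ?_⟩
  apply φ.injective
  show φ (φ.symm u * φ.symm v * φ.symm w) = φ x
  rw [map_mul, map_mul, φ.apply_symm_apply, φ.apply_symm_apply, φ.apply_symm_apply]
  exact e4

/-! ### group extensions -/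

section ext
variable {S : QData}

lemma pw_one' {G : Type} [CommGroup G] (a : G) : pw a 1 = 1 := if_pos rfl

lemma pw_gen {G : Type} [CommGroup G] (a : G) : pw a gen = a := if_neg gen_ne

lemma pw_one_left {G : Type} [CommGroup G] (β : C2) : pw (1 : G) β = 1 := by
  unfold pw; split_ifs <;> rfl

lemma ext_q (a b : S.G) (α β : C2) : (ext S).q (a, α) (b, β) =
    (S.q a b, pw (pw S.neg α) β * pw a β * pw b α) := rfl

/-- few universal kernels in a group extension -/
lemma ext_small (h : IsQuat (fz (ext S))) (hu : UniversalKernels (fz (ext S))) :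
    ∃ g : S.G, ∀ x : S.G, x = 1 ∨ x = g := by
  by_cases htriv : ∀ x : S.G, x = 1
  · exact ⟨1, fun x => Or.inl (htriv x)⟩
  push Not at htriv
  obtain ⟨g, hg⟩ := htriv
  have hz : (fz (ext S)).zero.2 = 1 := by
    show pw (pw S.neg 1) 1 * pw 1 1 * pw 1 1 = (1 : S.G)
    simp [pw_one']
  classical
  obtain ⟨s, hs, hsf⟩ := hu (fun x => if x.2 = 1 then 0 else 1) (by
      rintro ⟨a, α⟩ ⟨b, β⟩
      show (if α * β = 1 then (0 : ZMod 2) else 1) =
        (if α = 1 then (0 : ZMod 2) else 1) + if β = 1 then (0 : ZMod 2) else 1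
      rcases C2_cases α with rfl | rfl <;> rcases C2_cases β with rfl | rfl <;>
        simp [gen_ne, gen_mul] <;> decide)
    ⟨(g, 1), by
      rintro ⟨b, β⟩ hx
      rcases C2_cases β with rfl | rfl
      · exact if_pos rfl
      · exfalso
        apply hg
        have h1 := congrArg Prod.snd hx
        rw [hz] at h1
        have h2 : pw (pw S.neg 1) gen * pw g gen * pw b 1 = (1 : S.G) := h1
        rw [pw_one', pw_one', pw_gen, pw_gen, one_mul, mul_one] at h2
        exact h2⟩
  obtain ⟨s0, σ⟩ := s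
  have hσ : σ = 1 := by
    rcases C2_cases σ with rfl | rfl
    · rfl
    · exfalso
      have h1 := hsf _ (h.qs1 (s0, gen))
      have h2 : (if (1 : C2) * gen = 1 then (0 : ZMod 2) else 1) = 0 := h1
      rw [one_mul, if_neg gen_ne] at h2
      exact absurd h2 (by decide)
  subst hσ
  refine ⟨s0, fun x => ?_⟩
  obtain ⟨⟨z, ζ⟩, hzz⟩ := hs (x, 1) (1, gen)
  have h1 := congrArg Prod.snd hzz
  have h2 : pw (pw S.neg 1) gen * pw x gen * pw 1 1 =
    pw (pw S.neg 1) ζ * pw s0 ζ * pw z 1 := h1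
  rw [pw_one', pw_one', pw_one', pw_gen, pw_gen, pw_one_left, one_mul, one_mul, mul_one,
    mul_one] at h2
  rcases C2_cases ζ with rfl | rfl
  · left; rw [h2, pw_one']
  · right; rw [h2, pw_gen]

lemma gen2 : ¬ (1 : C2) = gen := fun e => gen_ne e.symm

lemma bool_or (b : Bool) : b = false ∨ b = true := by cases b <;> simp

lemma isQuat_L1 : IsQuat L1 := by
  have h1 : ∀ a : C2, a * a = 1 := by
    intro a; rcases C2_cases a with rfl | rfl
    · rfl
    · exact gen_mul
  have hd : ∀ a b : C2, L1.q a b = false ↔ (a = 1 ∨ b = 1) := by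
    intro a b
    show decide (a = gen ∧ b = gen) = false ↔ _
    rcases C2_cases a with rfl | rfl <;> rcases C2_cases b with rfl | rfl <;>
      simp [gen_ne, gen2]
  have ht : ∀ a b : C2, L1.q a b = true ↔ (a = gen ∧ b = gen) := by
    intro a b
    show decide (a = gen ∧ b = gen) = true ↔ _
    simp
  refine ⟨h1, ?_, ?_, ?_, ?_⟩
  · intro (a : C2)
    show L1.q a (gen * a) = false
    rw [hd]
    rcases C2_cases a with rfl | rfl
    · left; rfl
    · right; exact gen_mul
  · intro (a : C2) (b : C2)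
    show decide (a = gen ∧ b = gen) = decide (b = gen ∧ a = gen)
    simp [and_comm]
  · intro (a : C2) (b : C2) (c : C2)
    show decide (a = gen ∧ b = gen) = decide (a = gen ∧ c = gen) ↔
      decide (a = gen ∧ b * c = gen) = false
    rcases C2_cases a with rfl | rfl <;> rcases C2_cases b with rfl | rfl <;>
      rcases C2_cases c with rfl | rfl <;>
      simp [gen_ne, gen_mul, gen2]
  · intro (a : C2) (b : C2) (c : C2) (d : C2) e
    by_cases h2 : L1.q a b = false
    · refine ⟨(1 : C2), ?_, ?_⟩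
      · rw [h2]; exact ((hd a 1).2 (Or.inr rfl)).symm
      · rw [← e, h2]; exact ((hd c 1).2 (Or.inr rfl)).symm
    · have h3 : L1.q a b = true := (bool_or _).resolve_left h2
      obtain ⟨ha, hb⟩ := (ht a b).1 h3
      obtain ⟨hc, hd'⟩ := (ht c d).1 (e.symm.trans h3)
      refine ⟨gen, ?_, ?_⟩
      · rw [hb]
      · rw [hd']

lemma prodTwo_L1 : ProdTwo L1 := by
  refine ProdTwo.base _ isQuat_L1 (inferInstanceAs (Finite (Multiplicative (ZMod 2))))
    ⟨true, fun a b => bool_or _⟩

/-- triple products in a group extension -/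
lemma ext_small' (h : IsQuat (fz (ext S))) (hu : TripleProducts (fz (ext S))) :
    ∃ g : S.G, ∀ x : S.G, x = 1 ∨ x = g := by
  by_cases htriv : ∀ x : S.G, x = 1
  · exact ⟨1, fun x => Or.inl (htriv x)⟩
  push Not at htriv
  obtain ⟨g, hg⟩ := htriv
  have hz : (fz (ext S)).zero.2 = 1 := by
    show pw (pw S.neg 1) 1 * pw 1 1 * pw 1 1 = (1 : S.G)
    simp [pw_one']
  -- the value group of `(a, 1)`, `a ≠ 1`, is contained in `G × 1`
  have key : ∀ (a b : S.G) (β : C2), a ≠ 1 →
      (fz (ext S)).q ((a, 1) : S.G × C2) ((b, β) : S.G × C2) = (fz (ext S)).zero → β = 1 := by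
    intro a b β ha hq
    rcases C2_cases β with rfl | rfl
    · rfl
    · exfalso
      apply ha
      have h1 := congrArg Prod.snd hq
      rw [hz] at h1
      have h2 : pw (pw S.neg 1) gen * pw a gen * pw b 1 = (1 : S.G) := h1
      rw [pw_one', pw_one', pw_gen, pw_gen, one_mul, mul_one] at h2
      exact h2
  have g2 : ∀ x : S.G, x * x = 1 := fun x => congrArg Prod.fst (h.exp2 ((x, 1) : S.G × C2))
  refine ⟨g, fun x => ?_⟩
  by_contra hcon
  push Not at hcon
  obtain ⟨⟨u, α⟩, ⟨v, β⟩, ⟨w, γ⟩, e1, e2, e3, e4⟩ :=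
    hu ((g, 1) : S.G × C2) ((x, 1) : S.G × C2) ((1, gen) : S.G × C2)
  have hα := key _ _ _ hg e1
  have hβ := key _ _ _ hcon.1 e2
  have e3' : (fz (ext S)).q ((g * x, 1) : S.G × C2) ((w, γ) : S.G × C2) = (fz (ext S)).zero := by
    have h1 : ((g, 1) : S.G × C2) * (x, 1) = (g * x, 1) := by
      rw [Prod.mk_mul_mk, one_mul]
    rw [← h1]; exact e3
  have hγ := key _ _ _ (fun e => hcon.2 (by
    have h1 : g * (g * x) = g := by rw [e, mul_one]
    rwa [← mul_assoc, g2, one_mul] at h1)) e3'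
  have h5 : α * β * γ = gen := congrArg Prod.snd e4
  rw [hα, hβ, hγ, one_mul, one_mul] at h5
  exact gen_ne h5.symm

theorem prodTwo_ext (h : IsQuat (fz (ext S))) (hu : ∃ g : S.G, ∀ x : S.G, x = 1 ∨ x = g) :
    ProdTwo (fz (ext S)) := by
  obtain ⟨g, hg⟩ := hu
  have hfinG : Finite S.G := by
    have : (Set.univ : Set S.G).Finite :=
      Set.Finite.subset (Set.toFinite {1, g}) fun x _ => by
        rcases hg x with h1 | h1 <;> simp [h1]
    exact Set.finite_univ_iff.1 this
  have hfinX : Finite (fz (ext S)).G := inferInstanceAs (Finite (S.G × C2))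
  have hz : (fz (ext S)).zero = (S.q 1 1, 1) := by
    show (S.q 1 1, pw (pw S.neg 1) 1 * pw 1 1 * pw 1 1) = (S.q 1 1, (1 : S.G))
    simp [pw_one']
  have q1 : ∀ u : S.G, S.q u 1 = S.q 1 1 := fun u =>
    congrArg Prod.fst (q_one h ((u, 1) : S.G × C2))
  have qsym : ∀ u v : S.G, S.q u v = S.q v u := fun u v =>
    congrArg Prod.fst (h.qs2 ((u, 1) : S.G × C2) ((v, 1) : S.G × C2))
  have q1' : ∀ u : S.G, S.q 1 u = S.q 1 1 := fun u => by rw [qsym, q1]
  have gg : g * g = 1 := congrArg Prod.fst (h.exp2 ((g, 1) : S.G × C2))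
  by_cases hgg : S.q g g = S.q 1 1
  · refine ProdTwo.base _ h hfinX ⟨(S.q 1 1, g), ?_⟩
    have hall : ∀ u v : S.G, S.q u v = S.q 1 1 := by
      intro u v
      rcases hg u with rfl | rfl
      · exact q1' v
      · rcases hg v with rfl | rfl
        · exact q1 _
        · exact hgg
    rintro ⟨a, α⟩ ⟨b, β⟩
    rw [hz]
    show (S.q a b, pw (pw S.neg α) β * pw a β * pw b α) = (S.q 1 1, 1) ∨
      (S.q a b, pw (pw S.neg α) β * pw a β * pw b α) = (S.q 1 1, g)
    rw [hall a b]
    rcases hg (pw (pw S.neg α) β * pw a β * pw b α) with h1 | h1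
    · left; rw [h1]
    · right; rw [h1]
  · -- the extension of `L1`
    have hg1 : g ≠ 1 := by
      rintro rfl
      exact hgg rfl
    have hneg : S.neg = g := by
      rcases hg S.neg with h1 | h1
      · exfalso
        apply hgg
        have h2 : S.q g (S.neg * g) = S.q 1 1 :=
          congrArg Prod.fst (h.qs1 ((g, 1) : S.G × C2))
        rwa [h1, one_mul] at h2
      · exact h1
    classical
    let d : S.G → C2 := fun u => if u = 1 then 1 else gen
    have d1 : d 1 = 1 := if_pos rfl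
    have dg : d g = gen := if_neg hg1
    have dmul : ∀ u v, d (u * v) = d u * d v := by
      intro u v
      rcases hg u with rfl | rfl
      · rw [one_mul, d1, one_mul]
      · rcases hg v with rfl | rfl
        · rw [mul_one, d1, mul_one]
        · rw [gg, d1, dg, gen_mul]
    let φ : S.G × C2 →* C2 × C2 :=
      { toFun := fun x => (d x.1, d x.1 * x.2)
        map_one' := by
          show (d 1, d 1 * 1) = 1
          rw [d1]; rfl
        map_mul' := by
          intro x y
          show (d (x.1 * y.1), d (x.1 * y.1) * (x.2 * y.2)) =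
            (d x.1 * d y.1, (d x.1 * x.2) * (d y.1 * y.2))
          rw [dmul, mul_mul_mul_comm] }
    have φa : ∀ x : S.G × C2, φ x = (d x.1, d x.1 * x.2) := fun _ => rfl
    have φinj : Function.Injective φ := by
      rintro ⟨u, α⟩ ⟨v, β⟩ e
      rw [φa, φa] at e
      have e1 : d u = d v := congrArg Prod.fst e
      have e2 : d u * α = d v * β := congrArg Prod.snd e
      rw [e1] at e2
      have e3 : α = β := mul_left_cancel e2
      have e4 : u = v := by
        rcases hg u with rfl | rfl <;> rcases hg v with rfl | rfl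
        · rfl
        · rw [d1, dg] at e1; exact absurd e1.symm gen_ne
        · rw [d1, dg] at e1; exact absurd e1 gen_ne
        · rfl
      rw [e3, e4]
    have φsurj : Function.Surjective φ := by
      rintro ⟨β, γ⟩
      rcases C2_cases β with rfl | rfl
      · refine ⟨(1, γ), ?_⟩
        rw [φa]
        show (d 1, d 1 * γ) = (1, γ)
        rw [d1, one_mul]
      · refine ⟨(g, gen * γ), ?_⟩
        rw [φa]
        show (d g, d g * (gen * γ)) = (gen, γ)
        rw [dg, ← mul_assoc, gen_mul, one_mul]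
    let E : Bool × Bool → S.Q × S.G := fun x =>
      (if x.1 then S.q g g else S.q 1 1, if (x.1 ^^ x.2) then g else 1)
    have Einj : Function.Injective E := by
      rintro ⟨a, b⟩ ⟨c, d⟩ e
      have e1 : (if a then S.q g g else S.q 1 1) = if c then S.q g g else S.q 1 1 :=
        congrArg Prod.fst e
      have e2 : (if (a ^^ b) then g else (1 : S.G)) = if (c ^^ d) then g else 1 :=
        congrArg Prod.snd e
      have hgg' : ¬ S.q 1 1 = S.q g g := fun e => hgg e.symm
      have hg1' : ¬ 1 = g := fun e => hg1 e.symm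
      have hac : a = c := by
        rcases bool_or a with rfl | rfl <;> rcases bool_or c with rfl | rfl
        · rfl
        · simp only [Bool.false_eq_true, reduceIte] at e1
          exact absurd e1 hgg'
        · simp only [Bool.false_eq_true, reduceIte] at e1
          exact absurd e1 hgg
        · rfl
      subst hac
      have hbd : b = d := by
        rcases bool_or a with rfl | rfl <;> rcases bool_or b with rfl | rfl <;>
          rcases bool_or d with rfl | rfl <;> first
          | rfl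
          | (simp at e2; exact absurd e2 hg1)
          | (simp at e2; exact absurd e2 hg1')
      rw [hbd]
    have hE : ∀ a b : S.G × C2, (ext S).q a b = E ((prod L1 L1).q (φ a) (φ b)) := by
      have hL : ∀ x y : C2, L1.q x y = if x = gen ∧ y = gen then true else false := by
        intro x y
        show decide (x = gen ∧ y = gen) = _
        split_ifs with h1
        · exact decide_eq_true h1
        · exact decide_eq_false h1
      rintro ⟨a, α⟩ ⟨b, β⟩
      rw [φa, φa, ext_q, hneg]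
      show _ = E (L1.q (d a) (d b), L1.q (d a * α) (d b * β))
      rw [hL, hL]
      have hEE : ∀ x y : Bool, E (x, y) = (if x then S.q g g else S.q 1 1,
        if (x ^^ y) then g else 1) := fun _ _ => rfl
      rw [hEE]
      clear_value E d φ
      rcases hg a with rfl | rfl <;> rcases hg b with rfl | rfl <;>
        rcases C2_cases α with rfl | rfl <;> rcases C2_cases β with rfl | rfl <;>
        simp only [d1, dg, pw_one', pw_gen, pw_one_left, gen_mul, gg, gen2, q1, q1', mul_one,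
          one_mul, and_self, and_false, false_and, if_true, if_false, Bool.xor_self, Bool.xor_false,
          Bool.xor_true, Bool.false_xor, Bool.true_xor, Bool.not_true, Bool.not_false,
          Bool.false_eq_true, reduceIte]
    have hL1p : ProdTwo L1 := prodTwo_L1
    let ψ : S.G × C2 ≃* C2 × C2 := MulEquiv.ofBijective φ ⟨φinj, φsurj⟩
    have hψ : ∀ x, ψ x = φ x := fun _ => rfl
    refine ProdTwo.iso (prod L1 L1) _ (ProdTwo.prod _ _ hL1p hL1p) h ⟨ψ.symm, ?_, ?_⟩
    · show ψ.symm (gen, gen) = (S.neg, 1)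
      rw [MulEquiv.symm_apply_eq, hψ, φa, hneg]
      show (gen, gen) = (d g, d g * 1)
      rw [dg, mul_one]
    · intro a b c d'
      show _ ↔ (ext S).q (ψ.symm a) (ψ.symm b) = (ext S).q (ψ.symm c) (ψ.symm d')
      have e1 : ∀ a b : C2 × C2, (ext S).q (ψ.symm a) (ψ.symm b) = E ((prod L1 L1).q a b) := by
        intro a b
        rw [hE, ← hψ, ← hψ, ψ.apply_symm_apply, ψ.apply_symm_apply]
      rw [e1, e1]
      exact Einj.eq_iff.symm

end ext

theorem prodTwo_aux (P : QData → Prop)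
    (hl : ∀ S T, IsQuat (prod S T) → P (prod S T) → P S)
    (hr : ∀ S T, IsQuat (prod S T) → P (prod S T) → P T)
    (hi : ∀ S T, Iso S T → P (fz T) → P (fz S))
    (he : ∀ S, IsQuat (fz (ext S)) → P (fz (ext S)) → ∃ g : S.G, ∀ x : S.G, x = 1 ∨ x = g)
    (S : QData) (hE : Elem S) : IsQuat (fz S) → P (fz S) → ProdTwo (fz S) := by
  induction hE with
  | l0 =>
    intro h _
    exact ProdTwo.base _ h (inferInstanceAs (Finite Unit)) ⟨(), fun _ _ => Or.inl rfl⟩
  | l10 =>
    intro h _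
    exact ProdTwo.base _ h (inferInstanceAs (Finite (Multiplicative (ZMod 2))))
      ⟨(), fun _ _ => Or.inl rfl⟩
  | l11 =>
    intro h _
    exact ProdTwo.base _ h (inferInstanceAs (Finite (Multiplicative (ZMod 2))))
      ⟨(), fun _ _ => Or.inl rfl⟩
  | l1 =>
    intro h _
    refine ProdTwo.base _ h (inferInstanceAs (Finite (Multiplicative (ZMod 2))))
      ⟨true, fun a b => ?_⟩
    have hz : (fz L1).zero = false := by
      show decide ((1 : C2) = gen ∧ (1 : C2) = gen) = false
      simp [gen2]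
    rw [hz]
    exact bool_or _
  | loc S hS =>
    intro h _
    obtain ⟨-, hf, -, -, hc⟩ := hS
    refine ProdTwo.base _ h hf ?_
    obtain ⟨x, y, hxy, hset⟩ := Set.ncard_eq_two.1 hc
    have hmem : ∀ a b : S.G, S.q a b = x ∨ S.q a b = y := by
      intro a b
      have : S.q a b ∈ {t : S.Q | ∃ a b : S.G, S.q a b = t} := ⟨a, b, rfl⟩
      rw [hset] at this
      simpa using this
    rcases hmem 1 1 with h1 | h1
    · refine ⟨y, fun a b => ?_⟩
      show S.q a b = S.q 1 1 ∨ S.q a b = y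
      rw [h1]; exact hmem a b
    · refine ⟨x, fun a b => ?_⟩
      show S.q a b = S.q 1 1 ∨ S.q a b = x
      rw [h1]; exact (hmem a b).symm
  | prod S T _ _ ih1 ih2 =>
    intro h hu
    have h' : IsQuat (prod (fz S) (fz T)) := h
    have hu' : P (prod (fz S) (fz T)) := hu
    exact ProdTwo.prod (fz S) (fz T) (ih1 (isQuat_left h') (hl _ _ h' hu'))
      (ih2 (isQuat_right h') (hr _ _ h' hu'))
  | ext S _ _ =>
    intro h hu
    exact prodTwo_ext h (he _ h hu)
  | iso S T _ hST ih =>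
    intro h hu
    exact ProdTwo.iso _ _ (ih (isQuat_of_iso hST h) (hi _ _ hST hu)) h hST

theorem prodTwo_of_elem {S : QData} (h : IsQuat S) (hE : Elem S) (hu : UniversalKernels S) :
    ProdTwo S := by
  have h1 := prodTwo_aux UniversalKernels (fun _ _ => uk_left) (fun _ _ => uk_right)
    (fun _ _ => uk_of_iso) (fun _ => ext_small) S hE
  rw [fz_eq h] at h1
  exact h1 h hu

theorem prodTwo_of_elem_tp {S : QData} (h : IsQuat S) (hE : Elem S) (hu : TripleProducts S) :
    ProdTwo S := by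
  have h1 := prodTwo_aux TripleProducts (fun _ _ => tp_left) (fun _ _ => tp_right)
    (fun _ _ => tp_of_iso) (fun _ => ext_small') S hE
  rw [fz_eq h] at h1
  exact h1 h hu

/-! ### properties of products -/

/-- the properties of the products of structures with two quaternions -/
structure Good (S : QData) : Prop where
  quat : IsQuat S
  closed : ProductsClosed S
  triple : TripleProducts S
  index : IndexTwoAbove S

theorem good_base (S : QData) (h : IsQuat S) (ht : TwoValues S) : Good S := by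
  obtain ⟨t, ht⟩ := ht
  have idx : ∀ a x y : S.G, S.q a x = S.zero ∨ S.q a y = S.zero ∨ S.q a (x * y) = S.zero := by
    intro a x y
    rcases ht a x with h1 | h1
    · exact Or.inl h1
    rcases ht a y with h2 | h2
    · exact Or.inr (Or.inl h2)
    exact Or.inr (Or.inr ((h.qs3 _ _ _).1 (h1.trans h2.symm)))
  refine ⟨h, ?_, ?_, ?_⟩
  · intro a b
    by_cases hab : ∀ x, S.q a x = S.zero → S.q b x = S.zero
    · refine ⟨b, fun x => ⟨fun hx => ⟨1, x, q_one h a, hx, one_mul x⟩, ?_⟩⟩
      rintro ⟨u, v, hu, hv, rfl⟩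
      exact p_mul h (hab u hu) hv
    · push Not at hab
      obtain ⟨y, hy1, hy2⟩ := hab
      refine ⟨1, fun x => ⟨fun _ => ?_, fun _ => q_one' h x⟩⟩
      rcases idx b x y with h1 | h1 | h1
      · exact ⟨1, x, q_one h a, h1, one_mul x⟩
      · exact absurd h1 hy2
      · refine ⟨y, x * y, hy1, h1, ?_⟩
        rw [mul_comm x y, ← mul_assoc, h.exp2, one_mul]
  · intro a b x
    by_cases h1 : S.q a x = S.zero
    · exact ⟨x, 1, 1, h1, q_one h b, q_one h _, by rw [mul_one, mul_one]⟩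
    by_cases h2 : S.q b x = S.zero
    · exact ⟨1, x, 1, q_one h a, h2, q_one h _, by rw [mul_one, one_mul]⟩
    · refine ⟨1, 1, x, q_one h a, q_one h b, ?_, by rw [one_mul, one_mul]⟩
      have e : S.q a x = S.q b x := ((ht a x).resolve_left h1).trans ((ht b x).resolve_left h2).symm
      rw [h.qs2 a x, h.qs2 b x, h.qs3, h.qs2] at e
      exact e
  · intro a hy
    exact ⟨a, fun x hx => hx, hy, idx a⟩

theorem good_prod (S T : QData) (hS : Good S) (hT : Good T) : Good (prod S T) := by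
  have zS : ∀ x, S.q 1 x = S.zero := q_one' hS.quat
  have zT : ∀ x, T.q 1 x = T.zero := q_one' hT.quat
  refine ⟨isQuat_prod hS.quat hT.quat, ?_, ?_, ?_⟩
  · intro a b
    obtain ⟨c1, h1⟩ := hS.closed a.1 b.1
    obtain ⟨c2, h2⟩ := hT.closed a.2 b.2
    refine ⟨(c1, c2), fun x => ⟨fun hx => ?_, ?_⟩⟩
    · obtain ⟨u1, v1, e1, e2, e3⟩ := (h1 x.1).1 (congrArg Prod.fst hx)
      obtain ⟨u2, v2, e4, e5, e6⟩ := (h2 x.2).1 (congrArg Prod.snd hx)
      exact ⟨(u1, u2), (v1, v2), Prod.ext e1 e4, Prod.ext e2 e5, Prod.ext e3 e6⟩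
    · rintro ⟨u, v, e1, e2, e3⟩
      exact Prod.ext ((h1 x.1).2 ⟨u.1, v.1, congrArg Prod.fst e1, congrArg Prod.fst e2,
        congrArg Prod.fst e3⟩) ((h2 x.2).2 ⟨u.2, v.2, congrArg Prod.snd e1, congrArg Prod.snd e2,
        congrArg Prod.snd e3⟩)
  · intro a b x
    obtain ⟨u1, v1, w1, e1, e2, e3, e4⟩ := hS.triple a.1 b.1 x.1
    obtain ⟨u2, v2, w2, f1, f2, f3, f4⟩ := hT.triple a.2 b.2 x.2
    exact ⟨(u1, u2), (v1, v2), (w1, w2), Prod.ext e1 f1, Prod.ext e2 f2, Prod.ext e3 f3,
      Prod.ext e4 f4⟩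
  · rintro a ⟨y, hy⟩
    by_cases h1 : S.q a.1 y.1 = S.zero
    · have h2 : T.q a.2 y.2 ≠ T.zero := fun h2 => hy (Prod.ext h1 h2)
      obtain ⟨t, e1, ⟨y', e2⟩, e3⟩ := hT.index a.2 ⟨_, h2⟩
      refine ⟨(1, t), fun x hx => Prod.ext (zS _) (e1 _ (congrArg Prod.snd hx)),
        ⟨(1, y'), fun e => e2 (congrArg Prod.snd e)⟩, fun x z => ?_⟩
      rcases e3 x.2 z.2 with h3 | h3 | h3
      · exact Or.inl (Prod.ext (zS _) h3)
      · exact Or.inr (Or.inl (Prod.ext (zS _) h3))
      · exact Or.inr (Or.inr (Prod.ext (zS _) h3))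
    · obtain ⟨t, e1, ⟨y', e2⟩, e3⟩ := hS.index a.1 ⟨_, h1⟩
      refine ⟨(t, 1), fun x hx => Prod.ext (e1 _ (congrArg Prod.fst hx)) (zT _),
        ⟨(y', 1), fun e => e2 (congrArg Prod.fst e)⟩, fun x z => ?_⟩
      rcases e3 x.1 z.1 with h3 | h3 | h3
      · exact Or.inl (Prod.ext h3 (zT _))
      · exact Or.inr (Or.inl (Prod.ext h3 (zT _)))
      · exact Or.inr (Or.inr (Prod.ext h3 (zT _)))

theorem good_iso (S T : QData) (hS : Good S) (hT : IsQuat T) (e : Iso S T) : Good T := by
  obtain ⟨φ, hn, hq⟩ := e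
  have z : ∀ a b : S.G, S.q a b = S.zero ↔ T.q (φ a) (φ b) = T.zero := by
    intro a b
    rw [← q_one hS.quat 1, ← q_one hT 1, hq, map_one]
  have z' : ∀ a b : T.G, T.q a b = T.zero ↔ S.q (φ.symm a) (φ.symm b) = S.zero := by
    intro a b
    rw [z, φ.apply_symm_apply, φ.apply_symm_apply]
  refine ⟨hT, ?_, ?_, ?_⟩
  · intro a b
    obtain ⟨c, hc⟩ := hS.closed (φ.symm a) (φ.symm b)
    refine ⟨φ c, fun x => ?_⟩
    rw [z', φ.symm_apply_apply, hc]
    constructor
    · rintro ⟨u, v, e1, e2, e3⟩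
      refine ⟨φ u, φ v, ?_, ?_, ?_⟩
      · rw [z', φ.symm_apply_apply]; exact e1
      · rw [z', φ.symm_apply_apply]; exact e2
      · rw [← map_mul, e3, φ.apply_symm_apply]
    · rintro ⟨u, v, e1, e2, e3⟩
      exact ⟨φ.symm u, φ.symm v, (z' _ _).1 e1, (z' _ _).1 e2, by rw [← map_mul, e3]⟩
  · intro a b x
    obtain ⟨u, v, w, e1, e2, e3, e4⟩ := hS.triple (φ.symm a) (φ.symm b) (φ.symm x)
    refine ⟨φ u, φ v, φ w, ?_, ?_, ?_, ?_⟩
    · rw [z', φ.symm_apply_apply]; exact e1
    · rw [z', φ.symm_apply_apply]; exact e2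
    · rw [z', φ.symm_apply_apply, map_mul]; exact e3
    · rw [← map_mul, ← map_mul, e4, φ.apply_symm_apply]
  · rintro a ⟨y, hy⟩
    obtain ⟨t, e1, ⟨y', e2⟩, e3⟩ := hS.index (φ.symm a) ⟨φ.symm y, fun e => hy ((z' _ _).2 e)⟩
    refine ⟨φ t, fun x hx => ?_, ⟨φ y', fun e => e2 ((z _ _).2 e)⟩, fun x y => ?_⟩
    · rw [z', φ.symm_apply_apply]
      exact e1 _ ((z' _ _).1 hx)
    · rw [z', z', z', φ.symm_apply_apply, map_mul]
      exact e3 _ _

theorem good_of_prodTwo {S : QData} (hS : ProdTwo S) : Good S := by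
  induction hS with
  | base S h _ ht => exact good_base S h ht
  | prod S T _ _ h1 h2 => exact good_prod S T h1 h2
  | iso S T _ hT e h1 => exact good_iso S T h1 hT e

end Pool.Agent.TH673.VG
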