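import Mathlib
import Pool.Agent.H315R3.ETC.Rigid
import Pool.Agent.TH673.VG.Star
import Pool.Agent.TH673.VG.Ind
import Pool.Agent.TH673.VG.CritDefs

/-! The value group criterion holds in structures of elementary type. -/

set_option autoImplicit false

namespace Pool.Agent.TH673.VG

open Pool.Agent.H315R3.ETC

/-- the criterion for all subgroups -/
def StepAll (S : QData) : Prop := ∀ H : Subgroup S.G, H ≠ ⊤ → Step S H

lemma exists_notMem {G : Type} [Group G] {H : Subgroup G} (hH : H ≠ ⊤) : ∃ a : G, a ∉ H := by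
  by_contra hc
  push Not at hc
  exact hH (eq_top_iff.2 fun x _ => hc x)

theorem step_two {S : QData} (h : IsQuat S) (ht : TwoValues S) : StepAll S := by
  intro H hH
  by_contra hcon
  obtain ⟨t, ht⟩ := ht
  have idx : ∀ a x y : S.G, S.q a x = S.zero ∨ S.q a y = S.zero ∨ S.q a (x * y) = S.zero := by
    intro a x y
    rcases ht a x with h1 | h1
    · exact Or.inl h1
    rcases ht a y with h2 | h2
    · exact Or.inr (Or.inl h2)
    exact Or.inr (Or.inr ((h.qs3 _ _ _).1 (h1.trans h2.symm)))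
  -- `H` is contained in all `V(a)`, `a ∉ H`
  have hle : ∀ a : S.G, a ∉ H → ∀ k ∈ H, S.q a k = S.zero := by
    intro a ha k hk
    by_contra hne
    apply hcon
    refine ⟨a, ha, fun g _ x _ => ?_⟩
    rcases idx a x k with h1 | h1 | h1
    · exact ⟨x, 1, h1, H.one_mem, mul_one x⟩
    · exact absurd h1 hne
    · exact ⟨x * k, k, h1, hk, by rw [mul_assoc, h.exp2, mul_one]⟩
  obtain ⟨a, ha⟩ := exists_notMem hH
  apply hcon
  refine ⟨a, ha, fun g hg x hx => ⟨x, 1, ?_, H.one_mem, mul_one x⟩⟩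
  by_cases hxH : x ∈ H
  · exact hle a ha x hxH
  · have h1 : S.q a x = S.q g x := (q_eq_iff h a g x).2 hx
    rw [h1, h.qs2]
    exact hle x hxH g hg

theorem step_prod {S T : QData} (h : IsQuat (prod S T)) (hS : StepAll S) (hT : StepAll T) :
    StepAll (prod S T) := by
  have zS : ∀ x, S.q 1 x = S.zero := q_one' (isQuat_left h)
  have zT : ∀ x, T.q 1 x = T.zero := q_one' (isQuat_right h)
  have oS : ∀ x, S.q x 1 = S.zero := q_one (isQuat_left h)
  have oT : ∀ x, T.q x 1 = T.zero := q_one (isQuat_right h)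
  intro (H : Subgroup (S.G × T.G)) hH
  by_cases h1 : H.map (MonoidHom.fst S.G T.G) = ⊤
  · by_cases h2 : H.map (MonoidHom.snd S.G T.G) = ⊤
    · -- both projections are onto
      obtain ⟨g1, hg1⟩ : ∃ g1 : S.G, ((g1, 1) : S.G × T.G) ∉ H := by
        by_contra hc
        push Not at hc
        apply hH
        rw [eq_top_iff]
        rintro (⟨x1, x2⟩ : S.G × T.G) _
        have h3 : x2 ∈ H.map (MonoidHom.snd S.G T.G) := by rw [h2]; trivial
        obtain ⟨⟨y1, y2⟩, hy, e⟩ := h3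
        have e' : y2 = x2 := e
        subst e'
        have h4 := H.mul_mem (hc (x1 * y1⁻¹)) hy
        have h5 : ((x1 * y1⁻¹, 1) : S.G × T.G) * (y1, y2) = (x1, y2) := by
          rw [Prod.mk_mul_mk, one_mul, inv_mul_cancel_right]
        rw [h5] at h4
        exact h4
      refine ⟨((g1, 1) : S.G × T.G), hg1, ?_⟩
      rintro - - (⟨x1, x2⟩ : S.G × T.G) -
      have h3 : x1 ∈ H.map (MonoidHom.fst S.G T.G) := by rw [h1]; trivial
      obtain ⟨⟨y1, y2⟩, hy, e⟩ := h3
      have e' : y1 = x1 := e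
      subst e'
      refine ⟨((1, x2 * y2⁻¹) : S.G × T.G), (y1, y2), Prod.ext (oS _) (zT _), hy, ?_⟩
      show ((1, x2 * y2⁻¹) : S.G × T.G) * (y1, y2) = (y1, x2)
      rw [Prod.mk_mul_mk, one_mul, inv_mul_cancel_right]
    · obtain ⟨a, ha, hM⟩ := hT _ h2
      refine ⟨((1, a) : S.G × T.G), fun h3 => ha ⟨_, h3, rfl⟩, ?_⟩
      rintro (⟨g1, g2⟩ : S.G × T.G) hg (⟨x1, x2⟩ : S.G × T.G) hx
      obtain ⟨v, k, hv, ⟨⟨k1, k2⟩, hk, e⟩, hvk⟩ :=
        hM g2 ⟨_, hg, rfl⟩ x2 (congrArg Prod.snd hx)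
      have e' : k2 = k := e
      subst e'
      refine ⟨((x1 * k1⁻¹, v) : S.G × T.G), (k1, k2), Prod.ext (zS _) hv, hk, ?_⟩
      show ((x1 * k1⁻¹, v) : S.G × T.G) * (k1, k2) = (x1, x2)
      rw [Prod.mk_mul_mk, inv_mul_cancel_right, hvk]
  · obtain ⟨a, ha, hM⟩ := hS _ h1
    refine ⟨((a, 1) : S.G × T.G), fun h3 => ha ⟨_, h3, rfl⟩, ?_⟩
    rintro (⟨g1, g2⟩ : S.G × T.G) hg (⟨x1, x2⟩ : S.G × T.G) hx
    obtain ⟨v, k, hv, ⟨⟨k1, k2⟩, hk, e⟩, hvk⟩ :=
      hM g1 ⟨_, hg, rfl⟩ x1 (congrArg Prod.fst hx)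
    have e' : k1 = k := e
    subst e'
    refine ⟨((v, x2 * k2⁻¹) : S.G × T.G), (k1, k2), Prod.ext hv (zT _), hk, ?_⟩
    show ((v, x2 * k2⁻¹) : S.G × T.G) * (k1, k2) = (x1, x2)
    rw [Prod.mk_mul_mk, inv_mul_cancel_right, hvk]

theorem isQuat_of_ext {S : QData} (h : IsQuat (fz (ext S))) : IsQuat (fz S) := by
  have z2 : ∀ a b : S.G, ((fz (ext S)).q ((a, 1) : S.G × C2) ((b, 1) : S.G × C2)) =
      (S.q a b, 1) := by
    intro a b
    show (S.q a b, pw (pw S.neg 1) 1 * pw a 1 * pw b 1) = (S.q a b, 1)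
    simp [pw_one']
  have hz : (fz (ext S)).zero = (S.q 1 1, 1) := z2 1 1
  refine ⟨fun (a : S.G) => ?_, fun (a : S.G) => ?_, fun (a b : S.G) => ?_,
    fun (a b c : S.G) => ?_, fun (a b c d : S.G) e => ?_⟩
  · exact congrArg Prod.fst (h.exp2 ((a, 1) : S.G × C2))
  · exact congrArg Prod.fst (h.qs1 ((a, 1) : S.G × C2))
  · exact congrArg Prod.fst (h.qs2 ((a, 1) : S.G × C2) ((b, 1) : S.G × C2))
  · have h3 := h.qs3 ((a, 1) : S.G × C2) ((b, 1) : S.G × C2) ((c, 1) : S.G × C2)
    have e1 : ((b, 1) : S.G × C2) * (c, 1) = (b * c, 1) := by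
      rw [Prod.mk_mul_mk, one_mul]
    have h4 : (fz (ext S)).q ((a, 1) : S.G × C2) ((b, 1) : S.G × C2) =
      (fz (ext S)).q ((a, 1) : S.G × C2) ((c, 1) : S.G × C2) ↔
      (fz (ext S)).q ((a, 1) : S.G × C2) ((b * c, 1) : S.G × C2) = (fz (ext S)).zero := by
      rw [← e1]; exact h3
    rw [z2, z2, z2, hz] at h4
    show S.q a b = S.q a c ↔ S.q a (b * c) = S.q 1 1
    constructor
    · intro e
      exact congrArg Prod.fst (h4.1 (by rw [e]))
    · intro e
      exact congrArg Prod.fst (h4.2 (by rw [e]))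
  · have e' : S.q a b = S.q c d := e
    obtain ⟨x, h1, h2⟩ := h.qs4 ((a, 1) : S.G × C2) ((b, 1) : S.G × C2) ((c, 1) : S.G × C2)
      ((d, 1) : S.G × C2) (by rw [z2, z2, e'])
    exact ⟨x.1, congrArg Prod.fst h1, congrArg Prod.fst h2⟩

theorem step_ext {S : QData} (h : IsQuat (fz (ext S))) (hS : StepAll (fz S)) :
    StepAll (fz (ext S)) := by
  have hz : (fz (ext S)).zero = (S.q 1 1, 1) := by
    show (S.q 1 1, pw (pw S.neg 1) 1 * pw 1 1 * pw 1 1) = (S.q 1 1, (1 : S.G))
    simp [pw_one']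
  have qe : ∀ (a b : S.G) (α β : C2), (fz (ext S)).q ((a, α) : S.G × C2) ((b, β) : S.G × C2) =
      (S.q a b, pw (pw S.neg α) β * pw a β * pw b α) := fun _ _ _ _ => rfl
  have hone : ∀ x : S.G × C2, (fz (ext S)).q x ((1, 1) : S.G × C2) = (fz (ext S)).zero :=
    fun x => q_one h x
  have g2 : ∀ x : S.G, x * x = 1 := fun x => congrArg Prod.fst (h.exp2 ((x, 1) : S.G × C2))
  have hns : ∀ x : S.G, S.q x (S.neg * x) = S.q 1 1 := fun x =>
    congrArg Prod.fst (h.qs1 ((x, 1) : S.G × C2))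
  have inv : ∀ x : S.G, x⁻¹ = x := fun x => inv_eq_of_mul_eq_one_left (g2 x)
  intro (H : Subgroup (S.G × C2)) hH
  by_cases h0 : H.comap (MonoidHom.inl S.G C2) = ⊤
  · -- `G × 1 ≤ H`
    have hG : ∀ g : S.G, ((g, 1) : S.G × C2) ∈ H := by
      intro g
      have : g ∈ H.comap (MonoidHom.inl S.G C2) := by rw [h0]; trivial
      exact this
    have hgen : ∀ g : S.G, ((g, gen) : S.G × C2) ∉ H := by
      intro g hg
      apply hH
      rw [eq_top_iff]
      rintro (⟨x, ξ⟩ : S.G × C2) _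
      rcases C2_cases ξ with rfl | rfl
      · exact hG x
      · have h1 := H.mul_mem (hG (x * g⁻¹)) hg
        have h2 : ((x * g⁻¹, 1) : S.G × C2) * (g, gen) = (x, gen) := by
          rw [Prod.mk_mul_mk, one_mul, inv_mul_cancel_right]
        rw [h2] at h1
        exact h1
    refine ⟨((1, gen) : S.G × C2), hgen 1, ?_⟩
    rintro (⟨g, η⟩ : S.G × C2) hg (⟨x, ξ⟩ : S.G × C2) hx
    rcases C2_cases η with rfl | rfl
    · have hx' : (fz (ext S)).q ((g, gen) : S.G × C2) ((x, ξ) : S.G × C2) = (S.q 1 1, 1) := by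
        rw [← hz]
        have e : ((1, gen) : S.G × C2) * (g, 1) = (g, gen) := by
          rw [Prod.mk_mul_mk, one_mul, mul_one]
        rw [← e]
        exact hx
      have hx2 : pw (pw S.neg gen) ξ * pw g ξ * pw x gen = 1 := congrArg Prod.snd hx'
      rcases C2_cases ξ with rfl | rfl
      · exact ⟨((1, 1) : S.G × C2), ((x, 1) : S.G × C2), hone _, hG x,
          Prod.ext (one_mul x) (one_mul 1)⟩
      · rw [pw_gen, pw_gen, pw_gen, pw_gen] at hx2
        have hx3 : x = S.neg * g := by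
          have := congrArg (fun t => S.neg * g * t) hx2
          simp only [mul_one] at this
          rw [← mul_assoc, g2, one_mul] at this
          exact this
        refine ⟨((S.neg, gen) : S.G × C2), ((g, 1) : S.G × C2), ?_, hg, ?_⟩
        · have h3 := h.qs1 ((1, gen) : S.G × C2)
          have e : ((S.neg, 1) : S.G × C2) * (1, gen) = (S.neg, gen) := by
            rw [Prod.mk_mul_mk, one_mul, mul_one]
          show (fz (ext S)).q ((1, gen) : S.G × C2) ((S.neg, gen) : S.G × C2) = _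
          rw [← e]
          exact h3
        · exact Prod.ext hx3.symm (mul_one gen)
    · exact absurd hg (hgen g)
  · obtain ⟨(a : S.G), ha, hM⟩ := hS _ h0
    have ha' : ((a, 1) : S.G × C2) ∉ H := ha
    refine ⟨((a, 1) : S.G × C2), ha', ?_⟩
    rintro (⟨g, η⟩ : S.G × C2) hg (⟨x, ξ⟩ : S.G × C2) hx
    have hx' : (fz (ext S)).q ((a * g, η) : S.G × C2) ((x, ξ) : S.G × C2) = (S.q 1 1, 1) := by
      rw [← hz]
      have e : ((a, 1) : S.G × C2) * (g, η) = (a * g, η) := by
        rw [Prod.mk_mul_mk, one_mul]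
      rw [← e]
      exact hx
    have hx1 : S.q (a * g) x = S.q 1 1 := congrArg Prod.fst hx'
    have hx2 : pw (pw S.neg η) ξ * pw (a * g) ξ * pw x η = 1 := congrArg Prod.snd hx'
    rcases C2_cases η with rfl | rfl
    · rcases C2_cases ξ with rfl | rfl
      · obtain ⟨(v : S.G), (k : S.G), hv, hk, hvk⟩ := hM g hg x hx1
        refine ⟨((v, 1) : S.G × C2), ((k, 1) : S.G × C2), ?_, hk, ?_⟩
        · show (S.q a v, pw (pw S.neg 1) 1 * pw a 1 * pw v 1) = (fz (ext S)).zero
          rw [hz]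
          simp only [pw_one', mul_one]
          exact Prod.ext hv rfl
        · exact Prod.ext hvk (one_mul 1)
      · exfalso
        rw [pw_gen, pw_gen, pw_one', pw_one', one_mul, mul_one] at hx2
        apply ha'
        have h3 : a = g := by
          have := congrArg (fun t => t * g) hx2
          simp only [one_mul] at this
          rwa [mul_assoc, g2, mul_one] at this
        rw [h3]
        exact hg
    · rcases C2_cases ξ with rfl | rfl
      · rw [pw_one', pw_one', pw_gen, one_mul, one_mul] at hx2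
        exact ⟨((1, 1) : S.G × C2), ((1, 1) : S.G × C2), hone _, H.one_mem,
          Prod.ext ((one_mul (1 : S.G)).trans hx2.symm) (one_mul 1)⟩
      · rw [pw_gen, pw_gen, pw_gen, pw_gen] at hx2
        have hx3 : x = S.neg * (a * g) := by
          have := congrArg (fun t => S.neg * (a * g) * t) hx2
          simp only [mul_one] at this
          rw [← mul_assoc, g2, one_mul] at this
          exact this
        refine ⟨((S.neg * a, 1) : S.G × C2), ((g, gen) : S.G × C2), ?_, hg, ?_⟩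
        · show (S.q a (S.neg * a), pw (pw S.neg 1) 1 * pw a 1 * pw (S.neg * a) 1) =
            (fz (ext S)).zero
          rw [hz]
          simp only [pw_one', mul_one]
          exact Prod.ext (hns a) rfl
        · exact Prod.ext ((mul_assoc S.neg a g).trans hx3.symm) (one_mul gen)

theorem step_of_iso {S T : QData} (e : Iso S T) (hS : StepAll (fz S)) : StepAll (fz T) := by
  obtain ⟨φ, hn, hq⟩ := e
  have z : ∀ a b : S.G, S.q a b = S.q 1 1 ↔ T.q (φ a) (φ b) = T.q 1 1 := by
    intro a b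
    rw [hq, map_one]
  intro (H : Subgroup T.G) hH
  have h1 : H.comap φ.toMonoidHom ≠ ⊤ := by
    intro h2
    apply hH
    rw [eq_top_iff]
    intro x _
    have : φ.symm x ∈ H.comap φ.toMonoidHom := by rw [h2]; trivial
    have h3 : φ (φ.symm x) ∈ H := this
    rwa [φ.apply_symm_apply] at h3
  obtain ⟨(a : S.G), ha, hM⟩ := hS _ h1
  refine ⟨φ a, ha, fun (g : T.G) hg (x : T.G) hx => ?_⟩
  have hx' : T.q (φ a * g) x = T.q 1 1 := hx
  obtain ⟨(v : S.G), (k : S.G), hv, hk, hvk⟩ := hM (φ.symm g) (by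
      show φ (φ.symm g) ∈ H
      rwa [φ.apply_symm_apply]) (φ.symm x) (by
      show S.q (a * φ.symm g) (φ.symm x) = S.q 1 1
      rw [z, map_mul, φ.apply_symm_apply, φ.apply_symm_apply]
      exact hx')
  refine ⟨φ v, φ k, (z _ _).1 hv, hk, ?_⟩
  have h2 : φ (v * k) = φ (φ.symm x) := congrArg φ hvk
  rw [φ.apply_symm_apply] at h2
  exact (map_mul φ v k).symm.trans h2

theorem stepAll_aux (S : QData) (hE : Elem S) : IsQuat (fz S) → StepAll (fz S) := by
  induction hE with
  | l0 => exact fun h => step_two h ⟨(), fun _ _ => Or.inl rfl⟩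
  | l10 => exact fun h => step_two h ⟨(), fun _ _ => Or.inl rfl⟩
  | l11 => exact fun h => step_two h ⟨(), fun _ _ => Or.inl rfl⟩
  | l1 =>
    intro h
    refine step_two h ⟨true, fun a b => ?_⟩
    have hz : (fz L1).zero = false := by
      show decide ((1 : C2) = gen ∧ (1 : C2) = gen) = false
      simp [gen2]
    rw [hz]
    exact bool_or _
  | loc S hS =>
    intro h
    obtain ⟨-, hf, -, -, hc⟩ := hS
    refine step_two h ?_
    obtain ⟨x, y, hxy, hset⟩ := Set.ncard_eq_two.1 hc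
    have hmem : ∀ a b : S.G, S.q a b = x ∨ S.q a b = y := by
      intro a b
      have : S.q a b ∈ {t : S.Q | ∃ a b : S.G, S.q a b = t} := ⟨a, b, rfl⟩
      rw [hset] at this
      simpa using this
    rcases hmem 1 1 with h1 | h1
    · refine ⟨y, fun a b => ?_⟩
      show S.q a b = S.q 1 1 ∨ S.q a b = y
      rw [h1]; exact hmem a b
    · refine ⟨x, fun a b => ?_⟩
      show S.q a b = S.q 1 1 ∨ S.q a b = x
      rw [h1]; exact (hmem a b).symm
  | prod S T _ _ ih1 ih2 =>
    intro h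
    have h' : IsQuat (prod (fz S) (fz T)) := h
    exact step_prod h' (ih1 (isQuat_left h')) (ih2 (isQuat_right h'))
  | ext S _ ih =>
    intro h
    exact step_ext h (ih (isQuat_of_ext h))
  | iso S T _ hST ih =>
    intro h
    exact step_of_iso hST (ih (isQuat_of_iso hST h))

theorem stepAll_of_elem {S : QData} (h : IsQuat S) (hE : Elem S) : StepAll S := by
  have h1 := stepAll_aux S hE
  rw [fz_eq h] at h1
  exact h1 h

end Pool.Agent.TH673.VG
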