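import Pool.Agent.TH673.VG.CritDefs
import Pool.Agent.TH673.VG.Defs

/-! The core of a quaternionic structure: definitions. -/

set_option autoImplicit false

namespace Pool.Agent.TH673.VG

open Pool.Agent.H315R3.ETC

/-- the subgroup generated by the elements `a` whose value group `V(a) = {x : q(a,x) = 0}` has
index at most two -/
def IdxGroup (S : QData) : Subgroup S.G := Subgroup.closure {a : S.G | IndexTwo S a}

/-- the subgroup `L` contains every `a` such that `V(a)` has index at most two, and every `a` such
that `V(a) L = G` -/
def Closed (S : QData) (L : Subgroup S.G) : Prop :=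
  (∀ a : S.G, IndexTwo S a → a ∈ L) ∧
  ∀ a : S.G, (∀ x : S.G, ∃ v k : S.G, S.q a v = S.zero ∧ k ∈ L ∧ v * k = x) → a ∈ L

/-- the core: the intersection of all closed subgroups (it is the smallest closed subgroup) -/
def Core (S : QData) : Subgroup S.G := sInf {L : Subgroup S.G | Closed S L}

/-- the quaternionic structures isomorphic to direct products of finite quaternionic structures
with at most two quaternions and finite group extensions `T[x]` of structures `T` with `q = 0` -/
inductive ProdEx : QData → Prop
  | two (S : QData) : IsQuat S → Finite S.G → TwoValues S → ProdEx S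
  | ext (T : QData) : IsQuat (ext T) → Finite T.G → (∀ a b : T.G, T.q a b = T.zero) →
      ProdEx (ext T)
  | prod (S T : QData) : ProdEx S → ProdEx T → ProdEx (prod S T)
  | iso (S T : QData) : ProdEx S → IsQuat T → Iso S T → ProdEx T

end Pool.Agent.TH673.VG
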