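import Pool.Agent.TH673.VG.Crit
import Pool.Agent.TH673.VG.CritInd
import Pool.Agent.TH673.VG.CoreDefs

/-! Structures generated by the elements whose value groups have index at most two. -/

set_option autoImplicit false

namespace Pool.Agent.TH673.VG

open Pool.Agent.H315R3.ETC

section

variable {S : QData} (h : IsQuat S)

lemma inv_self' (h : IsQuat S) (x : S.G) : x⁻¹ = x := inv_eq_of_mul_eq_one_left (h.exp2 x)

/-- the elements all of whose quaternions are `0` or `t` -/
def GT (h : IsQuat S) (t : S.Q) : Subgroup S.G where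
  carrier := {g | ∀ x, S.q g x = S.zero ∨ S.q g x = t}
  one_mem' := fun x => Or.inl (q_one' h x)
  mul_mem' := by
    intro g g' hg hg' x
    rcases hg x with h1 | h1
    · have e : S.q (g * g') x = S.q g' x := by
        rw [h.qs2, q_shift h _ (by rw [h.qs2]; exact h1), h.qs2]
      rw [e]; exact hg' x
    · rcases hg' x with h2 | h2
      · have e : S.q (g * g') x = S.q g x := by
          rw [mul_comm, h.qs2, q_shift h _ (by rw [h.qs2]; exact h2), h.qs2]
        rw [e]; exact Or.inr h1
      · exact Or.inl ((q_eq_iff h g g' x).1 (h1.trans h2.symm))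
  inv_mem' := by
    intro g hg
    show ∀ x, S.q g⁻¹ x = S.zero ∨ S.q g⁻¹ x = t
    rw [inv_self' h]
    exact hg

lemma mem_GT {t : S.Q} {g : S.G} : g ∈ GT h t ↔ ∀ x, S.q g x = S.zero ∨ S.q g x = t := Iff.rfl

lemma gt_orth {t t' : S.Q} (htt : t ≠ t') {g g' : S.G} (hg : g ∈ GT h t) (hg' : g' ∈ GT h t') :
    S.q g g' = S.zero := by
  rcases hg g' with h1 | h1
  · exact h1
  rcases hg' g with h2 | h2
  · rw [h.qs2]; exact h2
  · exfalso
    apply htt
    rw [← h1, ← h2, h.qs2]

variable [Finite S.G]

/-- the finite set of quaternions -/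
noncomputable def QT (S : QData) [Finite S.G] : Finset S.Q :=
  (Set.finite_range (fun p : S.G × S.G => S.q p.1 p.2)).toFinset

lemma mem_QT (a b : S.G) : S.q a b ∈ QT S := by
  rw [QT, Set.Finite.mem_toFinset]
  exact ⟨(a, b), rfl⟩

include h in
/-- decomposition -/
theorem decomp (x : S.G) (hx : x ∈ IdxGroup S) :
    ∃ c : S.Q → S.G, (∀ t, c t ∈ GT h t) ∧ ∏ t ∈ QT S, c t = x := by
  classical
  induction hx using Subgroup.closure_induction with
  | mem a ha =>
    obtain ⟨t, htT, hta⟩ : ∃ t ∈ QT S, a ∈ GT h t := by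
      by_cases h0 : ∀ y, S.q a y = S.zero
      · exact ⟨S.q 1 1, mem_QT 1 1, fun y => Or.inl (h0 y)⟩
      · push Not at h0
        obtain ⟨y, hy⟩ := h0
        refine ⟨S.q a y, mem_QT a y, fun z => ?_⟩
        rcases ha z y with h1 | h1 | h1
        · exact Or.inl h1
        · exact absurd h1 hy
        · exact Or.inr ((h.qs3 _ _ _).2 h1)
    refine ⟨Pi.mulSingle t a, fun s => ?_, ?_⟩
    · by_cases hs : s = t
      · subst hs
        rw [Pi.mulSingle_eq_same]; exact hta
      · rw [Pi.mulSingle_eq_of_ne hs]; exact (GT h s).one_mem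
    · exact Finset.prod_pi_mulSingle' t a (QT S) |>.trans (if_pos htT)
  | one => exact ⟨fun _ => 1, fun t => (GT h t).one_mem, Finset.prod_const_one⟩
  | mul x y _ _ hx hy =>
    obtain ⟨c, c1, rfl⟩ := hx
    obtain ⟨d, d1, rfl⟩ := hy
    exact ⟨fun t => c t * d t, fun t => (GT h t).mul_mem (c1 t) (d1 t), Finset.prod_mul_distrib⟩
  | inv x _ hx =>
    rw [inv_self' h]
    exact hx

include h in
lemma orth_prod (c d : S.Q → S.G) (hc : ∀ t, c t ∈ GT h t) (hd : ∀ t, d t ∈ GT h t)
    (h0 : ∀ t, S.q (c t) (d t) = S.zero) :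
    S.q (∏ t ∈ QT S, c t) (∏ t ∈ QT S, d t) = S.zero := by
  refine (D h _).prod_mem fun t _ => ?_
  apply mem_comm h
  refine (D h _).prod_mem fun s _ => ?_
  apply mem_comm h
  by_cases hst : s = t
  · subst hst; exact h0 s
  · exact gt_orth h hst (hc s) (hd t)

include h in
theorem triple_of_gen (hg : IdxGroup S = ⊤) : TripleProducts S := by
  classical
  have dec : ∀ x : S.G, ∃ c : S.Q → S.G, (∀ t, c t ∈ GT h t) ∧ ∏ t ∈ QT S, c t = x :=
    fun x => decomp h x (by rw [hg]; trivial)
  intro a b x
  obtain ⟨ca, a1, rfl⟩ := dec a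
  obtain ⟨cb, b1, rfl⟩ := dec b
  obtain ⟨cx, x1, rfl⟩ := dec x
  let u : S.Q → S.G := fun t => if S.q (ca t) (cx t) = S.zero then cx t else 1
  let v : S.Q → S.G := fun t => if S.q (ca t) (cx t) = S.zero then 1 else
    if S.q (cb t) (cx t) = S.zero then cx t else 1
  let w : S.Q → S.G := fun t => if S.q (ca t) (cx t) = S.zero then 1 else
    if S.q (cb t) (cx t) = S.zero then 1 else cx t
  have one0 : ∀ y : S.G, S.q y 1 = S.zero := q_one h
  refine ⟨∏ t ∈ QT S, u t, ∏ t ∈ QT S, v t, ∏ t ∈ QT S, w t, ?_, ?_, ?_, ?_⟩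
  · refine orth_prod h ca u a1 (fun t => ?_) (fun t => ?_)
    · show (if S.q (ca t) (cx t) = S.zero then cx t else 1) ∈ GT h t
      split_ifs
      · exact x1 t
      · exact (GT h t).one_mem
    · show S.q (ca t) (if S.q (ca t) (cx t) = S.zero then cx t else 1) = S.zero
      split_ifs with h1
      · exact h1
      · exact one0 _
  · refine orth_prod h cb v b1 (fun t => ?_) (fun t => ?_)
    · show (if S.q (ca t) (cx t) = S.zero then 1 else
        if S.q (cb t) (cx t) = S.zero then cx t else 1) ∈ GT h t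
      split_ifs
      · exact (GT h t).one_mem
      · exact x1 t
      · exact (GT h t).one_mem
    · show S.q (cb t) (if S.q (ca t) (cx t) = S.zero then 1 else
        if S.q (cb t) (cx t) = S.zero then cx t else 1) = S.zero
      split_ifs with h1 h2
      · exact one0 _
      · exact h2
      · exact one0 _
  · rw [← Finset.prod_mul_distrib]
    refine orth_prod h (fun t => ca t * cb t) w (fun t => (GT h t).mul_mem (a1 t) (b1 t))
      (fun t => ?_) (fun t => ?_)
    · show (if S.q (ca t) (cx t) = S.zero then 1 else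
        if S.q (cb t) (cx t) = S.zero then 1 else cx t) ∈ GT h t
      split_ifs
      · exact (GT h t).one_mem
      · exact (GT h t).one_mem
      · exact x1 t
    · show S.q (ca t * cb t) (if S.q (ca t) (cx t) = S.zero then 1 else
        if S.q (cb t) (cx t) = S.zero then 1 else cx t) = S.zero
      split_ifs with h1 h2
      · exact one0 _
      · exact one0 _
      · refine (q_eq_iff h _ _ _).1 ?_
        rw [(a1 t (cx t)).resolve_left h1, (b1 t (cx t)).resolve_left h2]
  · rw [← Finset.prod_mul_distrib, ← Finset.prod_mul_distrib]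
    refine Finset.prod_congr rfl fun t _ => ?_
    show (if S.q (ca t) (cx t) = S.zero then cx t else 1) *
      (if S.q (ca t) (cx t) = S.zero then 1 else
        if S.q (cb t) (cx t) = S.zero then cx t else 1) *
      (if S.q (ca t) (cx t) = S.zero then 1 else
        if S.q (cb t) (cx t) = S.zero then 1 else cx t) = cx t
    split_ifs <;> simp

include h in
/-- elementary type, if the core has index at most four -/
theorem elem_of_core (hg : (Core S).index ≤ 4) : Elem S := by
  refine elem_of_step h fun H hH hI => ?_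
  by_cases hcl : ∀ a : S.G, (∀ x : S.G, ∃ v k : S.G, S.q a v = S.zero ∧ k ∈ H ∧ v * k = x) → a ∈ H
  · refine stepTwo_of_step (step_of_index h H hH ?_)
    have hle : Core S ≤ H := sInf_le ⟨hI, hcl⟩
    have h1 := Subgroup.index_dvd_of_le hle
    have h2 : (Core S).index ≠ 0 := Subgroup.FiniteIndex.index_ne_zero
    have h3 := Nat.le_of_dvd (Nat.pos_of_ne_zero h2) h1
    omega
  · push Not at hcl
    obtain ⟨a, h1, ha⟩ := hcl
    exact stepTwo_of_step ⟨a, ha, fun _ _ x _ => h1 x⟩

end

theorem core_top_of_gen {S : QData} (hg : IdxGroup S = ⊤) : Core S = ⊤ := by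
  rw [eq_top_iff, ← hg]
  exact le_sInf fun L hL => (Subgroup.closure_le L).2 hL.1

/-! ### the converse -/

theorem gen_of_prodTwo {S : QData} (hS : ProdTwo S) : IdxGroup S = ⊤ := by
  induction hS with
  | base S h _ ht =>
    obtain ⟨t, ht⟩ := ht
    rw [eq_top_iff]
    intro a _
    refine Subgroup.subset_closure fun x y => ?_
    rcases ht a x with h1 | h1
    · exact Or.inl h1
    rcases ht a y with h2 | h2
    · exact Or.inr (Or.inl h2)
    exact Or.inr (Or.inr ((h.qs3 _ _ _).1 (h1.trans h2.symm)))
  | prod S T hS hT h1 h2 =>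
    have zS : ∀ x, S.q 1 x = S.zero := q_one' (good_of_prodTwo hS).quat
    have zT : ∀ x, T.q 1 x = T.zero := q_one' (good_of_prodTwo hT).quat
    have k1 : ∀ x : S.G, ((x, 1) : S.G × T.G) ∈ IdxGroup (prod S T) := by
      intro x
      have hx : x ∈ IdxGroup S := by rw [h1]; trivial
      induction hx using Subgroup.closure_induction with
      | mem a ha =>
        refine Subgroup.subset_closure ?_
        rintro (⟨x1, x2⟩ : S.G × T.G) (⟨y1, y2⟩ : S.G × T.G)
        rcases ha x1 y1 with e | e | e
        · exact Or.inl (Prod.ext e (zT _))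
        · exact Or.inr (Or.inl (Prod.ext e (zT _)))
        · exact Or.inr (Or.inr (Prod.ext e (zT _)))
      | one => exact (IdxGroup (prod S T)).one_mem
      | mul x y _ _ hx hy =>
        have h3 := (IdxGroup (prod S T)).mul_mem hx hy
        have h4 : ((x, 1) : S.G × T.G) * (y, 1) = (x * y, 1) := by
          rw [Prod.mk_mul_mk, one_mul]
        rw [← h4]; exact h3
      | inv x _ hx =>
        have h3 := (IdxGroup (prod S T)).inv_mem hx
        have h4 : ((x, 1) : S.G × T.G)⁻¹ = (x⁻¹, 1) := by
          rw [Prod.inv_mk, inv_one]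
        rw [← h4]; exact h3
    have k2 : ∀ x : T.G, ((1, x) : S.G × T.G) ∈ IdxGroup (prod S T) := by
      intro x
      have hx : x ∈ IdxGroup T := by rw [h2]; trivial
      induction hx using Subgroup.closure_induction with
      | mem a ha =>
        refine Subgroup.subset_closure ?_
        rintro (⟨x1, x2⟩ : S.G × T.G) (⟨y1, y2⟩ : S.G × T.G)
        rcases ha x2 y2 with e | e | e
        · exact Or.inl (Prod.ext (zS _) e)
        · exact Or.inr (Or.inl (Prod.ext (zS _) e))
        · exact Or.inr (Or.inr (Prod.ext (zS _) e))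
      | one => exact (IdxGroup (prod S T)).one_mem
      | mul x y _ _ hx hy =>
        have h3 := (IdxGroup (prod S T)).mul_mem hx hy
        have h4 : ((1, x) : S.G × T.G) * (1, y) = (1, x * y) := by
          rw [Prod.mk_mul_mk, one_mul]
        rw [← h4]; exact h3
      | inv x _ hx =>
        have h3 := (IdxGroup (prod S T)).inv_mem hx
        have h4 : ((1, x) : S.G × T.G)⁻¹ = (1, x⁻¹) := by
          rw [Prod.inv_mk, inv_one]
        rw [← h4]; exact h3
    rw [eq_top_iff]
    rintro (⟨x, y⟩ : S.G × T.G) _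
    have h3 := (IdxGroup (prod S T)).mul_mem (k1 x) (k2 y)
    have h4 : ((x, 1) : S.G × T.G) * (1, y) = (x, y) := by
      rw [Prod.mk_mul_mk, one_mul, mul_one]
    rw [← h4]; exact h3
  | iso S T hS hT e h1 =>
    have hSq := (good_of_prodTwo hS).quat
    obtain ⟨φ, hn, hq⟩ := e
    have z : ∀ a b : S.G, S.q a b = S.zero ↔ T.q (φ a) (φ b) = T.zero := by
      intro a b
      rw [← q_one hSq 1, ← q_one hT 1, hq, map_one]
    rw [eq_top_iff]
    intro y _
    have hx : φ.symm y ∈ IdxGroup S := by rw [h1]; trivial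
    have key : ∀ x ∈ IdxGroup S, φ x ∈ IdxGroup T := by
      intro x hx
      induction hx using Subgroup.closure_induction with
      | mem a ha =>
        refine Subgroup.subset_closure fun x y => ?_
        have h2 := ha (φ.symm x) (φ.symm y)
        rw [z, z, z, map_mul, φ.apply_symm_apply, φ.apply_symm_apply] at h2
        exact h2
      | one => rw [map_one]; exact (IdxGroup T).one_mem
      | mul x y _ _ hx hy => rw [map_mul]; exact (IdxGroup T).mul_mem hx hy
      | inv x _ hx => rw [map_inv]; exact (IdxGroup T).inv_mem hx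
    have h2 := key _ hx
    rwa [φ.apply_symm_apply] at h2

end Pool.Agent.TH673.VG
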