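import Pool.Agent.TH673.VG.IdxTwo

/-! Structures with full core. -/

set_option autoImplicit false

namespace Pool.Agent.TH673.VG

open Pool.Agent.H315R3.ETC

/-- the only closed subgroup is the whole group -/
def Reach (S : QData) : Prop := ∀ L : Subgroup S.G, Closed S L → L = ⊤

lemma core_eq_top (S : QData) : Core S = ⊤ ↔ Reach S := by
  rw [Core, sInf_eq_top]
  rfl

lemma iso_symm {S T : QData} (e : Iso S T) : Iso T S := by
  obtain ⟨φ, hn, hq⟩ := e
  refine ⟨φ.symm, ?_, fun a b c d => ?_⟩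
  · rw [← hn, φ.symm_apply_apply]
  · rw [hq, φ.apply_symm_apply, φ.apply_symm_apply, φ.apply_symm_apply, φ.apply_symm_apply]

lemma idx_two {S : QData} (h : IsQuat S) (ht : TwoValues S) (a : S.G) : IndexTwo S a := by
  obtain ⟨t, ht⟩ := ht
  intro x y
  rcases ht a x with h1 | h1
  · exact Or.inl h1
  rcases ht a y with h2 | h2
  · exact Or.inr (Or.inl h2)
  exact Or.inr (Or.inr ((h.qs3 _ _ _).1 (h1.trans h2.symm)))

lemma reach_two {S : QData} (h : IsQuat S) (ht : TwoValues S) : Reach S := by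
  intro L hL
  rw [eq_top_iff]
  intro a _
  exact hL.1 a (idx_two h ht a)

section
variable {S T : QData}

lemma reach_left (hr : Reach (prod S T)) : Reach S := by
  intro L hL
  have h1 := hr (L.prod ⊤) ⟨?_, ?_⟩
  · rw [eq_top_iff]
    intro x _
    have h2 : ((x, 1) : S.G × T.G) ∈ L.prod (⊤ : Subgroup T.G) := by rw [h1]; trivial
    exact (Subgroup.mem_prod.1 h2).1
  · rintro (⟨a, b⟩ : S.G × T.G) hab
    refine Subgroup.mem_prod.2 ⟨hL.1 a fun x y => ?_, trivial⟩
    rcases hab ((x, 1) : S.G × T.G) ((y, 1) : S.G × T.G) with e | e | e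
    · exact Or.inl (congrArg Prod.fst e)
    · exact Or.inr (Or.inl (congrArg Prod.fst e))
    · exact Or.inr (Or.inr (congrArg Prod.fst e))
  · rintro (⟨a, b⟩ : S.G × T.G) hab
    refine Subgroup.mem_prod.2 ⟨hL.2 a fun x => ?_, trivial⟩
    obtain ⟨v, k, hv, hk, e⟩ := hab ((x, 1) : S.G × T.G)
    exact ⟨v.1, k.1, congrArg Prod.fst hv, (Subgroup.mem_prod.1 hk).1, congrArg Prod.fst e⟩

lemma reach_right (hr : Reach (prod S T)) : Reach T := by
  intro L hL
  have h1 := hr ((⊤ : Subgroup S.G).prod L) ⟨?_, ?_⟩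
  · rw [eq_top_iff]
    intro x _
    have h2 : ((1, x) : S.G × T.G) ∈ (⊤ : Subgroup S.G).prod L := by rw [h1]; trivial
    exact (Subgroup.mem_prod.1 h2).2
  · rintro (⟨a, b⟩ : S.G × T.G) hab
    refine Subgroup.mem_prod.2 ⟨trivial, hL.1 b fun x y => ?_⟩
    rcases hab ((1, x) : S.G × T.G) ((1, y) : S.G × T.G) with e | e | e
    · exact Or.inl (congrArg Prod.snd e)
    · exact Or.inr (Or.inl (congrArg Prod.snd e))
    · exact Or.inr (Or.inr (congrArg Prod.snd e))
  · rintro (⟨a, b⟩ : S.G × T.G) hab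
    refine Subgroup.mem_prod.2 ⟨trivial, hL.2 b fun x => ?_⟩
    obtain ⟨v, k, hv, hk, e⟩ := hab ((1, x) : S.G × T.G)
    exact ⟨v.2, k.2, congrArg Prod.snd hv, (Subgroup.mem_prod.1 hk).2, congrArg Prod.snd e⟩

lemma reach_prod (h : IsQuat (prod S T)) (hS : Reach S) (hT : Reach T) : Reach (prod S T) := by
  have zS : ∀ x, S.q 1 x = S.zero := q_one' (isQuat_left h)
  have zT : ∀ x, T.q 1 x = T.zero := q_one' (isQuat_right h)
  intro (L : Subgroup (S.G × T.G)) hL
  have h1 := hS (L.comap (MonoidHom.inl S.G T.G)) ⟨?_, ?_⟩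
  · have h2 := hT (L.comap (MonoidHom.inr S.G T.G)) ⟨?_, ?_⟩
    · rw [eq_top_iff]
      rintro (⟨x, y⟩ : S.G × T.G) _
      have h3 : x ∈ L.comap (MonoidHom.inl S.G T.G) := by rw [h1]; trivial
      have h4 : y ∈ L.comap (MonoidHom.inr S.G T.G) := by rw [h2]; trivial
      have h5 : ((x, 1) : S.G × T.G) * (1, y) ∈ L := L.mul_mem h3 h4
      have h6 : ((x, 1) : S.G × T.G) * (1, y) = (x, y) := by
        rw [Prod.mk_mul_mk, one_mul, mul_one]
      rw [h6] at h5
      exact h5
    · intro a ha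
      refine hL.1 ((1, a) : S.G × T.G) ?_
      rintro (⟨x1, x2⟩ : S.G × T.G) (⟨y1, y2⟩ : S.G × T.G)
      rcases ha x2 y2 with e | e | e
      · exact Or.inl (Prod.ext (zS _) e)
      · exact Or.inr (Or.inl (Prod.ext (zS _) e))
      · exact Or.inr (Or.inr (Prod.ext (zS _) e))
    · intro a ha
      refine hL.2 ((1, a) : S.G × T.G) ?_
      rintro (⟨x1, x2⟩ : S.G × T.G)
      obtain ⟨v, k, hv, hk, e⟩ := ha x2
      exact ⟨((x1, v) : S.G × T.G), ((1, k) : S.G × T.G), Prod.ext (zS _) hv, hk,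
        Prod.ext (mul_one x1) e⟩
  · intro a ha
    refine hL.1 ((a, 1) : S.G × T.G) ?_
    rintro (⟨x1, x2⟩ : S.G × T.G) (⟨y1, y2⟩ : S.G × T.G)
    rcases ha x1 y1 with e | e | e
    · exact Or.inl (Prod.ext e (zT _))
    · exact Or.inr (Or.inl (Prod.ext e (zT _)))
    · exact Or.inr (Or.inr (Prod.ext e (zT _)))
  · intro a ha
    refine hL.2 ((a, 1) : S.G × T.G) ?_
    rintro (⟨x1, x2⟩ : S.G × T.G)
    obtain ⟨v, k, hv, hk, e⟩ := ha x1
    exact ⟨((v, x2) : S.G × T.G), ((k, 1) : S.G × T.G), Prod.ext hv (zT _), hk,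
      Prod.ext e (mul_one x2)⟩

lemma reach_of_iso (e : Iso S T) (hT : Reach (fz T)) : Reach (fz S) := by
  obtain ⟨φ, hn, hq⟩ := e
  have z : ∀ (a : S.G) (b : T.G), S.q a (φ.symm b) = S.q 1 1 ↔ T.q (φ a) b = T.q 1 1 := by
    intro a b
    rw [hq, map_one, φ.apply_symm_apply]
  have z' : ∀ (a : T.G) (b : S.G), T.q a (φ b) = T.q 1 1 ↔ S.q (φ.symm a) b = S.q 1 1 := by
    intro a b
    rw [hq, map_one, φ.apply_symm_apply]
  intro (L : Subgroup S.G) hL
  have h1 := hT (L.comap φ.symm.toMonoidHom) ⟨?_, ?_⟩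
  · rw [eq_top_iff]
    intro (x : S.G) _
    have h2 : φ x ∈ L.comap φ.symm.toMonoidHom := (Subgroup.eq_top_iff' _).1 h1 (φ x)
    have h3 : φ.symm (φ x) ∈ L := h2
    rwa [φ.symm_apply_apply] at h3
  · intro (a : T.G) ha
    show φ.symm a ∈ L
    refine hL.1 (φ.symm a) fun (x : S.G) (y : S.G) => ?_
    have h2 : T.q a (φ x) = T.q 1 1 ∨ T.q a (φ y) = T.q 1 1 ∨ T.q a (φ x * φ y) = T.q 1 1 :=
      ha (φ x) (φ y)
    rw [← map_mul] at h2
    show S.q (φ.symm a) x = S.q 1 1 ∨ S.q (φ.symm a) y = S.q 1 1 ∨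
      S.q (φ.symm a) (x * y) = S.q 1 1
    rw [← z', ← z', ← z']
    exact h2
  · intro (a : T.G) ha
    show φ.symm a ∈ L
    refine hL.2 (φ.symm a) fun (x : S.G) => ?_
    obtain ⟨(v : T.G), (k : T.G), hv, hk, hvk⟩ := ha (φ x)
    refine ⟨φ.symm v, φ.symm k, ?_, hk, ?_⟩
    · show S.q (φ.symm a) (φ.symm v) = S.q 1 1
      rw [← z', φ.apply_symm_apply]
      exact hv
    · have h2 : φ.symm (v * k) = φ.symm (φ x) := congrArg φ.symm hvk
      rw [φ.symm_apply_apply] at h2
      exact (map_mul φ.symm v k).symm.trans h2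

lemma reach_ext (h : IsQuat (ext S)) (h0 : ∀ a b : S.G, S.q a b = S.zero) : Reach (ext S) := by
  intro (L : Subgroup (S.G × C2)) hL
  have g2 : ∀ x : S.G, x * x = 1 := fun x => congrArg Prod.fst (h.exp2 ((x, 1) : S.G × C2))
  have h1 : ∀ (a b : S.G), (ext S).q ((a, 1) : S.G × C2) ((b, 1) : S.G × C2) = (ext S).zero := by
    intro a b
    show (S.q a b, pw (pw S.neg 1) 1 * pw a 1 * pw b 1) = (S.zero, (1 : S.G))
    rw [h0]
    simp [pw_one']
  have hG : ∀ g : S.G, ((g, 1) : S.G × C2) ∈ L := by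
    intro g
    refine hL.1 _ ?_
    rintro (⟨b, β⟩ : S.G × C2) (⟨c, γ⟩ : S.G × C2)
    rcases C2_cases β with rfl | rfl
    · exact Or.inl (h1 g b)
    rcases C2_cases γ with rfl | rfl
    · exact Or.inr (Or.inl (h1 g c))
    · refine Or.inr (Or.inr ?_)
      have e : ((b, gen) : S.G × C2) * (c, gen) = (b * c, 1) := Prod.ext rfl gen_mul
      have h2 := h1 g (b * c)
      rw [← e] at h2
      exact h2
  rw [eq_top_iff]
  rintro (⟨g, γ⟩ : S.G × C2) _
  rcases C2_cases γ with rfl | rfl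
  · exact hG g
  · refine hL.2 _ ?_
    rintro (⟨b, β⟩ : S.G × C2)
    rcases C2_cases β with rfl | rfl
    · exact ⟨((1, 1) : S.G × C2), ((b, 1) : S.G × C2), q_one h _, hG b,
        Prod.ext (one_mul b) (one_mul 1)⟩
    · refine ⟨((S.neg * g, gen) : S.G × C2), ((S.neg * g * b, 1) : S.G × C2), ?_, hG _, ?_⟩
      · have h3 := h.qs1 ((g, gen) : S.G × C2)
        have e : ((S.neg, 1) : S.G × C2) * (g, gen) = (S.neg * g, gen) := by
          rw [Prod.mk_mul_mk, one_mul]
        show (ext S).q ((g, gen) : S.G × C2) ((S.neg * g, gen) : S.G × C2) = _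
        rw [← e]
        exact h3
      · refine Prod.ext ?_ (mul_one gen)
        show S.neg * g * (S.neg * g * b) = b
        rw [← mul_assoc, g2, one_mul]

/-- full core in a group extension -/
lemma reach_ext_imp (h : IsQuat (fz (ext S))) (hr : Reach (fz (ext S))) :
    (∃ g : S.G, ∀ x : S.G, x = 1 ∨ x = g) ∨ ∀ a b : S.G, S.q a b = S.q 1 1 := by
  by_contra hcon
  push Not at hcon
  obtain ⟨hbig, a0, b0, hab⟩ := hcon
  have hS : IsQuat (fz S) := isQuat_of_ext h
  have hz : (fz (ext S)).zero = (S.q 1 1, 1) := by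
    show (S.q 1 1, pw (pw S.neg 1) 1 * pw 1 1 * pw 1 1) = (S.q 1 1, (1 : S.G))
    simp [pw_one']
  have g2 : ∀ x : S.G, x * x = 1 := hS.exp2
  -- the value of `q` on pairs
  have q11 : ∀ a b : S.G, (fz (ext S)).q ((a, 1) : S.G × C2) ((b, 1) : S.G × C2) = (S.q a b, 1) := by
    intro a b
    show (S.q a b, pw (pw S.neg 1) 1 * pw a 1 * pw b 1) = (S.q a b, (1 : S.G))
    simp [pw_one']
  have q1g : ∀ a b : S.G, (fz (ext S)).q ((a, 1) : S.G × C2) ((b, gen) : S.G × C2) =
      (S.q a b, a) := by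
    intro a b
    show (S.q a b, pw (pw S.neg 1) gen * pw a gen * pw b 1) = (S.q a b, a)
    rw [pw_one', pw_gen, pw_gen, pw_one', one_mul, mul_one]
  have qg1 : ∀ a b : S.G, (fz (ext S)).q ((a, gen) : S.G × C2) ((b, 1) : S.G × C2) =
      (S.q a b, b) := by
    intro a b
    show (S.q a b, pw (pw S.neg gen) 1 * pw a 1 * pw b gen) = (S.q a b, b)
    rw [pw_one', pw_one', pw_gen, one_mul, one_mul]
  -- the radical
  let R : Subgroup S.G :=
    { carrier := {a | ∀ b, S.q a b = S.q 1 1}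
      one_mem' := fun b => q_one' hS b
      mul_mem' := by
        intro x y hx hy b
        have h1 : S.q b (x * y) = S.q 1 1 :=
          p_mul hS (a := b) (b := x) (c := y) ((hS.qs2 b x).trans (hx b))
            ((hS.qs2 b y).trans (hy b))
        exact (hS.qs2 (x * y) b).trans h1
      inv_mem' := by
        intro x hx
        have e : x⁻¹ = x := inv_eq_of_mul_eq_one_left (g2 x)
        show ∀ b, S.q x⁻¹ b = S.q 1 1
        rw [e]; exact hx }
  have hRm : ∀ a : S.G, a ∈ R ↔ ∀ b, S.q a b = S.q 1 1 := fun _ => Iff.rfl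
  have h1 := hr (R.prod (⊥ : Subgroup C2)) ⟨?_, ?_⟩
  · have h2 : ((1, gen) : S.G × C2) ∈ R.prod (⊥ : Subgroup C2) := by rw [h1]; trivial
    exact gen_ne (Subgroup.mem_bot.1 (Subgroup.mem_prod.1 h2).2)
  · rintro (⟨a, α⟩ : S.G × C2) ha
    rcases C2_cases α with rfl | rfl
    · refine Subgroup.mem_prod.2 ⟨(hRm a).2 fun b => ?_, Subgroup.mem_bot.2 rfl⟩
      by_contra hb
      have ha1 : a ≠ 1 := by
        rintro rfl
        exact hb (q_one' hS b)
      rcases ha ((b, 1) : S.G × C2) ((1, gen) : S.G × C2) with e | e | e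
      · rw [q11, hz] at e
        exact hb (congrArg Prod.fst e)
      · rw [q1g, hz] at e
        exact ha1 (congrArg Prod.snd e)
      · have e1 : ((b, 1) : S.G × C2) * (1, gen) = (b, gen) := Prod.ext (mul_one b) (one_mul gen)
        have e2 : (fz (ext S)).q ((a, 1) : S.G × C2) ((b, gen) : S.G × C2) = (fz (ext S)).zero := by
          rw [← e1]; exact e
        rw [q1g, hz] at e2
        exact hb (congrArg Prod.fst e2)
    · exfalso
      obtain ⟨b, hb1, -⟩ := hbig 1
      obtain ⟨c, hc1, hcb⟩ := hbig b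
      rcases ha ((b, 1) : S.G × C2) ((c, 1) : S.G × C2) with e | e | e
      · rw [qg1, hz] at e
        exact hb1 (congrArg Prod.snd e)
      · rw [qg1, hz] at e
        exact hc1 (congrArg Prod.snd e)
      · have e1 : ((b, 1) : S.G × C2) * (c, 1) = (b * c, 1) := Prod.ext rfl (one_mul 1)
        have e2 : (fz (ext S)).q ((a, gen) : S.G × C2) ((b * c, 1) : S.G × C2) =
            (fz (ext S)).zero := by
          rw [← e1]; exact e
        rw [qg1, hz] at e2
        have e3 : b * c = 1 := congrArg Prod.snd e2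
        apply hcb
        have e4 : b * (b * c) = b := by rw [e3, mul_one]
        rwa [← mul_assoc, g2, one_mul] at e4
  · rintro (⟨a, α⟩ : S.G × C2) ha
    rcases C2_cases α with rfl | rfl
    · refine Subgroup.mem_prod.2 ⟨?_, Subgroup.mem_bot.2 rfl⟩
      by_cases ha1 : a = 1
      · rw [ha1]; exact R.one_mem
      exfalso
      obtain ⟨(⟨v, ν⟩ : S.G × C2), (⟨k, κ⟩ : S.G × C2), hv, hk, e⟩ := ha ((1, gen) : S.G × C2)
      have hκ : κ = 1 := Subgroup.mem_bot.1 (Subgroup.mem_prod.1 hk).2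
      have hν : ν = 1 := by
        rcases C2_cases ν with rfl | rfl
        · rfl
        · exfalso
          have hv' : (fz (ext S)).q ((a, 1) : S.G × C2) ((v, gen) : S.G × C2) =
            (fz (ext S)).zero := hv
          rw [q1g, hz] at hv'
          exact ha1 (congrArg Prod.snd hv')
      have e1 : ν * κ = gen := congrArg Prod.snd e
      rw [hν, hκ, one_mul] at e1
      exact gen_ne e1.symm
    · exfalso
      obtain ⟨(⟨v, ν⟩ : S.G × C2), (⟨k, κ⟩ : S.G × C2), hv, hk, e⟩ := ha ((a0, 1) : S.G × C2)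
      have hκ : κ = 1 := Subgroup.mem_bot.1 (Subgroup.mem_prod.1 hk).2
      have hkR : k ∈ R := (Subgroup.mem_prod.1 hk).1
      have hν : ν = 1 := by
        have e1 : ν * κ = 1 := congrArg Prod.snd e
        rwa [hκ, mul_one] at e1
      subst hν
      have hv' : (fz (ext S)).q ((a, gen) : S.G × C2) ((v, 1) : S.G × C2) =
        (fz (ext S)).zero := hv
      rw [qg1, hz] at hv'
      have hv1 : v = 1 := congrArg Prod.snd hv'
      have e2 : v * k = a0 := congrArg Prod.fst e
      rw [hv1, one_mul] at e2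
      rw [e2] at hkR
      exact hab ((hRm a0).1 hkR b0)

end

lemma fz_ext (S : QData) : fz (ext S) = ext (fz S) := by
  have hz : (pw (pw S.neg 1) 1 * pw 1 1 * pw 1 1 : S.G) = 1 := by simp [pw_one']
  unfold fz ext
  simp only [QData.mk.injEq, heq_eq_eq, true_and]
  exact Prod.ext rfl hz

lemma prodEx_of_prodTwo {S : QData} (hS : ProdTwo S) : ProdEx S := by
  induction hS with
  | base S h hf ht => exact ProdEx.two S h hf ht
  | prod S T _ _ h1 h2 => exact ProdEx.prod S T h1 h2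
  | iso S T _ hT e h1 => exact ProdEx.iso S T h1 hT e

theorem prodEx_aux (S : QData) (hE : Elem S) :
    IsQuat (fz S) → Finite S.G → Reach (fz S) → ProdEx (fz S) := by
  induction hE with
  | l0 => exact fun h hf _ => ProdEx.two _ h hf ⟨(), fun _ _ => Or.inl rfl⟩
  | l10 => exact fun h hf _ => ProdEx.two _ h hf ⟨(), fun _ _ => Or.inl rfl⟩
  | l11 => exact fun h hf _ => ProdEx.two _ h hf ⟨(), fun _ _ => Or.inl rfl⟩
  | l1 =>
    intro h hf _
    refine ProdEx.two _ h hf ⟨true, fun a b => ?_⟩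
    have hz : (fz L1).zero = false := by
      show decide ((1 : C2) = gen ∧ (1 : C2) = gen) = false
      simp [gen2]
    rw [hz]
    exact bool_or _
  | loc S hS =>
    intro h hf _
    obtain ⟨-, -, -, -, hc⟩ := hS
    refine ProdEx.two _ h hf ?_
    obtain ⟨x, y, hxy, hset⟩ := Set.ncard_eq_two.1 hc
    have hmem : ∀ a b : S.G, S.q a b = x ∨ S.q a b = y := by
      intro a b
      have : S.q a b ∈ {t : S.Q | ∃ a b : S.G, S.q a b = t} := ⟨a, b, rfl⟩
      rw [hset] at this
      simpa using this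
    rcases hmem 1 1 with h1 | h1
    · refine ⟨y, fun a b => ?_⟩
      show S.q a b = S.q 1 1 ∨ S.q a b = y
      rw [h1]; exact hmem a b
    · refine ⟨x, fun a b => ?_⟩
      show S.q a b = S.q 1 1 ∨ S.q a b = x
      rw [h1]; exact (hmem a b).symm
  | prod S T _ _ ih1 ih2 =>
    intro h hf hr
    have h' : IsQuat (prod (fz S) (fz T)) := h
    have hr' : Reach (prod (fz S) (fz T)) := hr
    have hf' : Finite (S.G × T.G) := hf
    have hf1 : Finite S.G := Finite.of_surjective (fun x : S.G × T.G => x.1) Prod.fst_surjective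
    have hf2 : Finite T.G := Finite.of_surjective (fun x : S.G × T.G => x.2) Prod.snd_surjective
    exact ProdEx.prod (fz S) (fz T) (ih1 (isQuat_left h') hf1 (reach_left hr'))
      (ih2 (isQuat_right h') hf2 (reach_right hr'))
  | ext S _ _ =>
    intro h hf hr
    have hf' : Finite (S.G × C2) := hf
    have hf1 : Finite S.G := Finite.of_surjective (fun x : S.G × C2 => x.1) Prod.fst_surjective
    rcases reach_ext_imp h hr with h1 | h1
    · exact prodEx_of_prodTwo (prodTwo_ext h h1)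
    · have h2 := h
      rw [fz_ext] at h2 ⊢
      exact ProdEx.ext (fz S) h2 hf1 h1
  | iso S T _ hST ih =>
    intro h hf hr
    have hf1 : Finite S.G := by
      obtain ⟨φ, -, -⟩ := hST
      exact Finite.of_injective φ φ.injective
    exact ProdEx.iso _ _ (ih (isQuat_of_iso hST h) hf1 (reach_of_iso hST hr)) h hST

theorem prodEx_of_core {S : QData} (h : IsQuat S) (hf : Finite S.G) (hc : Core S = ⊤) :
    ProdEx S := by
  have hE : Elem S := elem_of_core h (by rw [hc, Subgroup.index_top]; norm_num)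
  have h1 := prodEx_aux S hE
  rw [fz_eq h] at h1
  exact h1 h hf ((core_eq_top S).1 hc)

theorem reach_of_prodEx {S : QData} (hS : ProdEx S) : IsQuat S ∧ Reach S := by
  induction hS with
  | two S h _ ht => exact ⟨h, reach_two h ht⟩
  | ext T h _ h0 => exact ⟨h, reach_ext h h0⟩
  | prod S T _ _ h1 h2 =>
    have hq := isQuat_prod h1.1 h2.1
    exact ⟨hq, reach_prod hq h1.2 h2.2⟩
  | iso S T _ hT e h1 =>
    refine ⟨hT, ?_⟩
    have h2 := reach_of_iso (iso_symm e)
    rw [fz_eq hT, fz_eq h1.1] at h2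
    exact h2 h1.2

end Pool.Agent.TH673.VG
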