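import Pool.Agent.W622.ETG.Final
import Pool.Agent.W622.ETG.Bri
import Pool.Agent.TH673.VG.Star
import Pool.Agent.TH673.VG.Ind
import Pool.Agent.TH673.VG.CritDefs

/-! The value group criterion for elementary type. -/

set_option autoImplicit false

namespace Pool.Agent.TH673.VG

open Pool.Agent.H315R3.ETC

theorem stepTwo_of_step {S : QData} {H : Subgroup S.G} (hH : Step S H) : StepTwo S H := by
  obtain ⟨a, ha, hM⟩ := hH
  refine ⟨a, ha, 1, H.one_mem, fun g hg x hx => ?_⟩
  obtain ⟨v, k, hv, hk, e⟩ := hM g hg x hx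
  exact Or.inl ⟨v, k, Or.inl hv, hk, e⟩

section suff

variable {S : QData} (h : IsQuat S)

include h in
theorem step_iff_common (H : Subgroup S.G) : Step S H ↔ Common S H := by
  constructor
  · rintro ⟨a, ha, hM⟩
    refine ⟨a, ha, fun g hg x y e => ?_⟩
    obtain ⟨z, e1, e2⟩ := link h e
    obtain ⟨v, k, hv, hk, rfl⟩ := hM g hg z e2
    exact ⟨k, hk, by rw [e1, q_shift h _ hv]⟩
  · rintro ⟨a, ha, hM⟩
    refine ⟨a, ha, fun g hg x e => ?_⟩
    obtain ⟨k, hk, e1⟩ := hM g hg x x ((q_eq_iff h _ _ _).2 e)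
    exact ⟨x * k, k, (h.qs3 _ _ _).1 e1, hk, by rw [mul_assoc, h.exp2, mul_one]⟩

include h in
/-- a homomorphism vanishing on `N` and prescribed on `K` -/
theorem hom_glue (N K : Subgroup S.G) (φ : S.G → ZMod 2)
    (hφ : ∀ k ∈ K, ∀ k' ∈ K, φ (k * k') = φ k + φ k') (h0 : ∀ k ∈ K, k ∈ N → φ k = 0) :
    ∃ f : S.G → ZMod 2, (∀ x y, f (x * y) = f x + f y) ∧ (∀ n ∈ N, f n = 0) ∧
      ∀ k ∈ K, f k = φ k := by
  let _ : Module (ZMod 2) (Additive S.G) := AddCommGroup.zmodModule (n := 2) (by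
    intro x
    rw [two_smul]
    exact h.exp2 x.toMul)
  let N' : Submodule (ZMod 2) (Additive S.G) := AddSubgroup.toZModSubmodule 2 N.toAddSubgroup
  let K' : Submodule (ZMod 2) (Additive S.G) := AddSubgroup.toZModSubmodule 2 K.toAddSubgroup
  let ψ0 : K' →+ ZMod 2 :=
    { toFun := fun k => φ k.1.toMul
      map_zero' := by
        have h1 := hφ 1 K.one_mem 1 K.one_mem
        rw [mul_one] at h1
        have h01 : ∀ u : ZMod 2, u = u + u → u = 0 := by decide
        exact h01 _ h1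
      map_add' := fun x y => hφ _ x.2 _ y.2 }
  let ψ1 : K' →ₗ[ZMod 2] ZMod 2 := ψ0.toZModLinearMap 2
  have hψ1 : ∀ k : K', ψ1 k = φ k.1.toMul := fun _ => rfl
  let Φ : (N' × K') →ₗ[ZMod 2] Additive S.G := N'.subtype.coprod K'.subtype
  let ψ : (N' × K') →ₗ[ZMod 2] ZMod 2 := ψ1.comp (LinearMap.snd (ZMod 2) N' K')
  have hmem : ψ ∈ (LinearMap.ker Φ).dualAnnihilator := by
    rw [Submodule.mem_dualAnnihilator]
    rintro ⟨n, k⟩ hnk
    have h1 : (n : Additive S.G) + (k : Additive S.G) = 0 := by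
      have := LinearMap.mem_ker.1 hnk
      simpa [Φ] using this
    show ψ1 k = 0
    rw [hψ1]
    have h2 : (k : Additive S.G) = (n : Additive S.G) := by
      have h3 : (n : Additive S.G) + n = 0 := h.exp2 n.1.toMul
      exact add_left_cancel (h1.trans h3.symm)
    refine h0 _ k.2 ?_
    rw [h2]
    exact n.2
  rw [← LinearMap.range_dualMap_eq_dualAnnihilator_ker] at hmem
  obtain ⟨g, hg⟩ := hmem
  have hg' : ∀ n : N', ∀ k : K', g (n.1 + k.1) = φ k.1.toMul := by
    intro n k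
    have := congrArg (fun t : Module.Dual (ZMod 2) (N' × K') => t (n, k)) hg
    simpa [Φ, ψ, LinearMap.dualMap_apply, hψ1] using this
  refine ⟨fun x => g (Additive.ofMul x), fun x y => ?_, fun n hn => ?_, fun k hk => ?_⟩
  · show g (Additive.ofMul (x * y)) = _
    rw [ofMul_mul, map_add]
  · have := hg' ⟨Additive.ofMul n, hn⟩ 0
    have e : φ 1 = 0 := h0 1 K.one_mem N.one_mem
    simpa [e] using this
  · have := hg' 0 ⟨Additive.ofMul k, hk⟩
    simpa using this

/-- `χ` is a symbol on `W` -/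
def Sy (S : QData) (W : Subgroup S.G) (χ : S.G → S.G → ZMod 2) : Prop :=
  (∀ a ∈ W, ∀ b ∈ W, ∀ c, χ (a * b) c = χ a c + χ b c) ∧
  (∀ a ∈ W, ∀ b c, χ a (b * c) = χ a b + χ a c) ∧
  (∀ a ∈ W, ∀ b, S.q a b = S.zero → χ a b = 0)

include h in
/-- symbols are functions of the quaternions -/
theorem sy_eq {H : Subgroup S.G} {χ : S.G → S.G → ZMod 2} (hχ : Sy S H χ) {k g a b : S.G}
    (hk : k ∈ H) (hg : g ∈ H) (e : S.q k a = S.q g b) : χ k a = χ g b := by
  obtain ⟨c1, c2, c3⟩ := hχ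
  have h02 : ∀ u v : ZMod 2, u + v = 0 → u = v := by decide
  obtain ⟨y, e1, e2⟩ := link h e
  have e3 : χ k a = χ k y := h02 _ _ (by
    rw [← c2 k hk]
    exact c3 k hk _ ((h.qs3 _ _ _).1 e1))
  have e4 : χ k y = χ g y := h02 _ _ (by
    rw [← c1 k hk g hg]
    exact c3 _ (H.mul_mem hk hg) _ e2)
  have e5 : χ g y = χ g b := h02 _ _ (by
    rw [← c2 g hg]
    refine c3 g hg _ ((h.qs3 _ _ _).1 ?_)
    rw [← (q_eq_iff h k g y).2 e2, ← e1, e])
  rw [e3, e4, e5]

include h in
/-- extension of a symbol by a compatible homomorphism -/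
theorem extend_of_hom (H : Subgroup S.G) (χ : S.G → S.G → ZMod 2) (hχ : Sy S H χ) (a : S.G)
    (ha : a ∉ H) (f : S.G → ZMod 2) (F1 : ∀ x y, f (x * y) = f x + f y)
    (key : ∀ g ∈ H, ∀ b, S.q (a * g) b = S.zero → f b = χ g b) :
    ∃ χ' : S.G → S.G → ZMod 2, Sy S (H ⊔ Subgroup.zpowers a) χ' ∧
      ∀ x ∈ H, ∀ b, χ' x b = χ x b := by
  classical
  have hχ' := hχ
  obtain ⟨c1, c2, c3⟩ := hχ'
  have h22 : ∀ u : ZMod 2, u + u = 0 := by decide
  have aa : a * a = 1 := h.exp2 a
  have haa : ∀ x, a * (a * x) = x := fun x => by rw [← mul_assoc, aa, one_mul]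
  have hmem : ∀ x ∈ H ⊔ Subgroup.zpowers a, x ∈ H ∨ (x ∉ H ∧ a * x ∈ H) := by
    intro x hx
    obtain ⟨y, hy, z, hz, rfl⟩ := Subgroup.mem_sup.1 hx
    have hz' : z = 1 ∨ z = a := by
      obtain ⟨n, rfl⟩ := Subgroup.mem_zpowers_iff.1 hz
      rcases Int.even_or_odd' n with ⟨m, rfl | rfl⟩
      · left
        rw [zpow_mul, zpow_two, aa, one_zpow]
      · right
        rw [zpow_add, zpow_mul, zpow_two, aa, one_zpow, one_mul, zpow_one]
    rcases hz' with rfl | rfl
    · left; rw [mul_one]; exact hy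
    · right
      refine ⟨fun h1 => ha ?_, ?_⟩
      · have := H.mul_mem (H.inv_mem hy) h1
        rwa [inv_mul_cancel_left] at this
      · rw [mul_comm y, haa]; exact hy
  refine ⟨fun x b => if x ∈ H then χ x b else f b + χ (a * x) b, ⟨?_, ?_, ?_⟩, ?_⟩
  · intro x hx y hy b
    show (if x * y ∈ H then χ (x * y) b else f b + χ (a * (x * y)) b) =
      (if x ∈ H then χ x b else f b + χ (a * x) b) + if y ∈ H then χ y b else f b + χ (a * y) b
    rcases hmem x hx with hx1 | ⟨hx1, hx2⟩ <;> rcases hmem y hy with hy1 | ⟨hy1, hy2⟩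
    · rw [if_pos hx1, if_pos hy1, if_pos (H.mul_mem hx1 hy1)]
      exact c1 x hx1 y hy1 b
    · rw [if_pos hx1, if_neg hy1, if_neg (fun h1 => hy1 (by
        have := H.mul_mem (H.inv_mem hx1) h1
        rwa [inv_mul_cancel_left] at this)), mul_left_comm, c1 x hx1 _ hy2]
      ring
    · rw [if_neg hx1, if_pos hy1, if_neg (fun h1 => hx1 (by
        have := H.mul_mem h1 (H.inv_mem hy1)
        rwa [mul_inv_cancel_right] at this)), ← mul_assoc, c1 _ hx2 y hy1]
      ring
    · have e : x * y = (a * x) * (a * y) := by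
        rw [mul_mul_mul_comm, aa, one_mul]
      rw [if_neg hx1, if_neg hy1, e, if_pos (H.mul_mem hx2 hy2), c1 _ hx2 _ hy2]
      linear_combination -h22 (f b)
  · intro x hx b c
    show (if x ∈ H then χ x (b * c) else f (b * c) + χ (a * x) (b * c)) =
      (if x ∈ H then χ x b else f b + χ (a * x) b) + if x ∈ H then χ x c else f c + χ (a * x) c
    rcases hmem x hx with hx1 | ⟨hx1, hx2⟩
    · rw [if_pos hx1, if_pos hx1, if_pos hx1]
      exact c2 x hx1 b c
    · rw [if_neg hx1, if_neg hx1, if_neg hx1, c2 _ hx2, F1]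
      ring
  · intro x hx b hb
    show (if x ∈ H then χ x b else f b + χ (a * x) b) = 0
    rcases hmem x hx with hx1 | ⟨hx1, hx2⟩
    · rw [if_pos hx1]
      exact c3 x hx1 b hb
    · rw [if_neg hx1, key _ hx2 b (by rw [haa]; exact hb), h22]
  · intro x hx b
    exact if_pos hx

include h in
/-- one step of the extension -/
theorem extend_one (H : Subgroup S.G) (χ : S.G → S.G → ZMod 2) (hχ : Sy S H χ) (a : S.G)
    (ha : a ∉ H) (c : S.G) (hc : c ∈ H) (hM : ∀ g ∈ H, ∀ x : S.G, S.q (a * g) x = S.zero →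
      (∃ v k : S.G, (S.q a v = S.zero ∨ S.q (a * c) v = S.zero) ∧ k ∈ H ∧ v * k = x) ∨
      ∃ v w : S.G, S.q a v = S.zero ∧ S.q (a * c) w = S.zero ∧ v * w = x) :
    ∃ χ' : S.G → S.G → ZMod 2, Sy S (H ⊔ Subgroup.zpowers a) χ' ∧
      ∀ x ∈ H, ∀ b, χ' x b = χ x b := by
  classical
  have hχ' := hχ
  obtain ⟨c1, c2, c3⟩ := hχ'
  have h22 : ∀ u : ZMod 2, u + u = 0 := by decide
  obtain ⟨f0, f1, f2, f3⟩ := hom_glue h (D h a) H (fun k => χ k a)
    (fun k hk k' hk' => c1 k hk k' hk' a) (fun k hk hka => c3 k hk a (by rw [h.qs2]; exact hka))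
  obtain ⟨e0, e1, e2, e3⟩ := hom_glue h (D h a ⊔ H) (D h (a * c)) (fun x => f0 x + χ c x)
    (fun x _ y _ => by
      show f0 (x * y) + χ c (x * y) = (f0 x + χ c x) + (f0 y + χ c y)
      rw [f1, c2 c hc]; ring)
    (fun x hx hx' => by
      obtain ⟨v, hv, k, hk, rfl⟩ := Subgroup.mem_sup.1 hx'
      show f0 (v * k) + χ c (v * k) = 0
      have g1 : χ k a = χ c (v * k) := by
        refine sy_eq h hχ hk hc ?_
        rw [← (q_eq_iff h a c (v * k)).2 hx, q_shift h _ hv, h.qs2]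
      rw [f1, f2 v hv, f3 k hk, zero_add, g1, h22])
  obtain ⟨f, F1, F2, F3, F4⟩ : ∃ f : S.G → ZMod 2, (∀ x y, f (x * y) = f x + f y) ∧
      (∀ v ∈ D h a, f v = 0) ∧ (∀ k ∈ H, f k = χ k a) ∧ ∀ v ∈ D h (a * c), f v = χ c v := by
    refine ⟨fun x => f0 x + e0 x, fun x y => ?_, fun v hv => ?_, fun k hk => ?_, fun v hv => ?_⟩
    · show f0 (x * y) + e0 (x * y) = _
      rw [f1, e1]; ring
    · show f0 v + e0 v = 0
      rw [f2 v hv, e2 v (Subgroup.mem_sup_left hv), add_zero]
    · show f0 k + e0 k = χ k a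
      rw [f3 k hk, e2 k (Subgroup.mem_sup_right hk), add_zero]
    · show f0 v + e0 v = χ c v
      rw [e3 v hv]
      linear_combination h22 (f0 v)
  have key : ∀ g ∈ H, ∀ b, S.q (a * g) b = S.zero → f b = χ g b := by
    intro g hg b hb
    obtain ⟨v, k, hv | hv, hk, rfl⟩ | ⟨v, w, hv, hw, rfl⟩ := hM g hg b hb
    · rw [F1, F2 v hv, zero_add, F3 k hk]
      refine sy_eq h hχ hk hg ?_
      rw [← (q_eq_iff h a g (v * k)).2 hb, q_shift h _ hv, h.qs2]
    · have g1 : χ k (a * c) = χ (c * g) (v * k) := by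
        refine sy_eq h hχ hk (H.mul_mem hc hg) ?_
        have g2 : v * k ∈ D h (a * c * (c * g)) := by
          rw [mem_D, mul_assoc a c, ← mul_assoc c c, h.exp2, one_mul]
          exact hb
        rw [← (q_eq_iff h (a * c) (c * g) (v * k)).2 g2, q_shift h _ hv, h.qs2]
      have g3 : χ k c = χ c k := sy_eq h hχ hk hc (h.qs2 _ _)
      rw [c2 k hk, c1 c hc g hg, c2 c hc, g3] at g1
      rw [F1, F4 v hv, F3 k hk]
      linear_combination g1 + h22 (χ c v)
    · rw [F1, F2 v hv, zero_add, F4 w hw]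
      refine sy_eq h hχ hc hg ?_
      rw [← (q_eq_iff h a g (v * w)).2 hb, q_shift h _ hv]
      exact ((q_eq_iff h a c w).2 hw).symm
  exact extend_of_hom h H χ hχ a ha f F1 key

include h in
/-- symbols extend over an element whose value group has index at most two -/
theorem extend_idx (H : Subgroup S.G) (χ : S.G → S.G → ZMod 2) (hχ : Sy S H χ) (a : S.G)
    (ha : a ∉ H) (hidx : IndexTwo S a) :
    ∃ χ' : S.G → S.G → ZMod 2, Sy S (H ⊔ Subgroup.zpowers a) χ' ∧
      ∀ x ∈ H, ∀ b, χ' x b = χ x b := by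
  classical
  have hχ' := hχ
  obtain ⟨c1, c2, c3⟩ := hχ'
  obtain ⟨c, hc⟩ : ∃ c : ZMod 2, ∀ g ∈ H, ∀ b, S.q a b = S.q g b → S.q a b ≠ S.zero →
      χ g b = c := by
    by_cases hex : ∃ g ∈ H, ∃ b, S.q a b = S.q g b ∧ S.q a b ≠ S.zero
    · obtain ⟨g0, hg0, b0, e0, n0⟩ := hex
      refine ⟨χ g0 b0, fun g hg b e n => sy_eq h hχ hg hg0 ?_⟩
      have e1 : S.q a b = S.q a b0 := by
        rw [h.qs3]
        rcases hidx b b0 with h1 | h1 | h1
        · exact absurd h1 n
        · exact absurd h1 n0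
        · exact h1
      rw [← e, ← e0, e1]
    · push Not at hex
      exact ⟨0, fun g hg b e n => absurd (hex g hg b e) n⟩
  refine extend_of_hom h H χ hχ a ha (fun b => if S.q a b = S.zero then 0 else c) ?_ ?_
  · intro x y
    show (if S.q a (x * y) = S.zero then (0 : ZMod 2) else c) =
      (if S.q a x = S.zero then 0 else c) + if S.q a y = S.zero then 0 else c
    by_cases hx : S.q a x = S.zero
    · rw [q_shift h _ hx, if_pos hx, zero_add]
    · by_cases hy : S.q a y = S.zero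
      · rw [mul_comm, q_shift h _ hy, if_pos hy, add_zero]
      · have hxy : S.q a (x * y) = S.zero := by
          rcases hidx x y with h1 | h1 | h1
          · exact absurd h1 hx
          · exact absurd h1 hy
          · exact h1
        have h22 : ∀ u : ZMod 2, u + u = 0 := by decide
        rw [if_pos hxy, if_neg hx, if_neg hy, h22]
  · intro g hg b hb
    have e : S.q a b = S.q g b := (q_eq_iff h a g b).2 hb
    show (if S.q a b = S.zero then (0 : ZMod 2) else c) = χ g b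
    by_cases h0 : S.q a b = S.zero
    · rw [if_pos h0]
      exact (c3 g hg b (by rw [← e]; exact h0)).symm
    · rw [if_neg h0]
      exact (hc g hg b e h0).symm

variable [Finite S.G]

include h in
/-- symbols extend to the whole group -/
theorem extend_all (hM : ∀ H : Subgroup S.G, H ≠ ⊤ → (∀ a, IndexTwo S a → a ∈ H) → StepTwo S H) :
    ∀ H : Subgroup S.G, ∀ χ : S.G → S.G → ZMod 2, Sy S H χ →
      ∃ χ' : S.G → S.G → ZMod 2, Sy S ⊤ χ' ∧ ∀ x ∈ H, ∀ b, χ' x b = χ x b := by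
  intro H
  induction H using WellFoundedGT.induction with
  | ind H ih =>
    intro χ hχ
    by_cases hH : H = ⊤
    · subst hH
      exact ⟨χ, hχ, fun _ _ _ => rfl⟩
    obtain ⟨a, ha, χ1, h1, h2⟩ : ∃ a ∉ H, ∃ χ1 : S.G → S.G → ZMod 2,
        Sy S (H ⊔ Subgroup.zpowers a) χ1 ∧ ∀ x ∈ H, ∀ b, χ1 x b = χ x b := by
      by_cases hI : ∀ a, IndexTwo S a → a ∈ H
      · obtain ⟨a, ha, c, hc, hMa⟩ := hM H hH hI
        exact ⟨a, ha, extend_one h H χ hχ a ha c hc hMa⟩
      · push Not at hI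
        obtain ⟨a, hidx, ha⟩ := hI
        exact ⟨a, ha, extend_idx h H χ hχ a ha hidx⟩
    have hlt : H < H ⊔ Subgroup.zpowers a := by
      refine lt_of_le_of_ne le_sup_left fun e => ha ?_
      rw [e]
      exact (le_sup_right : _ ≤ H ⊔ Subgroup.zpowers a) (Subgroup.mem_zpowers a)
    obtain ⟨χ2, h3, h4⟩ := ih _ hlt χ1 h1
    exact ⟨χ2, h3, fun x hx b => by
      rw [h4 x ((le_sup_left : H ≤ _) hx), h2 x hx]⟩

include h in
theorem mp_of_step (hM : ∀ H : Subgroup S.G, H ≠ ⊤ → (∀ a, IndexTwo S a → a ∈ H) → StepTwo S H) : Pool.Agent.W622.ETG.MP S := by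
  intro W l f hl hf h0
  obtain ⟨χ', h1, h2⟩ := extend_all h hM W (fun w b => l w * f b)
    ⟨fun a _ b _ c => by
        show l (a * b) * f c = l a * f c + l b * f c
        rw [hl, add_mul],
      fun a _ b c => by
        show l a * f (b * c) = l a * f b + l a * f c
        rw [hf, mul_add], h0⟩
  exact ⟨χ', h1, h2⟩

include h in
theorem elem_of_step (hM : ∀ H : Subgroup S.G, H ≠ ⊤ → (∀ a, IndexTwo S a → a ∈ H) → StepTwo S H) : Elem S := by
  obtain ⟨hcore, hPL, hout, -⟩ := Pool.Agent.W622.ETG.all_parts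
  obtain ⟨V, i1, i2, i3, e, A, hA, hH, hiso⟩ :=
    Pool.Agent.W622.ETG.bri_prod hPL S h inferInstance (mp_of_step h hM)
  exact Elem.iso _ _ (hout V e A (hcore V e A hA hH)) hiso

include h in
/-- the condition holds for subgroups of index less than eight -/
theorem step_of_index (H : Subgroup S.G) (hH : H ≠ ⊤) (hi : H.index < 8) : Step S H := by
  by_contra hcon
  -- no product `V(a) H` is everything
  have hno : ∀ a : S.G, a ∉ H → D h a ⊔ H ≠ ⊤ := by
    intro a ha htop
    apply hcon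
    refine ⟨a, ha, fun g _ x _ => ?_⟩
    have hx : x ∈ D h a ⊔ H := by rw [htop]; trivial
    obtain ⟨v, hv, k, hk, e⟩ := Subgroup.mem_sup.1 hx
    exact ⟨v, k, hv, hk, e⟩
  -- some `a` with `H ⊔ ⟨-a⟩` small
  have h4 : ∀ a : S.G, a ∉ H → ¬ ∀ x y : S.G, x ∈ H ⊔ Subgroup.zpowers (S.neg * a) ∨
      y ∈ H ⊔ Subgroup.zpowers (S.neg * a) ∨ x * y ∈ H ⊔ Subgroup.zpowers (S.neg * a) := by
    intro a ha hind
    apply hcon
    refine ⟨a, ha, fun g hg x hx => ?_⟩
    have hle : ∀ g ∈ H, H ⊔ Subgroup.zpowers (S.neg * a) ≤ D h (a * g) ⊔ H := by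
      intro g hg
      rw [sup_le_iff]
      refine ⟨le_sup_right, ?_⟩
      rw [Subgroup.zpowers_le]
      have e : S.neg * a = (S.neg * (a * g)) * g := by
        rw [mul_assoc, mul_assoc, h.exp2, mul_one]
      rw [e]
      exact Subgroup.mul_mem_sup (h.qs1 (a * g)) hg
    have heq : ∀ g ∈ H, D h (a * g) ⊔ H = H ⊔ Subgroup.zpowers (S.neg * a) := by
      intro g hg
      apply le_antisymm _ (hle g hg)
      intro y hy
      by_contra hyn
      apply hno (a * g) (fun h1 => ha (by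
        have := H.mul_mem h1 (H.inv_mem hg)
        rwa [mul_inv_cancel_right] at this))
      rw [eq_top_iff]
      intro z _
      rcases hind y z with h1 | h1 | h1
      · exact absurd h1 hyn
      · exact hle g hg h1
      · have := Subgroup.mul_mem _ (Subgroup.inv_mem _ hy) (hle g hg h1)
        rwa [inv_mul_cancel_left] at this
    have h1 : x ∈ D h a ⊔ H := by
      have h2 := heq 1 H.one_mem
      rw [mul_one] at h2
      rw [h2, ← heq g hg]
      exact Subgroup.mem_sup_left hx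
    obtain ⟨v, hv, k, hk, e⟩ := Subgroup.mem_sup.1 h1
    exact ⟨v, k, hv, hk, e⟩
  -- some `a` outside `H ∪ (-1) H`
  obtain ⟨a, ha, ha'⟩ : ∃ a : S.G, a ∉ H ∧ S.neg * a ∉ H := by
    by_contra hc
    push Not at hc
    obtain ⟨b, hb⟩ : ∃ b : S.G, b ∉ H := by
      by_contra hc'
      push Not at hc'
      exact hH (eq_top_iff.2 fun x _ => hc' x)
    have hneg : S.neg ∉ H := by
      intro h1
      have := H.mul_mem (H.inv_mem h1) (hc b hb)
      rw [inv_mul_cancel_left] at this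
      exact hb this
    refine h4 S.neg hneg fun x y => ?_
    by_cases hx : x ∈ H
    · exact Or.inl (Subgroup.mem_sup_left hx)
    by_cases hy : y ∈ H
    · exact Or.inr (Or.inl (Subgroup.mem_sup_left hy))
    refine Or.inr (Or.inr (Subgroup.mem_sup_left ?_))
    have h1 := H.mul_mem (hc x hx) (hc y hy)
    rwa [mul_mul_mul_comm, h.exp2, one_mul] at h1
  set L := H ⊔ Subgroup.zpowers (S.neg * a) with hL
  have hp : IsPGroup 2 S.G := by
    intro x
    exact ⟨1, by rw [pow_one, pow_two, h.exp2]⟩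
  have hLi : 4 ≤ L.index := by
    obtain ⟨n, hn⟩ := hp.index L
    have h1 : n ≠ 0 := by
      rintro rfl
      rw [pow_zero, Subgroup.index_eq_one] at hn
      exact h4 a ha fun x y => Or.inl (by rw [← hL, hn]; trivial)
    have h2 : n ≠ 1 := by
      rintro rfl
      rw [pow_one] at hn
      refine h4 a ha fun x y => ?_
      rw [← hL, Subgroup.mul_mem_iff_of_index_two hn]
      tauto
    calc 4 = 2 ^ 2 := by norm_num
      _ ≤ 2 ^ n := Nat.pow_le_pow_right (by norm_num) (by omega)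
      _ = L.index := hn.symm
  have hle : H ≤ L := le_sup_left
  have hr : 2 ≤ H.relIndex L := by
    have h1 : H.relIndex L ≠ 1 := by
      rw [Ne, Subgroup.relIndex_eq_one]
      intro h2
      exact ha' (h2 ((le_sup_right : _ ≤ L) (Subgroup.mem_zpowers _)))
    have h2 : H.relIndex L ≠ 0 := Subgroup.FiniteIndex.index_ne_zero
    omega
  have h8 := Subgroup.relIndex_mul_index hle
  have : 2 * 4 ≤ H.relIndex L * L.index := Nat.mul_le_mul hr hLi
  omega

include h in
/-- the weak condition holds for subgroups with less than four elements -/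
theorem stepTwo_of_card (H : Subgroup S.G) (hH : H ≠ ⊤) (hc : Nat.card H < 4) :
    StepTwo S H := by
  obtain ⟨a, ha⟩ : ∃ b : S.G, b ∉ H := by
    by_contra hc'
    push Not at hc'
    exact hH (eq_top_iff.2 fun x _ => hc' x)
  obtain ⟨g, hg, hall⟩ : ∃ g ∈ H, ∀ k ∈ H, k = 1 ∨ k = g := by
    by_contra hcon
    push Not at hcon
    obtain ⟨h1, hh1, h1n, -⟩ := hcon 1 H.one_mem
    obtain ⟨h2, hh2, h2n, h21⟩ := hcon h1 hh1
    have e1 : h1 * h2 ≠ 1 := fun e => h21 (by
      have := congrArg (fun t => h1 * t) e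
      simpa [← mul_assoc, h.exp2] using this)
    have e2 : h1 * h2 ≠ h1 := fun e => h2n (by simpa using e)
    have e3 : h1 * h2 ≠ h2 := fun e => h1n (by simpa using e)
    have hsub : ({1, h1, h2, h1 * h2} : Set S.G) ⊆ (H : Set S.G) := by
      intro x hx
      simp only [Set.mem_insert_iff, Set.mem_singleton_iff] at hx
      rcases hx with rfl | rfl | rfl | rfl
      · exact H.one_mem
      · exact hh1
      · exact hh2
      · exact H.mul_mem hh1 hh2
    have hcard : ({1, h1, h2, h1 * h2} : Set S.G).ncard = 4 := by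
      rw [Set.ncard_insert_of_notMem, Set.ncard_insert_of_notMem, Set.ncard_insert_of_notMem,
        Set.ncard_singleton]
      · simpa using e3.symm
      · simp only [Set.mem_insert_iff, Set.mem_singleton_iff, not_or]
        exact ⟨h21.symm, e2.symm⟩
      · simp only [Set.mem_insert_iff, Set.mem_singleton_iff, not_or]
        exact ⟨h1n.symm, h2n.symm, e1.symm⟩
    have h4 := Set.ncard_le_ncard hsub (Set.toFinite _)
    rw [hcard] at h4
    have h5 : (H : Set S.G).ncard = Nat.card H := rfl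
    omega
  refine ⟨a, ha, g, hg, fun k hk x hx => ?_⟩
  rcases hall k hk with rfl | rfl
  · rw [mul_one] at hx
    exact Or.inl ⟨x, 1, Or.inl hx, H.one_mem, mul_one x⟩
  · exact Or.inl ⟨x, 1, Or.inr hx, H.one_mem, mul_one x⟩

/-- a subgroup not containing a chain subgroup has a good element -/
theorem good_of_chain {L : Subgroup S.G} (hL : Chain S L) (H : Subgroup S.G) (hLH : ¬ L ≤ H) :
    ∃ a : S.G, a ∉ H ∧ ∃ g ∈ H, ∀ h ∈ H, ∀ x y : S.G, S.q a x = S.q h y →
      (∃ k ∈ H, S.q a x = S.q a k) ∨ ∃ z : S.G, S.q a x = S.q g z := by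
  induction hL with
  | bot => exact absurd bot_le hLH
  | step L a _ hg ih =>
    by_cases h1 : L ≤ H
    · have ha : a ∉ H := fun h2 => hLH (sup_le h1 ((Subgroup.zpowers_le).2 h2))
      exact ⟨a, ha, hg H h1 ha⟩
    · exact ih h1

include h in
theorem elem_of_chain {L : Subgroup S.G} (hC : Chain S L) (hi : L.index ≤ 4) : Elem S := by
  refine elem_of_step h fun H hH _ => ?_
  by_cases hLH : L ≤ H
  · refine stepTwo_of_step (step_of_index h H hH ?_)
    have h1 := Subgroup.index_dvd_of_le hLH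
    have h2 : L.index ≠ 0 := Subgroup.FiniteIndex.index_ne_zero
    have h3 := Nat.le_of_dvd (Nat.pos_of_ne_zero h2) h1
    omega
  obtain ⟨a, ha, g, hg, hM⟩ := good_of_chain hC H hLH
  refine ⟨a, ha, g, hg, fun k hk x hx => ?_⟩
  rcases hM k hk x x ((q_eq_iff h _ _ _).2 hx) with ⟨l, hl, e⟩ | ⟨z, e⟩
  · left
    exact ⟨x * l, l, Or.inl ((h.qs3 _ _ _).1 e), hl, by rw [mul_assoc, h.exp2, mul_one]⟩
  · right
    obtain ⟨y, e1, e2⟩ := link h e
    exact ⟨x * y, y, (h.qs3 _ _ _).1 e1, e2, by rw [mul_assoc, h.exp2, mul_one]⟩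

end suff

end Pool.Agent.TH673.VG
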