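import Pool.Agent.TH188.ET.Struct

/-! The core of a field: definitions. -/

set_option autoImplicit false

namespace Pool.Agent.TH673.VG

open Pool.Agent.TH188.ET

variable {F : Type*} [Field F]

/-- `N(a)`: the group of the nonzero values of the form `x² - a y²` -/
def normGroup (a : Fˣ) : Subgroup Fˣ where
  carrier := {c | ∃ x y : F, (c : F) = x ^ 2 - a * y ^ 2}
  one_mem' := NormFrom.one a
  mul_mem' := NormFrom.mul
  inv_mem' := NormFrom.inv

/-- the subgroup `L` of `F*` contains every `a` such that `N(a)` has index at most two in `F*`,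
and every `a` such that `N(a) L = F*` -/
def NormClosed (L : Subgroup Fˣ) : Prop :=
  (∀ a : Fˣ, (normGroup a).index ≤ 2 → a ∈ L) ∧ (∀ a : Fˣ, normGroup a ⊔ L = ⊤ → a ∈ L)

/-- the core of `F`: the intersection of all closed subgroups of `F*` (it is the smallest closed
subgroup) -/
def fieldCore (F : Type*) [Field F] : Subgroup Fˣ := sInf {L : Subgroup Fˣ | NormClosed L}

end Pool.Agent.TH673.VG
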