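import Pool.Agent.TH673.VG.FieldDefs
import Pool.Agent.TH673.VG.CoreInd

/-! The core of a field and the core of its quaternionic structure. -/

set_option autoImplicit false

namespace Pool.Agent.TH673.VG

open Pool.Agent.TH188.ET Pool.Agent.H315R3.ETC

section
variable {F : Type*} [Field F]

lemma mem_normGroup {a c : Fˣ} : c ∈ normGroup a ↔ NormFrom a c := Iff.rfl

variable {S : QData} {φ : Fˣ →* S.G}

lemma index_two_iff (hs : Function.Surjective φ)
    (hk : ∀ a : Fˣ, φ a = 1 ↔ ∃ b : Fˣ, a = b ^ 2) (hfin : Finite S.G)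
    (hz : ∀ a b : Fˣ, S.q (φ a) (φ b) = S.zero ↔ NormFrom a b) (a : Fˣ) :
    (normGroup a).index ≤ 2 ↔ IndexTwo S (φ a) := by
  have hle : φ.ker ≤ normGroup a := by
    intro b hb
    obtain ⟨c, rfl⟩ := (hk b).1 hb
    exact NormFrom.sq a c
  have h0 : (normGroup a).index ≠ 0 := by
    intro h
    have h1 : φ.ker.index ≠ 0 := by
      have := Finite.of_equiv _ (QuotientGroup.quotientKerEquivOfSurjective φ hs).symm.toEquiv
      exact Subgroup.index_ne_zero_of_finite
    exact h1 (Nat.eq_zero_of_zero_dvd (h ▸ Subgroup.index_dvd_of_le hle))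
  constructor
  · intro hi
    have key : ∀ x y : Fˣ, NormFrom a x ∨ NormFrom a y ∨ NormFrom a (x * y) := by
      intro x y
      have h3 : (normGroup a).index = 1 ∨ (normGroup a).index = 2 := by omega
      rcases h3 with h3 | h3
      · refine Or.inl ?_
        have : x ∈ normGroup a := by rw [Subgroup.index_eq_one.1 h3]; trivial
        exact this
      · by_cases hx : x ∈ normGroup a
        · exact Or.inl hx
        by_cases hy : y ∈ normGroup a
        · exact Or.inr (Or.inl hy)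
        · exact Or.inr (Or.inr ((Subgroup.mul_mem_iff_of_index_two h3).2
            ⟨fun h => absurd h hx, fun h => absurd h hy⟩))
    intro x y
    obtain ⟨x, rfl⟩ := hs x
    obtain ⟨y, rfl⟩ := hs y
    rw [← map_mul, hz, hz, hz]
    exact key x y
  · intro h
    by_cases ht : normGroup a = ⊤
    · rw [ht, Subgroup.index_top]; norm_num
    · obtain ⟨t, ht⟩ : ∃ t, t ∉ normGroup a := by
        by_contra hc
        push Not at hc
        exact ht (eq_top_iff.2 fun x _ => hc x)
      have h3 : (normGroup a).index = 2 := by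
        rw [Subgroup.index_eq_two_iff]
        refine ⟨t, fun b => ?_⟩
        have h4 := h (φ b) (φ t)
        rw [← map_mul, hz, hz, hz] at h4
        by_cases hb : b ∈ normGroup a
        · refine Or.inr ⟨hb, fun h5 => ht ?_⟩
          have h6 := (normGroup a).mul_mem ((normGroup a).inv_mem hb) h5
          rwa [inv_mul_cancel_left] at h6
        · refine Or.inl ⟨?_, hb⟩
          rcases h4 with h4 | h4 | h4
          · exact absurd h4 hb
          · exact absurd h4 ht
          · exact h4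
      omega

lemma sup_iff (hs : Function.Surjective φ)
    (hk : ∀ a : Fˣ, φ a = 1 ↔ ∃ b : Fˣ, a = b ^ 2)
    (hz : ∀ a b : Fˣ, S.q (φ a) (φ b) = S.zero ↔ NormFrom a b) (a : Fˣ) (L : Subgroup S.G) :
    normGroup a ⊔ L.comap φ = ⊤ ↔
      ∀ x : S.G, ∃ v k : S.G, S.q (φ a) v = S.zero ∧ k ∈ L ∧ v * k = x := by
  constructor
  · intro h x
    obtain ⟨x, rfl⟩ := hs x
    have hx : x ∈ normGroup a ⊔ L.comap φ := by rw [h]; trivial
    obtain ⟨v, hv, k, hk', e⟩ := Subgroup.mem_sup.1 hx
    exact ⟨φ v, φ k, (hz a v).2 hv, hk', by rw [← map_mul, e]⟩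
  · intro h
    rw [eq_top_iff]
    intro x _
    obtain ⟨v, k, hv, hk', e⟩ := h (φ x)
    obtain ⟨v, rfl⟩ := hs v
    refine Subgroup.mem_sup.2 ⟨v, (hz a v).1 hv, v⁻¹ * x, ?_, mul_inv_cancel_left v x⟩
    have : φ (v⁻¹ * x) = k := by rw [map_mul, map_inv, ← e, inv_mul_cancel_left]
    show φ (v⁻¹ * x) ∈ L
    rw [this]
    exact hk'

lemma core_comap (h2 : (2 : F) ≠ 0) (hs : Function.Surjective φ)
    (hk : ∀ a : Fˣ, φ a = 1 ↔ ∃ b : Fˣ, a = b ^ 2) (hfin : Finite S.G)
    (hz : ∀ a b : Fˣ, S.q (φ a) (φ b) = S.zero ↔ NormFrom a b) :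
    fieldCore F = (Core S).comap φ := by
  have hcl : ∀ L : Subgroup S.G, NormClosed (L.comap φ) ↔ Closed S L := by
    intro L
    constructor
    · rintro ⟨h1, h3⟩
      refine ⟨fun a ha => ?_, fun a ha => ?_⟩
      · obtain ⟨a, rfl⟩ := hs a
        exact h1 a ((index_two_iff hs hk hfin hz a).2 ha)
      · obtain ⟨a, rfl⟩ := hs a
        exact h3 a ((sup_iff hs hk hz a L).2 ha)
    · rintro ⟨h1, h3⟩
      exact ⟨fun a ha => h1 _ ((index_two_iff hs hk hfin hz a).1 ha),
        fun a ha => h3 _ ((sup_iff hs hk hz a L).1 ha)⟩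
  have hker : ∀ L : Subgroup Fˣ, NormClosed L → φ.ker ≤ L := by
    intro L hL b hb
    refine hL.1 b ?_
    have ht : normGroup b = ⊤ := by
      rw [eq_top_iff]
      intro c _
      exact NormFrom.of_sq h2 b c ((hk b).1 hb)
    rw [ht, Subgroup.index_top]
    norm_num
  apply le_antisymm
  · intro x hx
    show φ x ∈ Core S
    rw [Core, Subgroup.mem_sInf]
    intro L hL
    exact Subgroup.mem_sInf.1 hx (L.comap φ) ((hcl L).2 hL)
  · intro x hx
    rw [fieldCore, Subgroup.mem_sInf]
    intro L hL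
    have e : (L.map φ).comap φ = L := Subgroup.comap_map_eq_self (hker L hL)
    have h4 : Closed S (L.map φ) := (hcl _).1 (by rw [e]; exact hL)
    have h5 : φ x ∈ L.map φ := Subgroup.mem_sInf.1 hx (L.map φ) h4
    rw [← e]
    exact h5

lemma core_index (h2 : (2 : F) ≠ 0) (hs : Function.Surjective φ)
    (hk : ∀ a : Fˣ, φ a = 1 ↔ ∃ b : Fˣ, a = b ^ 2) (hfin : Finite S.G)
    (hz : ∀ a b : Fˣ, S.q (φ a) (φ b) = S.zero ↔ NormFrom a b) :
    (fieldCore F).index = (Core S).index := by
  rw [core_comap h2 hs hk hfin hz, Subgroup.index_comap_of_surjective _ hs]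

end

/-- the structure of `F`, its core and the core of `F` -/
theorem field_core {F : Type*} [Field F] (h2 : (2 : F) ≠ 0) (hfin : FinSq F) :
    ∃ S : QData, IsStructureOf F S ∧ Finite S.G ∧ IsQuat S ∧
      (fieldCore F).index = (Core S).index ∧ (fieldCore F = ⊤ ↔ Core S = ⊤) := by
  obtain ⟨S, hS, hSfin, hSq⟩ := exists_structure h2 hfin
  obtain ⟨φ, hs, hk, hn, h0, hq⟩ := id hS
  have hz : ∀ a b : Fˣ, S.q (φ a) (φ b) = S.zero ↔ NormFrom a b := by
    intro a b
    rw [← qiso_one h2, ← h0, ← map_one φ]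
    exact hq a b 1 1
  have hi := core_index h2 hs hk hSfin hz
  exact ⟨S, hS, hSfin, hSq, hi, by rw [← Subgroup.index_eq_one, ← Subgroup.index_eq_one, hi]⟩

end Pool.Agent.TH673.VG
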