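import Pool.Agent.TH673.VG.Crit

/-! Symbols and elements whose value group has index at most four. -/

set_option autoImplicit false

namespace Pool.Agent.TH673.VG

open Pool.Agent.H315R3.ETC

section grp
variable {G : Type*} [CommGroup G]

lemma idx_two_of {N M : Subgroup G} (hNM : N ≤ M) (hM : M ≠ ⊤)
    (hi : N.index ≤ 4) (h0 : N.index ≠ 0) {x y : G} (hx : x ∈ M) (hy : y ∈ M) :
    x ∈ N ∨ y ∈ N ∨ x * y ∈ N := by
  have h1 : N.relIndex M * M.index = N.index := Subgroup.relIndex_mul_index hNM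
  have hM1 : M.index ≠ 1 := fun e => hM (Subgroup.index_eq_one.1 e)
  have hM0 : M.index ≠ 0 := by
    intro e; rw [e, mul_zero] at h1; exact h0 h1.symm
  have hr0 : N.relIndex M ≠ 0 := by
    intro e; rw [e, zero_mul] at h1; exact h0 h1.symm
  have hr : N.relIndex M ≤ 2 := by
    by_contra hc
    have h3 : 3 * 2 ≤ N.relIndex M * M.index := Nat.mul_le_mul (by omega) (by omega)
    omega
  by_cases hxN : x ∈ N
  · exact Or.inl hxN
  by_cases hyN : y ∈ N
  · exact Or.inr (Or.inl hyN)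
  refine Or.inr (Or.inr ?_)
  have h3 : N.relIndex M = 1 ∨ N.relIndex M = 2 := by omega
  rcases h3 with h3 | h3
  · exact absurd ((Subgroup.relIndex_eq_one.1 h3) hx) hxN
  · have h4 : (N.subgroupOf M).index = 2 := h3
    have h5 := Subgroup.mul_mem_iff_of_index_two h4 (a := ⟨x, hx⟩) (b := ⟨y, hy⟩)
    have h6 : (⟨x, hx⟩ : M) * ⟨y, hy⟩ ∈ N.subgroupOf M := h5.2
      ⟨fun e => absurd (Subgroup.mem_subgroupOf.1 e) hxN,
        fun e => absurd (Subgroup.mem_subgroupOf.1 e) hyN⟩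
    exact Subgroup.mem_subgroupOf.1 h6

lemma mem_sup_zp (h2 : ∀ x : G, x * x = 1) {N : Subgroup G} {z x : G}
    (hx : x ∈ N ⊔ Subgroup.zpowers z) : x ∈ N ∨ x * z ∈ N := by
  obtain ⟨y, hy, w, hw, rfl⟩ := Subgroup.mem_sup.1 hx
  have hw' : w = 1 ∨ w = z := by
    obtain ⟨n, rfl⟩ := Subgroup.mem_zpowers_iff.1 hw
    rcases Int.even_or_odd' n with ⟨m, rfl | rfl⟩
    · left
      rw [zpow_mul, zpow_two, h2, one_zpow]
    · right
      rw [zpow_add, zpow_mul, zpow_two, h2, one_zpow, one_mul, zpow_one]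
  rcases hw' with rfl | rfl
  · left; rwa [mul_one]
  · right; rwa [mul_assoc, h2, mul_one]

/-- index at most four: the cosets -/
lemma cover_four (h2 : ∀ x : G, x * x = 1) {N : Subgroup G} (hi : N.index ≤ 4)
    (h0 : N.index ≠ 0) {z1 z2 : G} (hz1 : z1 ∉ N) (hz2 : z2 ∉ N) (h12 : z1 * z2 ∉ N) (x : G) :
    x ∈ N ∨ x * z1 ∈ N ∨ x * z2 ∈ N ∨ x * (z1 * z2) ∈ N := by
  set M := N ⊔ Subgroup.zpowers z1 with hMdef
  have hNM : N ≤ M := le_sup_left
  have hz1M : z1 ∈ M := (le_sup_right : _ ≤ M) (Subgroup.mem_zpowers z1)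
  have h1 : N.relIndex M * M.index = N.index := Subgroup.relIndex_mul_index hNM
  have hr1 : N.relIndex M ≠ 1 := fun e => hz1 ((Subgroup.relIndex_eq_one.1 e) hz1M)
  have hr0 : N.relIndex M ≠ 0 := by
    intro e; rw [e, zero_mul] at h1; exact h0 h1.symm
  have hM0 : M.index ≠ 0 := by
    intro e; rw [e, mul_zero] at h1; exact h0 h1.symm
  have hr : M.index ≤ 2 := by
    by_contra hc
    have h3 : 2 * 3 ≤ N.relIndex M * M.index := Nat.mul_le_mul (by omega) (by omega)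
    omega
  have hM : ∀ y, y ∈ M → y ∈ N ∨ y * z1 ∈ N := fun y hy => mem_sup_zp h2 hy
  by_cases hx : x ∈ M
  · rcases hM x hx with h | h
    · exact Or.inl h
    · exact Or.inr (Or.inl h)
  have hz2M : z2 ∉ M := by
    intro h
    rcases hM z2 h with h | h
    · exact hz2 h
    · exact h12 (by rwa [mul_comm])
  have h3 : M.index = 1 ∨ M.index = 2 := by omega
  rcases h3 with h3 | h3
  · exact absurd (by rw [Subgroup.index_eq_one.1 h3]; trivial) hx
  · have h5 : x * z2 ∈ M := (Subgroup.mul_mem_iff_of_index_two h3).2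
      ⟨fun e => absurd e hx, fun e => absurd e hz2M⟩
    rcases hM _ h5 with h | h
    · exact Or.inr (Or.inr (Or.inl h))
    · refine Or.inr (Or.inr (Or.inr ?_))
      rwa [mul_comm z1, ← mul_assoc]

end grp

variable {S : QData} (h : IsQuat S)

include h in
lemma hom_one (N : Subgroup S.G) {z : S.G} (hz : z ∉ N) (e : ZMod 2) :
    ∃ f : S.G → ZMod 2, (∀ x y, f (x * y) = f x + f y) ∧ (∀ n ∈ N, f n = 0) ∧ f z = e := by
  classical
  have hz1 : z ≠ 1 := fun e => hz (e ▸ N.one_mem)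
  have hmem : ∀ k ∈ Subgroup.zpowers z, k = 1 ∨ k = z := by
    intro k hk
    have h1 := mem_sup_zp h.exp2 (N := (⊥ : Subgroup S.G)) (z := z) (x := k)
      ((le_sup_right : _ ≤ (⊥ : Subgroup S.G) ⊔ Subgroup.zpowers z) hk)
    rcases h1 with h1 | h1
    · exact Or.inl (Subgroup.mem_bot.1 h1)
    · exact Or.inr (eq_of_mul h _ _ (Subgroup.mem_bot.1 h1))
  obtain ⟨f, h1, h2, h3⟩ := hom_glue h N (Subgroup.zpowers z) (fun k => if k = 1 then 0 else e)
    (fun k hk k' hk' => by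
      have h22 : ∀ u : ZMod 2, u + u = 0 := by decide
      rcases hmem k hk with rfl | rfl <;> rcases hmem k' hk' with rfl | rfl
      · simp
      · simp [hz1]
      · simp [hz1]
      · simp [hz1, h.exp2, h22])
    (fun k hk hkN => by
      rcases hmem k hk with rfl | rfl
      · simp
      · exact absurd hkN hz)
  refine ⟨f, h1, h2, ?_⟩
  rw [h3 z (Subgroup.mem_zpowers z)]
  exact if_neg hz1

/-- three elements which obstruct the extension of `χ` over `p` -/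
def Tri (H : Subgroup S.G) (χ : S.G → S.G → ZMod 2) (p g1 g2 g3 z1 z2 z3 : S.G) : Prop :=
  g1 ∈ H ∧ g2 ∈ H ∧ g3 ∈ H ∧ z1 ∈ D h (p * g1) ∧ z2 ∈ D h (p * g2) ∧ z3 ∈ D h (p * g3) ∧
    z1 * z2 * z3 ∈ D h p ∧ χ g1 z1 + χ g2 z2 + χ g3 z3 = 1

variable {H : Subgroup S.G} {χ : S.G → S.G → ZMod 2}

/-- there is no extension over `p` -/
def NE (H : Subgroup S.G) (χ : S.G → S.G → ZMod 2) (p : S.G) : Prop :=
  ¬ ∃ χ' : S.G → S.G → ZMod 2, Sy S (H ⊔ Subgroup.zpowers p) χ' ∧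
    ∀ x ∈ H, ∀ b, χ' x b = χ x b

lemma ne_sup (hχ : Sy S H χ) {p : S.G} (hp : p ∉ H) (hne : NE H χ p) {c : S.G} (hc : c ∈ H) :
    D h p ⊔ D h (p * c) ≠ ⊤ := by
  intro htop
  refine hne (extend_one h H χ hχ p hp c hc fun g _ x _ => Or.inr ?_)
  have hx : x ∈ D h p ⊔ D h (p * c) := by rw [htop]; trivial
  obtain ⟨v, hv, w, hw, e⟩ := Subgroup.mem_sup.1 hx
  exact ⟨v, w, hv, hw, e⟩

lemma chi_zero (hχ : Sy S H χ) {p g b : S.G} (hg : g ∈ H) (h1 : b ∈ D h (p * g))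
    (h3 : b ∈ D h p) : χ g b = 0 := by
  refine hχ.2.2 g hg b ?_
  rw [← (q_eq_iff h p g b).2 h1]
  exact h3

lemma chi_eq (hχ : Sy S H χ) {p g b g' b' : S.G} (hg : g ∈ H) (hg' : g' ∈ H)
    (h1 : b ∈ D h (p * g)) (h3 : b' ∈ D h (p * g')) (h4 : b * b' ∈ D h p) : χ g b = χ g' b' := by
  refine sy_eq h hχ hg hg' ?_
  rw [← (q_eq_iff h p g b).2 h1, ← (q_eq_iff h p g' b').2 h3]
  exact (q_eq_iff' h p b b').2 h4

lemma exists_tri (hχ : Sy S H χ) {p : S.G} (hp : p ∉ H) (hne : NE H χ p)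
    (hi : (D h p).index ≤ 4) (h0 : (D h p).index ≠ 0) :
    ∃ g1 g2 g3 z1 z2 z3, Tri h H χ p g1 g2 g3 z1 z2 z3 := by
  classical
  by_contra hcon
  have hcon' : ∀ g1 g2 g3 z1 z2 z3, ¬ Tri h H χ p g1 g2 g3 z1 z2 z3 := by
    intro g1 g2 g3 z1 z2 z3 ht
    exact hcon ⟨g1, g2, g3, z1, z2, z3, ht⟩
  have e01 : ∀ u : ZMod 2, u ≠ 1 → u = 0 := by decide
  have h22 : ∀ u : ZMod 2, u + u = 0 := by decide
  by_cases hA : ∃ g1 ∈ H, ∃ z1, z1 ∈ D h (p * g1) ∧ z1 ∉ D h p
  swap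
  · push Not at hA
    refine hne (extend_of_hom h H χ hχ p hp (fun _ => 0) (fun _ _ => by simp) ?_)
    intro g hg b hb
    exact (chi_zero h hχ hg hb (hA g hg b hb)).symm
  obtain ⟨g1, hg1, z1, hz1, n1⟩ := hA
  by_cases hB : ∃ g2 ∈ H, ∃ z2, z2 ∈ D h (p * g2) ∧ z2 ∉ D h p ∧ z1 * z2 ∉ D h p
  swap
  · push Not at hB
    refine hne (extend_one h H χ hχ p hp g1 hg1 fun g hg x hx => Or.inr ?_)
    by_cases hxp : x ∈ D h p
    · exact ⟨x, 1, hxp, (D h (p * g1)).one_mem, mul_one x⟩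
    · refine ⟨x * z1, z1, ?_, hz1, by rw [mul_assoc, h.exp2, mul_one]⟩
      have := hB g hg x hx hxp
      rwa [mul_comm] at this
  obtain ⟨g2, hg2, z2, hz2, n2, n12⟩ := hB
  have hcov := cover_four h.exp2 hi h0 n1 n2 n12
  have m1 : z1 ∉ D h p ⊔ Subgroup.zpowers z2 := by
    intro hm
    rcases mem_sup_zp h.exp2 hm with h1 | h1
    · exact n1 h1
    · exact n12 h1
  have m2 : z2 ∉ D h p ⊔ Subgroup.zpowers z1 := by
    intro hm
    rcases mem_sup_zp h.exp2 hm with h1 | h1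
    · exact n2 h1
    · exact n12 (by rwa [mul_comm] at h1)
  obtain ⟨f1, a1, b1, c1⟩ := hom_one h _ m1 (χ g1 z1)
  obtain ⟨f2, a2, b2, c2⟩ := hom_one h _ m2 (χ g2 z2)
  have v1 : f1 z2 = 0 := b1 _ ((le_sup_right : _ ≤ D h p ⊔ Subgroup.zpowers z2)
    (Subgroup.mem_zpowers z2))
  have v2 : f2 z1 = 0 := b2 _ ((le_sup_right : _ ≤ D h p ⊔ Subgroup.zpowers z1)
    (Subgroup.mem_zpowers z1))
  have w1 : ∀ v ∈ D h p, f1 v = 0 := fun v hv => b1 _ (Subgroup.mem_sup_left hv)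
  have w2 : ∀ v ∈ D h p, f2 v = 0 := fun v hv => b2 _ (Subgroup.mem_sup_left hv)
  have hf : ∀ b u, b * u ∈ D h p → f1 b + f2 b = f1 u + f2 u := by
    intro b u hbu
    have e1 := w1 _ hbu
    have e2 := w2 _ hbu
    rw [a1] at e1
    rw [a2] at e2
    have e02 : ∀ s t : ZMod 2, s + t = 0 → s = t := by decide
    rw [e02 _ _ e1, e02 _ _ e2]
  refine hne (extend_of_hom h H χ hχ p hp (fun x => f1 x + f2 x) ?_ ?_)
  · intro x y
    show f1 (x * y) + f2 (x * y) = (f1 x + f2 x) + (f1 y + f2 y)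
    rw [a1, a2]; ring
  · intro g hg b hb
    show f1 b + f2 b = χ g b
    rcases hcov b with hb1 | hb1 | hb1 | hb1
    · rw [w1 b hb1, w2 b hb1, chi_zero h hχ hg hb hb1, add_zero]
    · rw [hf b z1 hb1, c1, v2, add_zero]
      exact (chi_eq h hχ hg hg1 hb hz1 hb1).symm
    · rw [hf b z2 hb1, c2, v1, zero_add]
      exact (chi_eq h hχ hg hg2 hb hz2 hb1).symm
    · rw [hf b (z1 * z2) hb1, a1, a2, c1, c2, v1, v2, add_zero, zero_add]
      have h3 := e01 _ (fun h1 => hcon' g1 g2 g z1 z2 b ⟨hg1, hg2, hg, hz1, hz2, hb, by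
        rwa [mul_comm] at hb1, h1⟩)
      linear_combination h3 - h22 (χ g b)

lemma Tri.rot {p g1 g2 g3 z1 z2 z3 : S.G} (ht : Tri h H χ p g1 g2 g3 z1 z2 z3) :
    Tri h H χ p g2 g3 g1 z2 z3 z1 := by
  obtain ⟨a, b, c, d, e, f, g, i⟩ := ht
  refine ⟨b, c, a, e, f, d, ?_, ?_⟩
  · have : z2 * z3 * z1 = z1 * z2 * z3 := by rw [mul_comm, ← mul_assoc]
    rwa [this]
  · rw [← i]; ring

/-- three terms with product one -/
lemma three_terms (hχ : Sy S H χ) {p g1 g2 g3 z1 z2 z3 : S.G} (hg1 : g1 ∈ H) (hg2 : g2 ∈ H)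
    (hg3 : g3 ∈ H) (h1 : z1 ∈ D h (p * g1)) (h2 : z2 ∈ D h (p * g2)) (h3 : z3 ∈ D h (p * g3))
    (e : z1 * z2 * z3 = 1) : χ g1 z1 + χ g2 z2 + χ g3 z3 = 0 := by
  have e3 : z3 = z1 * z2 := (eq_of_mul h _ _ e).symm
  subst e3
  have k1 : S.q (g1 * g3) z1 = S.q (p * g3) z1 := by
    rw [q_eq_iff h]
    have : g1 * g3 * (p * g3) = p * g1 := by
      rw [mul_mul_mul_comm, h.exp2, mul_one, mul_comm]
    rwa [this]
  have k2 : S.q (g2 * g3) z2 = S.q (p * g3) z2 := by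
    rw [q_eq_iff h]
    have : g2 * g3 * (p * g3) = p * g2 := by
      rw [mul_mul_mul_comm, h.exp2, mul_one, mul_comm]
    rwa [this]
  have k3 : S.q (p * g3) z1 = S.q (p * g3) z2 := (q_eq_iff' h _ _ _).2 h3
  have k4 := sy_eq h hχ (H.mul_mem hg1 hg3) (H.mul_mem hg2 hg3) (k1.trans (k3.trans k2.symm))
  obtain ⟨c1, c2, -⟩ := hχ
  rw [c1 _ hg1 _ hg3, c1 _ hg2 _ hg3] at k4
  have h22 : ∀ u : ZMod 2, u + u = 0 := by decide
  rw [c2 _ hg3]
  linear_combination k4 + h22 (χ g2 z2) + h22 (χ g3 z2)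

/-- no decomposition of the fourth term -/
lemma no_dec (hχ : Sy S H χ) {p g1 g2 g3 z1 z2 z3 : S.G} (ht : Tri h H χ p g1 g2 g3 z1 z2 z3)
    {w1 w2 w3 : S.G} (h1 : w1 ∈ D h p) (h1' : w1 ∈ D h (p * g1)) (h2 : w2 ∈ D h p)
    (h2' : w2 ∈ D h (p * g2)) (h3 : w3 ∈ D h p) (h3' : w3 ∈ D h (p * g3)) :
    z1 * z2 * z3 ≠ w1 * w2 * w3 := by
  intro e
  obtain ⟨a, b, c, d, e', f, g, i⟩ := ht
  have k := three_terms h hχ a b c ((D h _).mul_mem d h1') ((D h _).mul_mem e' h2')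
    ((D h _).mul_mem f h3') (by
      have : z1 * w1 * (z2 * w2) * (z3 * w3) = (z1 * z2 * z3) * (w1 * w2 * w3) := by
        simp only [mul_assoc, mul_left_comm, mul_comm]
      rw [this, e, h.exp2])
  have x1 := chi_zero h hχ a h1' h1
  have x2 := chi_zero h hχ b h2' h2
  have x3 := chi_zero h hχ c h3' h3
  have c2 := hχ.2.1
  rw [c2 _ a, c2 _ b, c2 _ c, x1, x2, x3, add_zero, add_zero, add_zero, i] at k
  exact absurd k (by decide)

/-- everything outside `H` has a value group of index at most four, and `χ` extends over nothing -/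
structure Bad (H : Subgroup S.G) (χ : S.G → S.G → ZMod 2) : Prop where
  sy : Sy S H χ
  ne : ∀ p, p ∉ H → NE H χ p
  idx : ∀ p, p ∉ H → (D h p).index ≤ 4
  idx0 : ∀ p, p ∉ H → (D h p).index ≠ 0

lemma out {p g : S.G} (hp : p ∉ H) (hg : g ∈ H) : p * g ∉ H := fun e => hp (by
  have := H.mul_mem e (H.inv_mem hg)
  rwa [mul_inv_cancel_right] at this)

/-- the dichotomy in `V(p)` -/
lemma dich (hb : Bad h H χ) {p g x y : S.G} (hp : p ∉ H) (hg : g ∈ H) (hx : x ∈ D h p)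
    (hy : y ∈ D h p) : x ∈ D h (p * g) ∨ y ∈ D h (p * g) ∨ x * y ∈ D h (p * g) := by
  have h1 := ne_sup h hb.sy hp (hb.ne p hp) hg
  exact idx_two_of (N := D h (p * g)) (M := D h p ⊔ D h (p * g)) le_sup_right h1
    (hb.idx _ (out hp hg)) (hb.idx0 _ (out hp hg)) (Subgroup.mem_sup_left hx)
    (Subgroup.mem_sup_left hy)

section
variable {p g1 g2 g3 z1 z2 z3 : S.G}

lemma v_not (hb : Bad h H χ) (ht : Tri h H χ p g1 g2 g3 z1 z2 z3) :
    z1 * z2 * z3 ∉ D h (p * g1) := by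
  intro hv
  exact no_dec h hb.sy ht ht.2.2.2.2.2.2.1 hv (D h p).one_mem (D h _).one_mem (D h p).one_mem
    (D h _).one_mem (by rw [mul_one, mul_one])

lemma w_imp (hb : Bad h H χ) (hp : p ∉ H) (ht : Tri h H χ p g1 g2 g3 z1 z2 z3) {w : S.G}
    (hw : w ∈ D h p) (hw1 : w ∈ D h (p * g1)) : w ∈ D h (p * g2) := by
  by_contra hw2
  have hv := v_not h hb (ht.rot h)
  have hv' : z1 * z2 * z3 ∉ D h (p * g2) := by
    have : z1 * z2 * z3 = z2 * z3 * z1 := by rw [mul_comm (z2 * z3), ← mul_assoc]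
    rwa [this]
  have hvp : z1 * z2 * z3 ∈ D h p := ht.2.2.2.2.2.2.1
  rcases dich h hb hp ht.2.1 hw hvp with h1 | h1 | h1
  · exact hw2 h1
  · exact hv' h1
  · refine no_dec h hb.sy ht hw hw1 ((D h p).mul_mem hw hvp) h1 (D h p).one_mem
      (D h _).one_mem ?_
    rw [mul_one, ← mul_assoc, h.exp2, one_mul]

/-- the sets `V(p) ∩ V(p g_i)` are equal -/
lemma w_all (hb : Bad h H χ) (hp : p ∉ H) (ht : Tri h H χ p g1 g2 g3 z1 z2 z3) {w : S.G}
    (hw : w ∈ D h p) (hw1 : w ∈ D h (p * g1)) : w ∈ D h (p * g2) ∧ w ∈ D h (p * g3) := by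
  have h2 := w_imp h hb hp ht hw hw1
  exact ⟨h2, w_imp h hb hp (ht.rot h) hw h2⟩

lemma z_not (hb : Bad h H χ) (ht : Tri h H χ p g1 g2 g3 z1 z2 z3) : z1 ∉ D h p := by
  intro h1
  obtain ⟨a, b, c, d, e, f, g, i⟩ := ht
  have x1 := chi_zero h hb.sy a d h1
  have h2 : z2 * z3 ∈ D h p := by
    have := (D h p).mul_mem h1 g
    rwa [mul_assoc z1, ← mul_assoc z1, h.exp2, one_mul] at this
  have x2 := chi_eq h hb.sy b c e f h2
  rw [x1, x2, zero_add] at i
  have h22 : ∀ u : ZMod 2, u + u ≠ 1 := by decide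
  exact h22 _ i

lemma z12_not (hb : Bad h H χ) (ht : Tri h H χ p g1 g2 g3 z1 z2 z3) : z1 * z2 ∉ D h p := by
  intro h1
  refine z_not h hb ((ht.rot h).rot h) ?_
  have := (D h p).mul_mem h1 ht.2.2.2.2.2.2.1
  rwa [← mul_assoc, h.exp2, one_mul] at this

lemma z_cover (hb : Bad h H χ) (hp : p ∉ H) (ht : Tri h H χ p g1 g2 g3 z1 z2 z3) (x : S.G) :
    x ∈ D h p ∨ x * z1 ∈ D h p ∨ x * z2 ∈ D h p ∨ x * z3 ∈ D h p := by
  rcases cover_four h.exp2 (hb.idx p hp) (hb.idx0 p hp) (z_not h hb ht)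
    (z_not h hb (ht.rot h)) (z12_not h hb ht) x with h1 | h1 | h1 | h1
  · exact Or.inl h1
  · exact Or.inr (Or.inl h1)
  · exact Or.inr (Or.inr (Or.inl h1))
  · refine Or.inr (Or.inr (Or.inr ?_))
    have := (D h p).mul_mem h1 ht.2.2.2.2.2.2.1
    have e : x * (z1 * z2) * (z1 * z2 * z3) = x * z3 := by
      rw [mul_assoc, ← mul_assoc (z1 * z2), h.exp2, one_mul]
    rwa [e] at this

/-- replacing the first element -/
lemma Tri.repl (hb : Bad h H χ) (ht : Tri h H χ p g1 g2 g3 z1 z2 z3) {g z : S.G} (hg : g ∈ H)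
    (hz : z ∈ D h (p * g)) (hzz : z * z1 ∈ D h p) : Tri h H χ p g g2 g3 z z2 z3 := by
  obtain ⟨a, b, c, d, e, f, k, i⟩ := ht
  refine ⟨hg, b, c, hz, e, f, ?_, ?_⟩
  · have := (D h p).mul_mem hzz k
    have e1 : z * z1 * (z1 * z2 * z3) = z * z2 * z3 := by
      rw [mul_assoc z, mul_assoc z1, ← mul_assoc z1, h.exp2, one_mul, mul_assoc]
    rwa [e1] at this
  · rw [chi_eq h hb.sy hg a hz d hzz]
    exact i

lemma index_three (hb : Bad h H χ) (hp : p ∉ H) (ht : Tri h H χ p g1 g2 g3 z1 z2 z3) :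
    3 ≤ (D h p).index := by
  have h0 := hb.idx0 p hp
  by_contra hc
  have h3 : (D h p).index = 1 ∨ (D h p).index = 2 := by omega
  rcases h3 with h3 | h3
  · exact z_not h hb ht (by rw [Subgroup.index_eq_one.1 h3]; trivial)
  · exact z12_not h hb ht ((Subgroup.mul_mem_iff_of_index_two h3).2
      ⟨fun e => absurd e (z_not h hb ht), fun e => absurd e (z_not h hb (ht.rot h))⟩)

/-- `V(p) ∩ V(p g_1)` is contained in `V(g)` for all `g ∈ H` -/
lemma w_H (hb : Bad h H χ) (hp : p ∉ H) (ht : Tri h H χ p g1 g2 g3 z1 z2 z3) {w g : S.G}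
    (hw : w ∈ D h p) (hw1 : w ∈ D h (p * g1)) (hg : g ∈ H) : w ∈ D h (p * g) := by
  by_contra hwg
  by_cases hle : D h (p * g) ≤ D h p
  · have h1 : (D h (p * g)).relIndex (D h p) * (D h p).index = (D h (p * g)).index :=
      Subgroup.relIndex_mul_index hle
    have h2 := index_three h hb hp ht
    have h3 := hb.idx _ (out hp hg)
    have h4 := hb.idx0 _ (out hp hg)
    have h5 : (D h (p * g)).relIndex (D h p) ≠ 1 := fun e =>
      hwg ((Subgroup.relIndex_eq_one.1 e) hw)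
    have h6 : (D h (p * g)).relIndex (D h p) ≠ 0 := by
      intro e; rw [e, zero_mul] at h1; exact h4 h1.symm
    have h7 : 2 * 3 ≤ (D h (p * g)).relIndex (D h p) * (D h p).index :=
      Nat.mul_le_mul (by omega) h2
    omega
  · obtain ⟨z, hz, hzp⟩ := SetLike.not_le_iff_exists.1 hle
    obtain ⟨w2, w3⟩ := w_all h hb hp ht hw hw1
    rcases z_cover h hb hp ht z with h1 | h1 | h1 | h1
    · exact hzp h1
    · have ht' := ht.repl h hb hg hz h1
      exact hwg (w_all h hb hp (ht'.rot h) hw w2).2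
    · have ht' := (ht.rot h).repl h hb hg hz h1
      exact hwg (w_all h hb hp (ht'.rot h) hw w3).2
    · have ht' := ((ht.rot h).rot h).repl h hb hg hz h1
      exact hwg (w_all h hb hp (ht'.rot h) hw hw1).2

lemma perp_aux (hb : Bad h H χ) (hp : p ∉ H) (ht : Tri h H χ p g1 g2 g3 z1 z2 z3) {u : S.G}
    (hu : ∀ g ∈ H, S.q g u = S.zero) : u * z1 ∉ D h p := by
  intro h1
  obtain ⟨a, b, c, d, e, f, k, i⟩ := id ht
  by_cases h2 : u * z1 ∈ D h (p * g1)
  · have h3 : S.q g1 (u * z1) = S.zero := by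
      rw [← (q_eq_iff h p g1 _).2 h2]; exact h1
    have h4 : S.q g1 z1 = S.zero := by
      rw [← h3, q_shift h _ (hu g1 a)]
    refine z_not h hb ht ?_
    rw [mem_D, (q_eq_iff h p g1 z1).2 d, h4]
  · rcases dich h hb hp a h1 k with h3 | h3 | h3
    · exact h2 h3
    · exact v_not h hb ht h3
    · have e1 : u * z1 * (z1 * z2 * z3) = u * z2 * z3 := by
        rw [mul_assoc u, mul_assoc z1, ← mul_assoc z1, h.exp2, one_mul, mul_assoc]
      have h4 : u * z2 * z3 ∈ D h p := by rw [← e1]; exact (D h p).mul_mem h1 k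
      rw [e1] at h3
      have h5 := (w_all h hb hp ht h4 h3).2
      have h6 : S.q g3 (u * z2 * z3) = S.zero := by
        rw [← (q_eq_iff h p g3 _).2 h5]; exact h4
      -- `χ(g3, z3) = χ(g3, z2)`
      have h7 : χ g3 z3 = χ g3 z2 := by
        refine sy_eq h hb.sy c c ?_
        rw [q_eq_iff' h, mem_D]
        have : z3 * z2 = u * (u * z2 * z3) := by
          rw [mul_assoc u, ← mul_assoc u, h.exp2, one_mul, mul_comm]
        rw [this, q_shift h _ (hu g3 c)]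
        exact h6
      have k1 : S.q (g2 * g3) z2 = S.q (p * g3) z2 := by
        rw [q_eq_iff h]
        have : g2 * g3 * (p * g3) = p * g2 := by
          rw [mul_mul_mul_comm, h.exp2, mul_one, mul_comm]
        rwa [this]
      have k2 : S.q (p * g3) z2 = S.q (p * g3) u := by
        rw [q_eq_iff' h]
        have : z2 * u = z3 * (u * z2 * z3) := by
          rw [mul_comm z3, mul_assoc _ z3, h.exp2, mul_one, mul_comm]
        rw [this]
        exact (D h _).mul_mem f h5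
      have k3 : S.q (p * g3) u = S.q p u := by
        rw [q_eq_iff h, mul_comm p, mul_assoc, h.exp2, mul_one]
        exact hu g3 c
      have k4 : S.q g1 z1 = S.q p u := by
        rw [← (q_eq_iff h p g1 z1).2 d, q_eq_iff' h, mul_comm]
        exact h1
      have k5 := sy_eq h hb.sy a (H.mul_mem b c) (k4.trans (k3.symm.trans (k2.symm.trans k1.symm)))
      rw [hb.sy.1 _ b _ c] at k5
      rw [h7, k5] at i
      have h22 : ∀ s t : ZMod 2, s + t + s + t ≠ 1 := by decide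
      exact h22 _ _ i

/-- what is orthogonal to `H` is orthogonal to `p` -/
lemma perp (hb : Bad h H χ) (hp : p ∉ H) {u : S.G} (hu : ∀ g ∈ H, S.q g u = S.zero) :
    S.q p u = S.zero := by
  obtain ⟨g1, g2, g3, z1, z2, z3, ht⟩ := exists_tri h hb.sy hp (hb.ne p hp) (hb.idx p hp)
    (hb.idx0 p hp)
  rcases z_cover h hb hp ht u with h1 | h1 | h1 | h1
  · exact h1
  · exact absurd h1 (perp_aux h hb hp ht hu)
  · exact absurd h1 (perp_aux h hb hp (ht.rot h) hu)
  · exact absurd h1 (perp_aux h hb hp ((ht.rot h).rot h) hu)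

end

/-- bad subgroups have index at most four -/
lemma bad_index (hb : Bad h H χ) (hH : H ≠ ⊤) (hI : ∀ a, IndexTwo S a → a ∈ H) :
    H.index ≤ 4 := by
  obtain ⟨p, hp⟩ : ∃ p, p ∉ H := by
    by_contra hc
    push Not at hc
    exact hH (eq_top_iff.2 fun x _ => hc x)
  obtain ⟨g1, g2, g3, z1, z2, z3, ht⟩ := exists_tri h hb.sy hp (hb.ne p hp) (hb.idx p hp)
    (hb.idx0 p hp)
  set W := D h p ⊓ D h (p * g1) with hW
  have hrad : ∀ w ∈ W, ∀ x, S.q x w = S.zero := by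
    intro w hw
    have hwH : ∀ g ∈ H, S.q g w = S.zero := by
      intro g hg
      rw [← (q_eq_iff h p g w).2 (w_H h hb hp ht hw.1 hw.2 hg)]
      exact hw.1
    intro x
    by_cases hx : x ∈ H
    · exact hwH x hx
    · exact perp h hb hx hwH
  have hWH : W ≤ H := by
    intro w hw
    refine hI w fun x y => Or.inl ?_
    rw [h.qs2]
    exact hrad w hw x
  have hg1 : g1 ∉ W := by
    intro hg
    have h1 := hrad g1 hg z1
    rw [h.qs2] at h1
    refine z_not h hb ht ?_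
    rw [mem_D, (q_eq_iff h p g1 z1).2 ht.2.2.2.1, h1]
  have e1 : W.relIndex (D h p) * (D h p).index = W.index := Subgroup.relIndex_mul_index inf_le_left
  have e2 : W.relIndex H * H.index = W.index := Subgroup.relIndex_mul_index hWH
  have e3 : W.relIndex (D h p) ≤ 2 := by
    by_contra hc
    have hne : W.relIndex (D h p) ≠ 1 := by omega
    by_cases hex : ∃ y ∈ D h p, y ∉ D h (p * g1)
    · obtain ⟨y, hy, hy'⟩ := hex
      have h3 : (W.subgroupOf (D h p)).index = 2 := by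
        rw [Subgroup.index_eq_two_iff]
        refine ⟨⟨y, hy⟩, fun b => ?_⟩
        have h4 := dich h hb hp ht.1 b.2 hy
        by_cases hbm : (b : S.G) ∈ D h (p * g1)
        · refine Or.inr ⟨Subgroup.mem_subgroupOf.2 ⟨b.2, hbm⟩, fun h5 => hy' ?_⟩
          have h6 : (b : S.G) * y ∈ D h (p * g1) := (Subgroup.mem_subgroupOf.1 h5).2
          have h7 := (D h (p * g1)).mul_mem ((D h (p * g1)).inv_mem hbm) h6
          rwa [inv_mul_cancel_left] at h7
        · refine Or.inl ⟨?_, fun h5 => hbm (Subgroup.mem_subgroupOf.1 h5).2⟩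
          rcases h4 with h4 | h4 | h4
          · exact absurd h4 hbm
          · exact absurd h4 hy'
          · exact Subgroup.mem_subgroupOf.2 ⟨(D h p).mul_mem b.2 hy, h4⟩
      have h8 : W.relIndex (D h p) = 2 := h3
      omega
    · push Not at hex
      exact hne (Subgroup.relIndex_eq_one.2 fun y hy => ⟨hy, hex y hy⟩)
  have e4 := hb.idx p hp
  have e5 : W.index ≤ 8 := by
    rw [← e1]
    exact (Nat.mul_le_mul e3 e4).trans (by norm_num)
  have e6 : W.relIndex H ≠ 1 := fun e => hg1 ((Subgroup.relIndex_eq_one.1 e) ht.1)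
  have e7 : W.relIndex H ≠ 0 := by
    intro e
    rw [e, zero_mul, ← e1] at e2
    rcases Nat.mul_eq_zero.1 e2.symm with e8 | e8
    · have e9 := hb.idx0 p hp
      have e10 : W.relIndex (D h p) ≠ 0 := by
        intro e11
        exact e9 (by
          by_contra _
          have e12 : W = D h p ⊓ D h (p * g1) := hW
          have e13 : W.relIndex (D h p) = (D h (p * g1)).relIndex (D h p) := by
            rw [e12, Subgroup.inf_relIndex_left]
          rw [e13] at e11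
          exact hb.idx0 _ (out hp ht.1) (Subgroup.index_eq_zero_of_relIndex_eq_zero e11))
      exact e10 e8
    · exact hb.idx0 p hp e8
  by_contra hc
  have e8 : 2 * 5 ≤ W.relIndex H * H.index := Nat.mul_le_mul (by omega) (by omega)
  omega

variable [Finite S.G]

include h in
/-- symbols extend to the whole group -/
theorem extend_all_four (L : Subgroup S.G)
    (hM : ∀ H : Subgroup S.G, H ≠ ⊤ → (∀ a, IndexTwo S a → a ∈ H) → ¬ L ≤ H → StepTwo S H)
    (h4 : ∀ a : S.G, a ∉ L → (D h a).index ≤ 4) :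
    ∀ H : Subgroup S.G, ∀ χ : S.G → S.G → ZMod 2, Sy S H χ →
      ∃ χ' : S.G → S.G → ZMod 2, Sy S ⊤ χ' ∧ ∀ x ∈ H, ∀ b, χ' x b = χ x b := by
  intro H
  induction H using WellFoundedGT.induction with
  | ind H ih =>
    intro χ hχ
    by_cases hH : H = ⊤
    · subst hH
      exact ⟨χ, hχ, fun _ _ _ => rfl⟩
    obtain ⟨a, ha, χ1, h1, h2⟩ : ∃ a ∉ H, ∃ χ1 : S.G → S.G → ZMod 2,
        Sy S (H ⊔ Subgroup.zpowers a) χ1 ∧ ∀ x ∈ H, ∀ b, χ1 x b = χ x b := by
      by_cases hI : ∀ a, IndexTwo S a → a ∈ H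
      · by_cases hLH : L ≤ H
        · by_contra hcon
          have hne : ∀ p, p ∉ H → NE H χ p := fun p hp hex => hcon ⟨p, hp, hex⟩
          have hbad : Bad h H χ := ⟨hχ, hne, fun p hp => h4 p fun hpL => hp (hLH hpL),
            fun p _ => Subgroup.FiniteIndex.index_ne_zero⟩
          have hi := bad_index h hbad hH hI
          obtain ⟨a, ha, c, hc, hMa⟩ := stepTwo_of_step (step_of_index h H hH (by omega))
          exact hne a ha (extend_one h H χ hχ a ha c hc hMa)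
        · obtain ⟨a, ha, c, hc, hMa⟩ := hM H hH hI hLH
          exact ⟨a, ha, extend_one h H χ hχ a ha c hc hMa⟩
      · push Not at hI
        obtain ⟨a, hidx, ha⟩ := hI
        exact ⟨a, ha, extend_idx h H χ hχ a ha hidx⟩
    have hlt : H < H ⊔ Subgroup.zpowers a := by
      refine lt_of_le_of_ne le_sup_left fun e => ha ?_
      rw [e]
      exact (le_sup_right : _ ≤ H ⊔ Subgroup.zpowers a) (Subgroup.mem_zpowers a)
    obtain ⟨χ2, h3, h4'⟩ := ih _ hlt χ1 h1
    exact ⟨χ2, h3, fun x hx b => by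
      rw [h4' x ((le_sup_left : H ≤ _) hx), h2 x hx]⟩

include h in
theorem elem_of_four (L : Subgroup S.G)
    (hM : ∀ H : Subgroup S.G, H ≠ ⊤ → (∀ a, IndexTwo S a → a ∈ H) → ¬ L ≤ H → StepTwo S H)
    (h4 : ∀ a : S.G, a ∉ L → (D h a).index ≤ 4) : Elem S := by
  have hmp : Pool.Agent.W622.ETG.MP S := by
    intro W l f hl hf h0
    obtain ⟨χ', h1, h2⟩ := extend_all_four h L hM h4 W (fun w b => l w * f b)
      ⟨fun a _ b _ c => by
          show l (a * b) * f c = l a * f c + l b * f c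
          rw [hl, add_mul],
        fun a _ b c => by
          show l a * f (b * c) = l a * f b + l a * f c
          rw [hf, mul_add], h0⟩
    exact ⟨χ', h1, h2⟩
  obtain ⟨hcore, hPL, hout, -⟩ := Pool.Agent.W622.ETG.all_parts
  obtain ⟨V, i1, i2, i3, e, A, hA, hH, hiso⟩ :=
    Pool.Agent.W622.ETG.bri_prod hPL S h inferInstance hmp
  exact Elem.iso _ _ (hout V e A (hcore V e A hA hH)) hiso

end Pool.Agent.TH673.VG
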