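import Pool.Agent.TH673.VG.Four
import Pool.Agent.TH673.VG.FieldInd

/-! Index at most four outside the core. -/

set_option autoImplicit false

namespace Pool.Agent.TH673.VG

open Pool.Agent.TH188.ET Pool.Agent.H315R3.ETC

/-- if `V(a)` has index at most four for all `a` outside the core, then `S` is of elementary type -/
theorem elem_of_core_four {S : QData} (h : IsQuat S) [Finite S.G]
    (h4 : ∀ a : S.G, a ∉ Core S → (D h a).index ≤ 4) : Elem S := by
  refine elem_of_four h (Core S) (fun H _ hI hLH => ?_) h4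
  have hcl : ¬ ∀ a : S.G, (∀ x : S.G, ∃ v k : S.G, S.q a v = S.zero ∧ k ∈ H ∧ v * k = x) →
      a ∈ H := fun hc => hLH (sInf_le ⟨hI, hc⟩)
  push Not at hcl
  obtain ⟨a, h1, ha⟩ := hcl
  exact stepTwo_of_step ⟨a, ha, fun _ _ x _ => h1 x⟩

/-- the same for fields -/
theorem field_four {F : Type*} [Field F] (h2 : (2 : F) ≠ 0) (hfin : FinSq F)
    (h4 : ∀ a : Fˣ, a ∉ fieldCore F → (normGroup a).index ≤ 4) :
    ∃ S : QData, Elem S ∧ IsStructureOf F S := by
  obtain ⟨S, hS, hSfin, hSq⟩ := exists_structure h2 hfin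
  refine ⟨S, ?_, hS⟩
  obtain ⟨φ, hs, hk, hn, h0, hq⟩ := hS
  have hz : ∀ a b : Fˣ, S.q (φ a) (φ b) = S.zero ↔ NormFrom a b := by
    intro a b
    rw [← qiso_one h2, ← h0, ← map_one φ]
    exact hq a b 1 1
  refine elem_of_core_four hSq fun a ha => ?_
  obtain ⟨a, rfl⟩ := hs a
  have h5 : a ∉ fieldCore F := by
    rw [core_comap h2 hs hk hSfin hz]
    exact ha
  have h6 : normGroup a = (D hSq (φ a)).comap φ := by
    ext b
    exact (hz a b).symm
  have h7 := h4 a h5
  rwa [h6, Subgroup.index_comap_of_surjective _ hs] at h7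

end Pool.Agent.TH673.VG
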