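import Pool.Agent.W622.ETG.Final
import Pool.Agent.W622.ETG.Bri
import Pool.Agent.TH673.VG.Star

/-! Universal slots give symbols, hence elementary type. -/

set_option autoImplicit false

namespace Pool.Agent.TH673.VG

open Pool.Agent.H315R3.ETC

variable {S : QData} (h : IsQuat S)

include h in
/-- the symbol of a universal slot `s` and a homomorphism `f` vanishing on `V(s)` -/
theorem exists_symbol (s : S.G) (hs : Universal S s) (f : S.G → ZMod 2)
    (hf : ∀ a b, f (a * b) = f a + f b) (hsf : ∀ x, S.q s x = S.zero → f x = 0) :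
    ∃ χ : S.G → S.G → ZMod 2, (∀ a b c, χ (a * b) c = χ a c + χ b c) ∧
      (∀ a b c, χ a (b * c) = χ a b + χ a c) ∧ (∀ a b, S.q a b = S.zero → χ a b = 0) ∧
      ∀ a, (∀ x, S.q a x = S.zero → f x = 0) → ∀ b, χ a b = f b := by
  have f2 : ∀ x y, f (x * y) = 0 → f x = f y := by
    intro x y e
    rw [hf] at e
    have h01 : ∀ u v : ZMod 2, u + v = 0 → u = v := by decide
    exact h01 _ _ e
  have f1 : f 1 = 0 := by
    have h1 := hf 1 1
    rw [mul_one] at h1
    have h01 : ∀ u : ZMod 2, u = u + u → u = 0 := by decide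
    exact h01 _ h1
  have key : ∀ a b z z', S.q a b = S.q s z → S.q a b = S.q s z' → f z = f z' := by
    intro a b z z' e e'
    apply f2
    apply hsf
    exact (h.qs3 _ _ _).1 (e.symm.trans e')
  choose Z hZ using hs
  have val : ∀ a b z, S.q a b = S.q s z → f (Z a b) = f z := fun a b z e =>
    key a b _ _ (hZ a b) e
  have add2 : ∀ a b c, f (Z a (b * c)) = f (Z a b) + f (Z a c) := by
    intro a b c
    obtain ⟨y1, e1, k1⟩ := link h (hZ a b)
    obtain ⟨y2, e2, k2⟩ := link h (hZ a c)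
    have g1 : S.q a b = S.q s y1 := by rw [e1, q_eq_iff h]; exact k1
    have g2 : S.q a c = S.q s y2 := by rw [e2, q_eq_iff h]; exact k2
    have g3 : S.q a (b * c) = S.q s (y1 * y2) := by
      have i1 : b * y1 ∈ D h a := (q_eq_iff' h _ _ _).1 e1
      have i2 : c * y2 ∈ D h a := (q_eq_iff' h _ _ _).1 e2
      have i3 : S.q a (b * c) = S.q a (y1 * y2) := by
        rw [q_eq_iff' h, mul_mul_mul_comm]
        exact (D h a).mul_mem i1 i2
      rw [i3, q_eq_iff h]
      exact (D h (a * s)).mul_mem k1 k2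
    rw [val _ _ _ g1, val _ _ _ g2, val _ _ _ g3, hf]
  have symm : ∀ a b, f (Z a b) = f (Z b a) := by
    intro a b
    apply val
    rw [h.qs2 a b]
    exact hZ b a
  refine ⟨fun a b => f (Z a b), ?_, add2, ?_, ?_⟩
  · intro a b c
    show f (Z (a * b) c) = f (Z a c) + f (Z b c)
    rw [symm (a * b) c, symm a c, symm b c, add2]
  · intro a b hab
    show f (Z a b) = 0
    rw [val a b 1 (by rw [hab, q_one h]), f1]
  · intro a ha b
    show f (Z a b) = f b
    obtain ⟨y1, e1, k1⟩ := link h (hZ a b)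
    have g1 : S.q a b = S.q s y1 := by rw [e1, q_eq_iff h]; exact k1
    rw [val _ _ _ g1]
    exact (f2 _ _ (ha _ ((q_eq_iff' h _ _ _).1 e1))).symm

include h in
theorem mp_of_kernels (hu : UniversalKernels S) : Pool.Agent.W622.ETG.MP S := by
  intro W l f hl hf h0
  have h01 : ∀ u : ZMod 2, u = 0 ∨ u = 1 := by decide
  by_cases hW : ∃ w ∈ W, l w = 1
  · obtain ⟨w0, hw0, hl0⟩ := hW
    have hker : ∀ w ∈ W, l w = 1 → ∀ x, S.q w x = S.zero → f x = 0 := by
      intro w hw hlw x hx
      have := h0 w hw x hx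
      rwa [hlw, one_mul] at this
    obtain ⟨s, hs, hsf⟩ := hu f hf ⟨w0, hker w0 hw0 hl0⟩
    obtain ⟨χ, c1, c2, c3, c4⟩ := exists_symbol h s hs f hf hsf
    refine ⟨χ, ⟨fun a _ b _ c => c1 a b c, fun a _ b c => c2 a b c, fun a _ b => c3 a b⟩, ?_⟩
    intro w hw b
    rcases h01 (l w) with e | e
    · have e1 : l (w * w0) = 1 := by rw [hl, e, hl0, zero_add]
      have e2 := c4 (w * w0) (hker _ (W.mul_mem hw hw0) e1) b
      have e3 := c4 w0 (hker _ hw0 hl0) b
      rw [c1, e3] at e2
      rw [e, zero_mul]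
      have h02 : ∀ u v : ZMod 2, u + v = v → u = 0 := by decide
      exact h02 _ _ e2
    · rw [e, one_mul]
      exact c4 w (hker w hw e) b
  · push Not at hW
    refine ⟨fun _ _ => 0, ⟨fun _ _ _ _ _ => by rw [add_zero], fun _ _ _ _ => by rw [add_zero],
      fun _ _ _ _ => rfl⟩, ?_⟩
    intro w hw b
    rcases h01 (l w) with e | e
    · rw [e, zero_mul]
    · exact absurd e (hW w hw)

include h in
theorem elem_of_kernels (hfin : Finite S.G) (hu : UniversalKernels S) : Elem S := by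
  obtain ⟨hcore, hPL, hout, -⟩ := Pool.Agent.W622.ETG.all_parts
  obtain ⟨V, i1, i2, i3, e, A, hA, hH, hiso⟩ :=
    Pool.Agent.W622.ETG.bri_prod hPL S h hfin (mp_of_kernels h hu)
  exact Elem.iso _ _ (hout V e A (hcore V e A hA hH)) hiso

theorem kernels_of_below (hb : UniversalBelow S) : UniversalKernels S := by
  rintro f - ⟨a, ha⟩
  obtain ⟨s, hs, hsa⟩ := hb a
  exact ⟨s, hs, fun x hx => ha x (hsa x hx)⟩

end Pool.Agent.TH673.VG
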